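import Pool.Agent.Helper66K9.LS.WL
set_option autoImplicit false

/-! # The weighted `L²` estimate in one coordinate -/

namespace Pool.Agent.Helper66K9.LS

open MeasureTheory Set Filter
open scoped ENNReal FourierTransform RealInnerProductSpace Topology
open Pool.Agent.TH280.LS

/-- coordinates: the `i`-th one and the others -/
noncomputable def Zi (m : ℕ) (i : Fin (m + 1)) :
    EuclideanSpace ℝ (Fin (m + 1)) ≃ᵐ ℝ × (Fin m → ℝ) :=
  (MeasurableEquiv.toLp 2 (Fin (m + 1) → ℝ)).symm.trans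
    (MeasurableEquiv.piFinSuccAbove (fun _ => ℝ) i)

section

variable {m : ℕ} (i : Fin (m + 1))

theorem Zi_fst (z : EuclideanSpace ℝ (Fin (m + 1))) : (Zi m i z).1 = z i := rfl

theorem Zi_snd (z : EuclideanSpace ℝ (Fin (m + 1))) (j : Fin m) :
    (Zi m i z).2 j = z (i.succAbove j) := rfl

theorem Zi_mp : MeasurePreserving (Zi m i) :=
  (EuclideanSpace.volume_preserving_symm_measurableEquiv_toLp (Fin (m + 1))).trans
    (volume_preserving_piFinSuccAbove (fun _ => ℝ) i)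

theorem inner_Zi (z w : EuclideanSpace ℝ (Fin (m + 1))) :
    (⟪z, w⟫ : ℝ) = (Zi m i z).1 * (Zi m i w).1 + ∑ j : Fin m, (Zi m i z).2 j * (Zi m i w).2 j := by
  rw [PiLp.inner_apply, Fin.sum_univ_succAbove _ i]
  simp only [RCLike.inner_apply, conj_trivial, Zi_fst, Zi_snd]
  congr 1
  · ring
  · exact Finset.sum_congr rfl fun i _ => by ring

theorem norm_Zi (z : EuclideanSpace ℝ (Fin (m + 1))) :
    ‖z‖ = Real.sqrt ((Zi m i z).1 ^ 2 + ∑ j : Fin m, (Zi m i z).2 j ^ 2) := by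
  rw [EuclideanSpace.norm_eq, Fin.sum_univ_succAbove _ i]
  simp only [Real.norm_eq_abs, sq_abs, Zi_fst, Zi_snd]

theorem F_Zi {f : ℝ × (Fin m → ℝ) → ℂ} (hf : Integrable f)
    (ζ : EuclideanSpace ℝ (Fin (m + 1))) :
    𝓕 (fun z => f (Zi m i z)) ζ = ft (GG m f (Zi m i ζ).2) (Zi m i ζ).1 := by
  rw [F_eq]
  have h1 : ∫ v : EuclideanSpace ℝ (Fin (m + 1)), e (-⟪v, ζ⟫) * f (Zi m i v) =
      ∫ q : ℝ × (Fin m → ℝ), e (-(q.1 * (Zi m i ζ).1)) *
        (e (-(∑ j, q.2 j * (Zi m i ζ).2 j)) * f q) := by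
    rw [← (Zi_mp i).integral_comp (Zi m i).measurableEmbedding]
    refine integral_congr_ae (Filter.Eventually.of_forall fun v => ?_)
    simp only
    rw [← mul_assoc, ← e_add]
    congr 2
    rw [inner_Zi i]
    ring
  rw [h1]
  have hint : Integrable (fun q : ℝ × (Fin m → ℝ) =>
      e (-(q.1 * (Zi m i ζ).1)) * (e (-(∑ j, q.2 j * (Zi m i ζ).2 j)) * f q)) := by
    refine Integrable.bdd_mul (c := 1) (Integrable.bdd_mul (c := 1) hf ?_ ?_) ?_ ?_
    · exact (measurable_e.comp (Measurable.neg (by fun_prop))).aestronglyMeasurable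
    · exact Filter.Eventually.of_forall fun q => (norm_e _).le
    · exact (measurable_e.comp (Measurable.neg (by fun_prop))).aestronglyMeasurable
    · exact Filter.Eventually.of_forall fun q => (norm_e _).le
  rw [Measure.volume_eq_prod, integral_prod _ hint]
  unfold ft GG ftm
  refine integral_congr_ae (Filter.Eventually.of_forall fun x => ?_)
  simp only
  rw [integral_const_mul]

end

/-- not square integrable -/
theorem lint_top_of_not_memLp {X : Type*} [MeasurableSpace X] {μ : Measure X} {f : X → ℂ}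
    (hf : AEStronglyMeasurable f μ) (h : ¬ MemLp f 2 μ) : ∫⁻ x, ‖f x‖ₑ ^ 2 ∂μ = ⊤ := by
  by_contra hne
  refine h ⟨hf, ?_⟩
  rw [eLpNorm_lt_top_iff_lintegral_rpow_enorm_lt_top (by norm_num) (by norm_num)]
  simp only [ENNReal.toReal_ofNat, ENNReal.rpow_ofNat]
  exact lt_top_iff_ne_top.mpr hne

/-- Plancherel for the slices -/
theorem GG_L2 (m : ℕ) {f : ℝ × (Fin m → ℝ) → ℂ} (hf : Measurable f) (x : ℝ) :
    ∫⁻ η : Fin m → ℝ, ‖GG m f η x‖ₑ ^ 2 ≤ ∫⁻ y : Fin m → ℝ, ‖f (x, y)‖ₑ ^ 2 := by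
  have hm : Measurable (fun y => f (x, y)) := hf.comp measurable_prodMk_left
  by_cases hi : Integrable (fun y => f (x, y))
  swap
  · have h0 : ∀ η : Fin m → ℝ, GG m f η x = 0 := by
      intro η
      unfold GG ftm
      apply integral_undef
      intro hc
      apply hi
      have h1 : Integrable (fun y : Fin m → ℝ => e (∑ i, y i * η i) *
          (e (-(∑ i, y i * η i)) * f (x, y))) := by
        refine hc.bdd_mul (c := 1) ?_ ?_
        · exact (measurable_e.comp (by fun_prop)).aestronglyMeasurable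
        · exact Filter.Eventually.of_forall fun q => (norm_e _).le
      refine h1.congr (Eventually.of_forall fun y => ?_)
      simp only
      rw [← mul_assoc, ← e_add, add_neg_cancel, e_zero, one_mul]
    simp [h0]
  by_cases h2 : MemLp (fun y => f (x, y)) 2
  swap
  · rw [lint_top_of_not_memLp hm.aestronglyMeasurable h2]
    exact le_top
  refine le_of_eq ?_
  rw [← ftm_planch _ hi h2]
  rw [← (Measure.measurePreserving_neg (volume : Measure (Fin m → ℝ))).lintegral_comp_emb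
    (MeasurableEquiv.neg (Fin m → ℝ)).measurableEmbedding (fun η => ‖GG m f η x‖ₑ ^ 2)]
  refine lintegral_congr fun η => ?_
  congr 2
  unfold GG ftm
  refine integral_congr_ae (Filter.Eventually.of_forall fun y => ?_)
  change e (-(∑ i, y i * (-η) i)) * f (x, y) = e (∑ i, η i * y i) * f (x, y)
  congr 2
  rw [← Finset.sum_neg_distrib]
  refine Finset.sum_congr rfl fun j _ => ?_
  simp only [Pi.neg_apply]
  ring

section

variable {N A : ℝ} {Ψ : ℝ → ℝ}

/-- the cutoff in the last variable -/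
theorem cut_Ψ (hN : 1 ≤ N) (h : Sym N A Ψ) (hA : 0 < A) (c : ℝ) (hc : 0 ≤ c) :
    Cut 2 N (fun ξ => ((Ψ (ξ ^ 2 + c) / (2 * A) : ℝ) : ℂ)) := by
  have hN0 : 0 < N := by linarith
  refine ⟨fun ξ => ?_, fun ξ ξ' => ?_, fun ξ hξ => ?_⟩
  · rw [Complex.norm_real, Real.norm_eq_abs, abs_div, abs_of_pos (by positivity : 0 < 2 * A),
      div_le_one (by positivity)]
    have := h.b0 (ξ ^ 2 + c)
    linarith
  · rw [← Complex.ofReal_sub, Complex.norm_real]
    have hd : ∀ x ∈ (univ : Set ℝ), HasDerivWithinAt (fun ξ : ℝ => Ψ (ξ ^ 2 + c) / (2 * A))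
        (deriv Ψ (x ^ 2 + c) * (2 * x) / (2 * A)) univ x := by
      intro x _
      have h1 : HasDerivAt (fun ξ : ℝ => ξ ^ 2 + c) (2 * x) x := by
        have := (hasDerivAt_pow 2 x).add_const c
        simpa using this
      exact (((h.diff (x ^ 2 + c)).comp x h1).div_const (2 * A)).hasDerivWithinAt
    have hb : ∀ x ∈ (univ : Set ℝ), ‖deriv Ψ (x ^ 2 + c) * (2 * x) / (2 * A)‖ ≤ 2 / N := by
      intro x _
      by_cases h0 : 2 * N ^ 2 < x ^ 2 + c
      · rw [(h.zero1_nhds (Or.inr h0)).self_of_nhds]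
        simp only [zero_mul, zero_div, norm_zero]
        positivity
      · push Not at h0
        have hx : |x| ≤ 3 / 2 * N := by
          apply abs_le_of_sq_le_sq _ (by positivity)
          nlinarith
        rw [norm_div, norm_mul, norm_mul, Real.norm_eq_abs, Real.norm_eq_abs, Real.norm_eq_abs,
          Real.norm_eq_abs, abs_of_pos (by positivity : 0 < 2 * A), abs_of_pos
          (by norm_num : (0 : ℝ) < 2), div_le_div_iff₀ (by positivity) hN0]
        have h1 := h.b1 (x ^ 2 + c)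
        calc |deriv Ψ (x ^ 2 + c)| * (2 * |x|) * N ≤ A / N ^ 2 * (2 * (3 / 2 * N)) * N := by
              gcongr
          _ = 3 * A := by field_simp
          _ ≤ 2 * (2 * A) := by linarith
    have := convex_univ.norm_image_sub_le_of_norm_hasDerivWithin_le hd hb (mem_univ ξ')
      (mem_univ ξ)
    rw [Real.norm_eq_abs (ξ - ξ')] at this
    exact this
  · have h1 : Ψ (ξ ^ 2 + c) = 0 := by
      apply h.zero
      right
      have h2 : (2 * N) ^ 2 < ξ ^ 2 := by
        rw [← sq_abs ξ]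
        exact pow_lt_pow_left₀ hξ (by positivity) (by norm_num)
      nlinarith
    change ((Ψ (ξ ^ 2 + c) / (2 * A) : ℝ) : ℂ) = 0
    rw [h1]
    simp

/-- length of a vector -/
noncomputable def ln {m : ℕ} (η : Fin m → ℝ) : ℝ := Real.sqrt (∑ i, η i ^ 2)

theorem ra_ln {m : ℕ} (η : Fin m → ℝ) (ξ : ℝ) : ra (ln η) ξ ^ 2 = ξ ^ 2 + ∑ i, η i ^ 2 := by
  have h : 0 ≤ ∑ i, η i ^ 2 := Finset.sum_nonneg fun i _ => sq_nonneg _
  unfold ra ln
  rw [Real.sq_sqrt (by positivity), Real.sq_sqrt h]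

/-- partial inverse transform -/
noncomputable def UU (m : ℕ) (Ψ : ℝ → ℝ) (f : ℝ × (Fin m → ℝ) → ℂ) (t a : ℝ) (η : Fin m → ℝ) : ℂ :=
  ∫ ξ : ℝ, e (a * ξ) * (Mt Ψ t (ra (ln η) ξ) * ft (GG m f η) ξ)

theorem UU_meas {m : ℕ} (h : Sym N A Ψ) {f : ℝ × (Fin m → ℝ) → ℂ} (hf : Measurable f) :
    Measurable (fun q : (ℝ × ℝ) × (Fin m → ℝ) => UU m Ψ f q.1.1 q.1.2 q.2) := by
  have hG : Measurable (fun q : (Fin m → ℝ) × ℝ => GG m f q.1 q.2) := by
    have h1 : StronglyMeasurable (fun q : ((Fin m → ℝ) × ℝ) × (Fin m → ℝ) =>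
        e (-(∑ i, q.2 i * q.1.1 i)) * f (q.1.2, q.2)) := by
      apply Measurable.stronglyMeasurable
      refine Measurable.mul ?_ ?_
      · exact measurable_e.comp (Measurable.neg (by fun_prop))
      · exact hf.comp (by fun_prop)
    exact (h1.integral_prod_right' (ν := volume)).measurable
  have hF : Measurable (fun q : (Fin m → ℝ) × ℝ => ft (GG m f q.1) q.2) := by
    have h1 : StronglyMeasurable (fun q : ((Fin m → ℝ) × ℝ) × ℝ =>
        e (-(q.2 * q.1.2)) * GG m f q.1.1 q.2) := by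
      apply Measurable.stronglyMeasurable
      refine Measurable.mul ?_ ?_
      · exact measurable_e.comp (Measurable.neg (by fun_prop))
      · exact hG.comp (f := fun q : ((Fin m → ℝ) × ℝ) × ℝ => (q.1.1, q.2)) (by fun_prop)
    exact (h1.integral_prod_right' (ν := volume)).measurable
  have h1 : StronglyMeasurable (fun q : ((ℝ × ℝ) × (Fin m → ℝ)) × ℝ =>
      e (q.1.1.2 * q.2) * (Mt Ψ q.1.1.1 (ra (ln q.1.2) q.2) * ft (GG m f q.1.2) q.2)) := by
    apply Measurable.stronglyMeasurable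
    refine Measurable.mul (measurable_e.comp (by fun_prop)) (Measurable.mul ?_ ?_)
    · have h2 : Measurable (fun q : ((ℝ × ℝ) × (Fin m → ℝ)) × ℝ =>
          (q.1.1.1, ra (ln q.1.2) q.2)) := by
        unfold ra ln
        fun_prop
      exact (Mt_meas h).comp h2
    · exact hF.comp (f := fun q : ((ℝ × ℝ) × (Fin m → ℝ)) × ℝ => (q.1.2, q.2)) (by fun_prop)
  exact (h1.integral_prod_right' (ν := volume)).measurable

/-- the dual estimate in time -/
theorem UU_time (hDUAL : S_DUAL) : ∃ C : ℝ, 0 < C ∧ ∀ (m : ℕ) (N A : ℝ) (Ψ : ℝ → ℝ), 1 ≤ N →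
    Sym N A Ψ → ∀ f : ℝ × (Fin m → ℝ) → ℂ, Integrable f → ∀ (a : ℝ) (η : Fin m → ℝ), 0 < ln η →
    Integrable (GG m f η) →
    ∫⁻ t in Icc (-2 : ℝ) 2, ‖UU m Ψ f t a η‖ₑ ^ 2 ≤ ENNReal.ofReal (C * A ^ 2 * (1 + Real.log N)) *
      ∫⁻ v : ℝ, (ENNReal.ofReal (Wt N v))⁻¹ * ‖GG m f η (v + a)‖ₑ ^ 2 := by
  obtain ⟨C, hC, hD⟩ := hDUAL
  refine ⟨4 * C, by positivity, ?_⟩
  intro m N A Ψ hN h f hf a η hη hG
  have hlog : 0 ≤ Real.log N := Real.log_nonneg hN
  rcases h.nonneg.eq_or_lt with hA | hA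
  · have h0 : ∀ σ, Ψ σ = 0 := fun σ => by
      have := h.b0 σ
      rw [← hA] at this
      exact abs_nonpos_iff.1 this
    have h1 : ∀ t, UU m Ψ f t a η = 0 := by
      intro t
      unfold UU Mt
      simp [h0]
    simp [h1]
  have hc0 : 0 ≤ ∑ i, η i ^ 2 := Finset.sum_nonneg fun i _ => sq_nonneg _
  have hEv : Ev (ra (ln η)) (fun ξ => ξ / ra (ln η) ξ) := by
    refine ⟨fun ξ => Pool.Agent.TH73.LS4.ra_deriv hη ξ, Pool.Agent.TH73.LS4.hp_mono hη,
      fun ξ => (Pool.Agent.TH73.LS4.hp_abs hη ξ).trans (by norm_num), fun ξ => ?_⟩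
    unfold ra
    rw [neg_sq]
  have key := hD N (ra (ln η)) (fun ξ => ξ / ra (ln η) ξ)
    (fun ξ => ((Ψ (ξ ^ 2 + ∑ i, η i ^ 2) / (2 * A) : ℝ) : ℂ)) (fun x => GG m f η (x + a)) hN hEv
    (cut_Ψ hN h hA _ hc0) (hG.comp_add_right a)
  have hft : ∀ ξ, ft (fun x => GG m f η (x + a)) ξ = e (a * ξ) * ft (GG m f η) ξ := by
    intro ξ
    unfold ft
    rw [← integral_const_mul, ← integral_add_right_eq_self
      (fun x => e (a * ξ) * (e (-(x * ξ)) * GG m f η x)) a]
    refine integral_congr_ae (Eventually.of_forall fun x => ?_)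
    simp only
    rw [← mul_assoc, ← e_add]
    congr 2
    ring
  have hU : ∀ t, UU m Ψ f t a η = (2 * A : ℂ) * ∫ ξ : ℝ, e (t * ra (ln η) ξ) *
      (((Ψ (ξ ^ 2 + ∑ i, η i ^ 2) / (2 * A) : ℝ) : ℂ) * ft (fun x => GG m f η (x + a)) ξ) := by
    intro t
    rw [← integral_const_mul]
    unfold UU Mt
    refine integral_congr_ae (Eventually.of_forall fun ξ => ?_)
    simp only
    rw [hft, ra_ln]
    have hA' : (A : ℂ) ≠ 0 := by exact_mod_cast hA.ne'
    push_cast
    field_simp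
  calc ∫⁻ t in Icc (-2 : ℝ) 2, ‖UU m Ψ f t a η‖ₑ ^ 2
      = ∫⁻ t in Icc (-2 : ℝ) 2, ENNReal.ofReal (4 * A ^ 2) * ‖∫ ξ : ℝ, e (t * ra (ln η) ξ) *
        (((Ψ (ξ ^ 2 + ∑ i, η i ^ 2) / (2 * A) : ℝ) : ℂ) *
          ft (fun x => GG m f η (x + a)) ξ)‖ₑ ^ 2 := by
        refine lintegral_congr fun t => ?_
        rw [hU, enorm_mul, mul_pow]
        congr 1
        have : ‖(2 * A : ℂ)‖ₑ = ENNReal.ofReal (2 * A) := by
          rw [← ofReal_norm, norm_mul, Complex.norm_real, Real.norm_eq_abs, abs_of_pos hA]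
          simp
        rw [this, ← ENNReal.ofReal_pow (by positivity)]
        congr 1
        ring
    _ = ENNReal.ofReal (4 * A ^ 2) * ∫⁻ t in Icc (-2 : ℝ) 2, ‖∫ ξ : ℝ, e (t * ra (ln η) ξ) *
        (((Ψ (ξ ^ 2 + ∑ i, η i ^ 2) / (2 * A) : ℝ) : ℂ) *
          ft (fun x => GG m f η (x + a)) ξ)‖ₑ ^ 2 :=
        lintegral_const_mul' _ _ ENNReal.ofReal_ne_top
    _ ≤ ENNReal.ofReal (4 * A ^ 2) * (ENNReal.ofReal (C * (1 + Real.log N)) *
      ∫⁻ v : ℝ, (ENNReal.ofReal (Wt N v))⁻¹ * ‖GG m f η (v + a)‖ₑ ^ 2) := by gcongr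
    _ = _ := by
        rw [← mul_assoc, ← ENNReal.ofReal_mul (by positivity)]
        congr 2
        ring

end

end Pool.Agent.Helper66K9.LS
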