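import Pool.Agent.Helper66K9.LS.A
set_option autoImplicit false

/-! # The weighted `L²` estimate in one coordinate: conclusion -/

namespace Pool.Agent.Helper66K9.LS

open MeasureTheory Set Filter
open scoped ENNReal FourierTransform RealInnerProductSpace Topology
open Pool.Agent.TH280.LS

theorem A_coord (hDUAL : S_DUAL) (hW : S_W) (m : ℕ) (hm : 1 ≤ m) (i : Fin (m + 1)) (R0 : ℝ)
    (hR0 : 0 ≤ R0) : ∃ C : ℝ, 0 < C ∧ ∀ (N A : ℝ) (Ψ : ℝ → ℝ), 1 ≤ N → Sym N A Ψ →
    ∀ V : EuclideanSpace ℝ (Fin (m + 1)) → ℂ, Integrable V → Measurable V →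
    (∀ w, R0 < |w i| → V w = 0) →
    ∫⁻ t in Icc (-2 : ℝ) 2, ∫⁻ z, ENNReal.ofReal (om N (z i)) * ‖TM (Mt Ψ t) V z‖ₑ ^ 2 ≤
      ENNReal.ofReal (C * A ^ 2 * (1 + Real.log N) ^ 2) *
        ∫⁻ z, ENNReal.ofReal (om N (z i)) * ‖V z‖ₑ ^ 2 := by
  obtain ⟨C1, hC1, hU⟩ := UU_time hDUAL
  obtain ⟨C2, hC2, hwt⟩ := weight hW R0 hR0
  refine ⟨C1 * C2, by positivity, ?_⟩
  intro N A Ψ hN h V hV hVm hVs
  have hN0 : 0 < N := by linarith
  have hA := h.nonneg
  have hlog : 0 ≤ Real.log N := Real.log_nonneg hN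
  -- the function in coordinates
  set f : ℝ × (Fin m → ℝ) → ℂ := fun q => V ((Zi m i).symm q) with hf
  have hfm : Measurable f := hVm.comp (Zi m i).symm.measurable
  have hVf : V = fun z => f (Zi m i z) := by
    funext z
    simp only [hf, MeasurableEquiv.symm_apply_apply]
  have hmps : MeasurePreserving (Zi m i).symm := (Zi_mp i).symm
  have hfi : Integrable f := (hmps.integrable_comp_emb (Zi m i).symm.measurableEmbedding).2 hV
  -- the Fourier side
  set H : ℝ → ℝ × (Fin m → ℝ) → ℂ := fun t q => Mt Ψ t (ra (ln q.2) q.1) * ft (GG m f q.2) q.1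
    with hH
  have hHZ : ∀ t ζ, H t (Zi m i ζ) = Mt Ψ t ‖ζ‖ * 𝓕 V ζ := by
    intro t ζ
    simp only [hH]
    have e1 : 𝓕 V ζ = ft (GG m f (Zi m i ζ).2) (Zi m i ζ).1 := by
      conv_lhs => rw [hVf]
      exact F_Zi i hfi ζ
    have e2 : ra (ln (Zi m i ζ).2) (Zi m i ζ).1 = ‖ζ‖ := by
      rw [norm_Zi i]
      unfold ra ln
      rw [Real.sq_sqrt (Finset.sum_nonneg fun i _ => sq_nonneg _)]
    rw [e1, e2]
  have hHi : ∀ t, Integrable (H t) := by
    intro t
    have h1 : Integrable (fun ζ => H t (Zi m i ζ)) := by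
      simp_rw [hHZ]
      exact int_MF (Mt_mul hN h t) hV
    exact ((Zi_mp i).integrable_comp_emb (Zi m i).measurableEmbedding).1 h1
  set K : ℝ := ∫ z, ‖V z‖ with hK
  have hK0 : 0 ≤ K := integral_nonneg fun z => norm_nonneg _
  have hHb : ∀ t q, ‖H t q‖ ≤ A * K := by
    intro t q
    have e1 : H t q = Mt Ψ t ‖(Zi m i).symm q‖ * 𝓕 V ((Zi m i).symm q) := by
      rw [← hHZ, MeasurableEquiv.apply_symm_apply]
    rw [e1]
    exact bdd_MF (Mt_mul hN h t) _
  have hHs : ∀ t (q : ℝ × (Fin m → ℝ)), 2 * N < |q.1| → H t q = 0 := by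
    intro t q hq
    simp only [hH]
    have h1 : 2 * N < ra (ln q.2) q.1 := by
      refine lt_of_lt_of_le hq ?_
      unfold ra
      apply Real.le_sqrt_of_sq_le
      rw [sq_abs]
      nlinarith [sq_nonneg (ln q.2)]
    rw [(Mt_mul hN h t).supp _ h1, zero_mul]
  -- `UU`
  have hUU : ∀ t a η, UU m Ψ f t a η = ∫ ξ : ℝ, e (a * ξ) * H t (ξ, η) := fun t a η => rfl
  have heH : ∀ (t a : ℝ), Integrable (fun q : ℝ × (Fin m → ℝ) => e (a * q.1) * H t q) := by
    intro t a
    refine (hHi t).bdd_mul (c := 1) ?_ ?_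
    · exact (measurable_e.comp (by fun_prop)).aestronglyMeasurable
    · exact Filter.Eventually.of_forall fun q => (norm_e _).le
  have hUi : ∀ t a, Integrable (fun η => UU m Ψ f t a η) := by
    intro t a
    have h1 := heH t a
    rw [Measure.volume_eq_prod] at h1
    exact h1.integral_prod_right
  have hUb : ∀ t a η, ‖UU m Ψ f t a η‖ ≤ A * K * (4 * N) := by
    intro t a η
    rw [hUU]
    have h1 : ∫ ξ : ℝ, e (a * ξ) * H t (ξ, η) =
        ∫ ξ in Icc (-(2 * N)) (2 * N), e (a * ξ) * H t (ξ, η) := by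
      symm
      apply setIntegral_eq_integral_of_forall_compl_eq_zero
      intro ξ hξ
      rw [hHs t (ξ, η), mul_zero]
      simp only [mem_Icc, not_and_or, not_le] at hξ
      rcases hξ with hξ | hξ
      · exact lt_abs.2 (Or.inr (by linarith))
      · exact lt_abs.2 (Or.inl hξ)
    rw [h1]
    refine (norm_setIntegral_le_of_norm_le_const (C := A * K) (by simp) ?_).trans (le_of_eq ?_)
    · intro ξ _
      rw [norm_mul, norm_e, one_mul]
      exact hHb t _
    · rw [Measure.real, Real.volume_Icc, ENNReal.toReal_ofReal (by linarith)]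
      ring
  have hU2 : ∀ t a, MemLp (fun η => UU m Ψ f t a η) 2 := fun t a =>
    memLp2_of_bdd (hUi t a) (fun η => hUb t a η)
  -- the operator
  have hTM : ∀ t z, TM (Mt Ψ t) V z = ∫ η : Fin m → ℝ,
      e (∑ j, (Zi m i z).2 j * η j) * UU m Ψ f t (Zi m i z).1 η := by
    intro t z
    unfold TM
    have h1 : ∫ ζ, e (⟪z, ζ⟫ : ℝ) * (Mt Ψ t ‖ζ‖ * 𝓕 V ζ) =
        ∫ q : ℝ × (Fin m → ℝ), e (∑ j, (Zi m i z).2 j * q.2 j) *
          (e ((Zi m i z).1 * q.1) * H t q) := by
      rw [← (Zi_mp i).integral_comp (Zi m i).measurableEmbedding]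
      refine integral_congr_ae (Filter.Eventually.of_forall fun ζ => ?_)
      simp only
      rw [hHZ, ← mul_assoc (e _) (e _), ← e_add, inner_Zi i]
      congr 2
      ring
    rw [h1]
    have h2 : Integrable (fun q : ℝ × (Fin m → ℝ) => e (∑ j, (Zi m i z).2 j * q.2 j) *
          (e ((Zi m i z).1 * q.1) * H t q)) := by
      refine (heH t _).bdd_mul (c := 1) ?_ ?_
      · exact (measurable_e.comp (by fun_prop)).aestronglyMeasurable
      · exact Filter.Eventually.of_forall fun q => (norm_e _).le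
    rw [Measure.volume_eq_prod, integral_prod_symm _ h2]
    refine integral_congr_ae (Filter.Eventually.of_forall fun η => ?_)
    simp only
    rw [integral_const_mul]
    rfl
  -- measurability
  have hTMm : Measurable (fun q : ℝ × EuclideanSpace ℝ (Fin (m + 1)) => TM (Mt Ψ q.1) V q.2) :=
    TM_meas (Mt_meas h) hV
  have hUm := UU_meas (m := m) h hfm
  -- spatial Plancherel
  have step1 : ∀ t, ∫⁻ z, ENNReal.ofReal (om N (z i)) * ‖TM (Mt Ψ t) V z‖ₑ ^ 2 =
      ∫⁻ a : ℝ, ENNReal.ofReal (om N a) * ∫⁻ η : Fin m → ℝ, ‖UU m Ψ f t a η‖ₑ ^ 2 := by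
    intro t
    have h1 : ∫⁻ z, ENNReal.ofReal (om N (z i)) * ‖TM (Mt Ψ t) V z‖ₑ ^ 2 =
        ∫⁻ q : ℝ × (Fin m → ℝ), ENNReal.ofReal (om N q.1) *
          ‖∫ η : Fin m → ℝ, e (∑ j, q.2 j * η j) * UU m Ψ f t q.1 η‖ₑ ^ 2 := by
      rw [← (Zi_mp i).lintegral_comp_emb (Zi m i).measurableEmbedding]
      refine lintegral_congr fun z => ?_
      rw [hTM]
      rfl
    rw [h1, Measure.volume_eq_prod, lintegral_prod]
    · refine lintegral_congr fun a => ?_
      change ∫⁻ y : Fin m → ℝ, ENNReal.ofReal (om N a) *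
        ‖∫ η : Fin m → ℝ, e (∑ j, y j * η j) * UU m Ψ f t a η‖ₑ ^ 2 = _
      rw [lintegral_const_mul' _ _ ENNReal.ofReal_ne_top]
      congr 1
      exact ftm_planch _ (hUi t a) (hU2 t a)
    · have h2 : (fun q : ℝ × (Fin m → ℝ) => ENNReal.ofReal (om N q.1) *
          ‖∫ η : Fin m → ℝ, e (∑ j, q.2 j * η j) * UU m Ψ f t q.1 η‖ₑ ^ 2) =
          fun q => ENNReal.ofReal (om N q.1) * ‖TM (Mt Ψ t) V ((Zi m i).symm q)‖ₑ ^ 2 := by
        funext q
        rw [hTM, MeasurableEquiv.apply_symm_apply]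
      rw [h2]
      refine Measurable.aemeasurable (Measurable.mul
        (((om_meas N).comp measurable_fst).ennreal_ofReal) (Measurable.pow_const (Measurable.enorm ?_) 2))
      exact (hTMm.comp measurable_prodMk_left).comp (Zi m i).symm.measurable
  -- slices
  have hGi : ∀ η : Fin m → ℝ, Integrable (GG m f η) := by
    intro η
    obtain ⟨hGm, g, hg, hGg⟩ := GG_adm m hfi hfm
    exact hg.mono' (hGm.comp measurable_prodMk_left).aestronglyMeasurable
      (Eventually.of_forall fun x => hGg η x)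
  have hGm : Measurable (Function.uncurry (GG m f)) := (GG_adm m hfi hfm).1
  have hln : ∀ᵐ η : Fin m → ℝ, 0 < ln η := by
    have : Nonempty (Fin m) := ⟨⟨0, by omega⟩⟩
    have h0 : ∀ᵐ η : Fin m → ℝ, η ≠ 0 := by
      rw [ae_iff]
      have h1 : {a : Fin m → ℝ | ¬ a ≠ 0} = {0} := by ext; simp
      rw [h1]
      exact measure_singleton 0
    filter_upwards [h0] with η hη
    unfold ln
    apply Real.sqrt_pos.2
    obtain ⟨j, hj⟩ := Function.ne_iff.1 hη
    refine Finset.sum_pos' (fun j _ => sq_nonneg _) ⟨j, Finset.mem_univ _, ?_⟩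
    have : η j ≠ 0 := hj
    positivity
  set B : ℝ≥0∞ := ENNReal.ofReal (C1 * A ^ 2 * (1 + Real.log N)) with hB
  set Wi : ℝ → ℝ≥0∞ := fun v => (ENNReal.ofReal (Wt N v))⁻¹ with hWi
  have hWm : Measurable Wi := ((Pool.Agent.TH73.LS4.Wt_meas N).ennreal_ofReal).inv
  set hh : ℝ → ℝ≥0∞ := fun x => ∫⁻ y : Fin m → ℝ, ‖f (x, y)‖ₑ ^ 2 with hhh
  have hhm : Measurable hh := Measurable.lintegral_prod_right' (hfm.enorm.pow_const 2)
  have hoM : Measurable (fun a : ℝ => ENNReal.ofReal (om N a)) := (om_meas N).ennreal_ofReal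
  have step2 : ∀ a : ℝ, ∫⁻ t in Icc (-2 : ℝ) 2, ∫⁻ η : Fin m → ℝ, ‖UU m Ψ f t a η‖ₑ ^ 2 ≤
      B * ∫⁻ v : ℝ, Wi v * hh (v + a) := by
    intro a
    calc ∫⁻ t in Icc (-2 : ℝ) 2, ∫⁻ η : Fin m → ℝ, ‖UU m Ψ f t a η‖ₑ ^ 2
        = ∫⁻ η : Fin m → ℝ, ∫⁻ t in Icc (-2 : ℝ) 2, ‖UU m Ψ f t a η‖ₑ ^ 2 := by
          refine lintegral_lintegral_swap ?_
          have : Measurable (fun q : ℝ × (Fin m → ℝ) => UU m Ψ f q.1 a q.2) :=
            hUm.comp (f := fun q : ℝ × (Fin m → ℝ) => ((q.1, a), q.2)) (by fun_prop)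
          exact (this.enorm.pow_const 2).aemeasurable
      _ ≤ ∫⁻ η : Fin m → ℝ, B * ∫⁻ v : ℝ, Wi v * ‖GG m f η (v + a)‖ₑ ^ 2 := by
          refine lintegral_mono_ae ?_
          filter_upwards [hln] with η hη
          exact hU m N A Ψ hN h f hfi a η hη (hGi η)
      _ = B * ∫⁻ η : Fin m → ℝ, ∫⁻ v : ℝ, Wi v * ‖GG m f η (v + a)‖ₑ ^ 2 :=
          lintegral_const_mul' _ _ ENNReal.ofReal_ne_top
      _ = B * ∫⁻ v : ℝ, ∫⁻ η : Fin m → ℝ, Wi v * ‖GG m f η (v + a)‖ₑ ^ 2 := by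
          congr 1
          refine lintegral_lintegral_swap ?_
          have : Measurable (fun q : (Fin m → ℝ) × ℝ => GG m f q.1 (q.2 + a)) :=
            hGm.comp (f := fun q : (Fin m → ℝ) × ℝ => (q.1, q.2 + a)) (by fun_prop)
          exact ((hWm.comp measurable_snd).mul (this.enorm.pow_const 2)).aemeasurable
      _ ≤ B * ∫⁻ v : ℝ, Wi v * hh (v + a) := by
          gcongr with v
          rw [lintegral_const_mul]
          · gcongr
            exact GG_L2 m hfm (v + a)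
          · exact ((hGm.comp measurable_prodMk_right).enorm.pow_const 2)
  have step3 : ∀ a : ℝ, ∫⁻ v : ℝ, Wi v * hh (v + a) = ∫⁻ b : ℝ, Wi (b - a) * hh b := by
    intro a
    rw [← lintegral_add_right_eq_self (fun b : ℝ => Wi (b - a) * hh b) a]
    simp only [add_sub_cancel_right]
  calc ∫⁻ t in Icc (-2 : ℝ) 2, ∫⁻ z, ENNReal.ofReal (om N (z i)) * ‖TM (Mt Ψ t) V z‖ₑ ^ 2
      = ∫⁻ t in Icc (-2 : ℝ) 2, ∫⁻ a : ℝ, ENNReal.ofReal (om N a) *
          ∫⁻ η : Fin m → ℝ, ‖UU m Ψ f t a η‖ₑ ^ 2 := lintegral_congr fun t => step1 t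
    _ = ∫⁻ a : ℝ, ∫⁻ t in Icc (-2 : ℝ) 2, ENNReal.ofReal (om N a) *
          ∫⁻ η : Fin m → ℝ, ‖UU m Ψ f t a η‖ₑ ^ 2 := by
        refine lintegral_lintegral_swap ?_
        have h3 : Measurable (fun q : ℝ × ℝ => ∫⁻ η : Fin m → ℝ, ‖UU m Ψ f q.1 q.2 η‖ₑ ^ 2) :=
          Measurable.lintegral_prod_right' (hUm.enorm.pow_const 2)
        exact ((hoM.comp measurable_snd).mul h3).aemeasurable
    _ = ∫⁻ a : ℝ, ENNReal.ofReal (om N a) * ∫⁻ t in Icc (-2 : ℝ) 2,
          ∫⁻ η : Fin m → ℝ, ‖UU m Ψ f t a η‖ₑ ^ 2 := by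
        refine lintegral_congr fun a => ?_
        rw [lintegral_const_mul' _ _ ENNReal.ofReal_ne_top]
    _ ≤ ∫⁻ a : ℝ, ENNReal.ofReal (om N a) * (B * ∫⁻ b : ℝ, Wi (b - a) * hh b) := by
        refine lintegral_mono fun a => ?_
        have h7 := step2 a
        rw [step3] at h7
        exact mul_le_mul_right h7 _
    _ = B * ∫⁻ a : ℝ, ∫⁻ b : ℝ, ENNReal.ofReal (om N a) * (Wi (b - a) * hh b) := by
        rw [← lintegral_const_mul' _ _ ENNReal.ofReal_ne_top]
        refine lintegral_congr fun a => ?_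
        rw [lintegral_const_mul' _ _ ENNReal.ofReal_ne_top]
        ring
    _ = B * ∫⁻ b : ℝ, ∫⁻ a : ℝ, ENNReal.ofReal (om N a) * (Wi (b - a) * hh b) := by
        congr 1
        refine lintegral_lintegral_swap ?_
        have h3 : Measurable (fun q : ℝ × ℝ => Wi (q.2 - q.1)) := hWm.comp (by fun_prop)
        exact ((hoM.comp measurable_fst).mul (h3.mul (hhm.comp measurable_snd))).aemeasurable
    _ = B * ∫⁻ b : ℝ, hh b * ∫⁻ a : ℝ, ENNReal.ofReal (om N a) * Wi (b - a) := by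
        congr 1
        refine lintegral_congr fun b => ?_
        rw [← lintegral_const_mul]
        · refine lintegral_congr fun a => ?_
          ring
        · have h3 : Measurable (fun a : ℝ => Wi (b - a)) := hWm.comp (by fun_prop)
          exact hoM.mul h3
    _ ≤ B * ∫⁻ b : ℝ, hh b * (ENNReal.ofReal (C2 * (1 + Real.log N)) *
          ENNReal.ofReal (om N b)) := by
        refine mul_le_mul_right (lintegral_mono fun b => ?_) _
        by_cases hb : |b| ≤ R0
        · exact mul_le_mul_right (hwt N hN b hb) _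
        · push Not at hb
          have h0 : hh b = 0 := by
            simp only [hhh]
            have : ∀ y : Fin m → ℝ, f (b, y) = 0 := by
              intro y
              simp only [hf]
              apply hVs
              have h4 : ((Zi m i).symm (b, y)) i = b := by
                rw [← Zi_fst i, MeasurableEquiv.apply_symm_apply]
              rw [h4]
              exact hb
            simp [this]
          simp [h0]
    _ = B * (ENNReal.ofReal (C2 * (1 + Real.log N)) *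
          ∫⁻ b : ℝ, ENNReal.ofReal (om N b) * hh b) := by
        congr 1
        rw [← lintegral_const_mul' _ _ ENNReal.ofReal_ne_top]
        refine lintegral_congr fun b => ?_
        ring
    _ = _ := by
        have h5 : ∫⁻ b : ℝ, ENNReal.ofReal (om N b) * hh b =
            ∫⁻ z, ENNReal.ofReal (om N (z i)) * ‖V z‖ₑ ^ 2 := by
          have h6 : ∫⁻ z, ENNReal.ofReal (om N (z i)) * ‖V z‖ₑ ^ 2 =
              ∫⁻ q : ℝ × (Fin m → ℝ), ENNReal.ofReal (om N q.1) * ‖f q‖ₑ ^ 2 := by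
            rw [← (Zi_mp i).lintegral_comp_emb (Zi m i).measurableEmbedding]
            refine lintegral_congr fun z => ?_
            rw [Zi_fst]
            simp only [hf, MeasurableEquiv.symm_apply_apply]
          rw [h6, Measure.volume_eq_prod, lintegral_prod]
          · refine lintegral_congr fun b => ?_
            change _ = ∫⁻ y : Fin m → ℝ, ENNReal.ofReal (om N b) * ‖f (b, y)‖ₑ ^ 2
            rw [lintegral_const_mul' _ _ ENNReal.ofReal_ne_top]
          · exact ((hoM.comp measurable_fst).mul (hfm.enorm.pow_const 2)).aemeasurable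
        rw [h5, hB, ← mul_assoc, ← ENNReal.ofReal_mul (by positivity)]
        congr 2
        ring

end Pool.Agent.Helper66K9.LS
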