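import Pool.Agent.Helper66K9.LS.Op
import Pool.Agent.H438R2.RZ.R1
set_option autoImplicit false

/-! # Polar coordinates in several blocks -/

namespace Pool.Agent.Helper66K9.LS

open MeasureTheory Set Filter
open scoped ENNReal RealInnerProductSpace Topology
open Pool.Agent.TH280.LS (e norm_e e_add measurable_e continuous_e e_sin)
open Pool.Agent.H789R2.FR (sg)
open Pool.Agent.H438R2.BR (Phi)
open Pool.Agent.H438R2.BR.T7 (nu polar_map)

/-- the space of one block -/
abbrev E3 : Type := EuclideanSpace ℝ (Fin 3)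

instance : IsFiniteMeasure (sg 3) := Pool.Agent.H789R2.FR.sg_finite 3

/-! ### products -/

theorem lint_pi_prod {E : Type*} [MeasurableSpace E] (μ : Measure E) [SigmaFinite μ] :
    ∀ (k : ℕ) (f : Fin k → E → ℝ≥0∞), (∀ i, Measurable (f i)) →
    ∫⁻ x : Fin k → E, ∏ i, f i (x i) ∂(Measure.pi fun _ => μ) = ∏ i, ∫⁻ x, f i x ∂μ := by
  intro k
  induction k with
  | zero =>
      intro f _
      simp
  | succ n ih =>
      intro f hf
      have h0 := (measurePreserving_piFinSuccAbove (fun _ : Fin (n + 1) => μ) 0).symm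
      rw [← h0.lintegral_comp_emb (MeasurableEquiv.measurableEmbedding _)]
      have h1 : ∀ q : E × (Fin n → E), ∏ i, f i
          (((MeasurableEquiv.piFinSuccAbove (fun _ : Fin (n + 1) => E) 0).symm q) i) =
          f 0 q.1 * ∏ j : Fin n, f j.succ (q.2 j) := by
        intro q
        rw [Fin.prod_univ_succ]
        rfl
      simp_rw [h1]
      have hg : Measurable (fun x : Fin n → E => ∏ j : Fin n, f j.succ (x j)) :=
        Finset.measurable_prod _ fun j _ => (hf j.succ).comp (measurable_pi_apply j)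
      have h2 := lintegral_prod_mul (μ := μ) (ν := Measure.pi fun _ : Fin n => μ)
        (f := f 0) (g := fun x => ∏ j : Fin n, f j.succ (x j)) (hf 0).aemeasurable
        hg.aemeasurable
      rw [Fin.prod_univ_succ, ← ih (fun j => f j.succ) (fun j => hf j.succ)]
      exact h2

theorem pi_withDensity {E : Type*} [MeasurableSpace E] (μ : Measure E) [SigmaFinite μ] (k : ℕ)
    (g : E → ℝ≥0∞) (hg : Measurable g) [SigmaFinite (μ.withDensity g)] :
    (Measure.pi fun _ : Fin k => μ.withDensity g) =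
      (Measure.pi fun _ : Fin k => μ).withDensity (fun x => ∏ i, g (x i)) := by
  refine Measure.pi_eq fun s hs => ?_
  rw [withDensity_apply _ (MeasurableSet.univ_pi hs), ← lintegral_indicator
    (MeasurableSet.univ_pi hs)]
  have h1 : (fun x : Fin k → E => (pi univ s).indicator (fun x => ∏ i, g (x i)) x) =
      fun x => ∏ i, (s i).indicator g (x i) := by
    funext x
    by_cases hx : x ∈ pi univ s
    · rw [indicator_of_mem hx]
      refine Finset.prod_congr rfl fun i _ => ?_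
      rw [indicator_of_mem (hx i (mem_univ i))]
    · rw [indicator_of_notMem hx]
      have hx' : ¬ ∀ i, x i ∈ s i := fun h => hx fun i _ => h i
      obtain ⟨i, hi⟩ := not_forall.1 hx'
      symm
      exact Finset.prod_eq_zero (Finset.mem_univ i) (indicator_of_notMem hi g)
  rw [h1, lint_pi_prod μ k (fun i => (s i).indicator g) fun i => hg.indicator (hs i)]
  refine Finset.prod_congr rfl fun i _ => ?_
  rw [lintegral_indicator (hs i), withDensity_apply _ (hs i)]

/-! ### the two one dimensional polar maps -/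

/-- Lebesgue measure on the half line -/
noncomputable abbrev mI : Measure ℝ := volume.restrict (Ioi 0)

theorem P3_mp : MeasurePreserving (fun q : E3 × ℝ => q.2 • q.1) ((sg 3).prod (nu 3))
    (volume : Measure E3) :=
  ⟨measurable_snd.smul measurable_fst, polar_map (by norm_num)⟩

/-- reflection -/
def P1 (q : Bool × ℝ) : ℝ := if q.1 then q.2 else -q.2

theorem P1_meas : Measurable P1 := by
  unfold P1
  refine Measurable.ite ?_ measurable_snd measurable_snd.neg
  have h1 : {a : Bool × ℝ | a.1 = true} = Prod.fst ⁻¹' {true} := by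
    ext; simp
  rw [h1]
  exact measurable_fst (measurableSet_singleton _)

theorem P1_mp : MeasurePreserving P1 ((Measure.count : Measure Bool).prod mI)
    (volume : Measure ℝ) := by
  refine ⟨P1_meas, ?_⟩
  ext s hs
  rw [Measure.map_apply P1_meas hs, Measure.prod_apply (P1_meas hs), lintegral_count,
    tsum_fintype, Fintype.sum_bool]
  have h1 : (Prod.mk true ⁻¹' (P1 ⁻¹' s) : Set ℝ) = s := by
    ext x; simp [P1]
  have h2 : (Prod.mk false ⁻¹' (P1 ⁻¹' s) : Set ℝ) = Neg.neg ⁻¹' s := by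
    ext x; simp [P1]
  rw [h1, h2, Measure.restrict_apply hs, Measure.restrict_apply (hs.preimage measurable_neg)]
  have h3 : (Neg.neg ⁻¹' s ∩ Ioi 0 : Set ℝ) = Neg.neg ⁻¹' (s ∩ Iio 0) := by
    ext x; simp
  rw [h3, (Measure.measurePreserving_neg (volume : Measure ℝ)).measure_preimage
    (hs.inter measurableSet_Iio).nullMeasurableSet]
  have h4 : volume s = volume (s ∩ Ioi 0) + volume (s \ Ioi 0) :=
    (measure_inter_add_sdiff s measurableSet_Ioi).symm
  rw [h4]
  congr 1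
  have h5 : s \ Ioi (0 : ℝ) = s ∩ Iic 0 := by
    ext x; simp
  rw [h5]
  refine measure_congr ?_
  exact (ae_eq_refl s).inter Iio_ae_eq_Iic

/-! ### several blocks -/

section

variable {S Z X : Type*} [MeasurableSpace S] [MeasurableSpace Z] [MeasurableSpace X]

theorem poly_mp {σ : Measure S} [SigmaFinite σ] {ν : Measure ℝ} [SigmaFinite ν] {μZ : Measure Z}
    [SigmaFinite μZ] (μX : Measure X) [SigmaFinite μX] {P : S × ℝ → Z}
    (hP : MeasurePreserving P (σ.prod ν) μZ) (k : ℕ) :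
    MeasurePreserving
      (fun q : (Fin k → S) × ((Fin k → ℝ) × X) => ((fun i => P (q.1 i, q.2.1 i)), q.2.2))
      ((Measure.pi fun _ => σ).prod ((Measure.pi fun _ => ν).prod μX))
      ((Measure.pi fun _ => μZ).prod μX) := by
  have h1 := measurePreserving_pi (ι := Fin k) (fun _ => σ.prod ν) (fun _ => μZ) (fun _ => hP)
  have h2 := (measurePreserving_arrowProdEquivProdArrow S ℝ (Fin k) (fun _ => σ)
    (fun _ => ν)).symm
  have h3 := h1.comp h2
  have h4 := h3.prod (MeasurePreserving.id μX)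
  have h5 := (measurePreserving_prodAssoc (Measure.pi fun _ : Fin k => σ)
    (Measure.pi fun _ : Fin k => ν) μX).symm
  exact h4.comp h5

theorem ae_pi_all {k : ℕ} {σ : Measure S} [SigmaFinite σ] {p : S → Prop} (h : ∀ᵐ s ∂σ, p s) :
    ∀ᵐ x ∂(Measure.pi fun _ : Fin k => σ), ∀ i, p (x i) := by
  rw [ae_all_iff]
  intro i
  exact (Measure.tendsto_eval_ae_ae (μ := fun _ : Fin k => σ) (i := i)).eventually h

theorem ae_pi_pos (k : ℕ) (μX : Measure X) [SigmaFinite μX] :
    ∀ᵐ w ∂((Measure.pi fun _ : Fin k => mI).prod μX), ∀ i, 0 < w.1 i := by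
  have h1 : ∀ᵐ r ∂mI, 0 < r := ae_restrict_mem measurableSet_Ioi
  have h2 := ae_pi_all (k := k) h1
  exact Measure.quasiMeasurePreserving_fst.ae h2

end

/-! ### the sphere -/

theorem Phi3 {u : ℝ} (hu : u ≠ 0) : Phi 3 u = ((2 * Real.sin u / u : ℝ) : ℂ) := by
  unfold Phi
  have h1 : ∀ s ∈ Ioo (-1 : ℝ) 1, Complex.exp (((u * s : ℝ) : ℂ) * Complex.I) *
      (((1 - s ^ 2) ^ ((((3 : ℕ) : ℝ) - 3) / 2) : ℝ) : ℂ) =
      Complex.exp ((u * Complex.I : ℂ) * s) := by
    intro s _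
    have : (((3 : ℕ) : ℝ) - 3) / 2 = 0 := by norm_num
    rw [this, Real.rpow_zero]
    push_cast
    rw [mul_one]
    congr 1
    ring
  rw [setIntegral_congr_fun measurableSet_Ioo h1, ← integral_Ioc_eq_integral_Ioo,
    ← intervalIntegral.integral_of_le (by norm_num)]
  have hu' : (u * Complex.I : ℂ) ≠ 0 := by
    simp [hu]
  rw [integral_exp_mul_complex hu']
  have hu2 : (u : ℂ) ≠ 0 := by exact_mod_cast hu
  have e1 : (u * Complex.I : ℂ) * ((1 : ℝ) : ℂ) = (u : ℂ) * Complex.I := by push_cast; ring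
  have e2 : (u * Complex.I : ℂ) * ((-1 : ℝ) : ℂ) = ((-u : ℝ) : ℂ) * Complex.I := by
    push_cast; ring
  rw [e1, e2, Complex.exp_mul_I, Complex.exp_mul_I]
  push_cast
  rw [Complex.cos_neg, Complex.sin_neg]
  field_simp
  ring_nf
  try rw [Complex.I_sq]

/-- the constant of the block formula -/
noncomputable def c3 : ℝ := (sg 2).real univ / Real.pi

theorem c3_pos : 0 < c3 := by
  unfold c3
  have := Pool.Agent.H438R2.BR.T7.sg_pos (n := 2) (by norm_num)
  have := Real.pi_pos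
  positivity

theorem sphere_int (y : E3) {r : ℝ} (hr : 0 < r) :
    ((‖y‖ : ℝ) : ℂ) * ∫ w, e (⟪y, r • w⟫ : ℝ) ∂(sg 3) =
      ((c3 * Real.sin (2 * Real.pi * (‖y‖ * r)) / r : ℝ) : ℂ) := by
  rcases eq_or_ne y 0 with rfl | hy
  · simp
  have hy' : 0 < ‖y‖ := norm_pos_iff.2 hy
  have h1 := Pool.Agent.H438R2.BR.sphere_ft 3 (by norm_num) ((-(2 * Real.pi * r)) • y)
  have h2 : ∫ w, e (⟪y, r • w⟫ : ℝ) ∂(sg 3) =
      ∫ v, Complex.exp (-((⟪(-(2 * Real.pi * r)) • y, v⟫ : ℝ) : ℂ) * Complex.I) ∂(sg 3) := by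
    refine integral_congr_ae (Eventually.of_forall fun w => ?_)
    simp only [e]
    congr 1
    rw [real_inner_smul_left, real_inner_smul_right]
    push_cast
    ring
  have h3 : ‖(-(2 * Real.pi * r)) • y‖ = 2 * Real.pi * (‖y‖ * r) := by
    rw [norm_smul, norm_neg, Real.norm_of_nonneg (by positivity)]
    ring
  rw [h2, h1, h3, Phi3 (by positivity)]
  rw [← Complex.ofReal_mul, ← Complex.ofReal_mul]
  congr 1
  unfold c3
  field_simp

/-! ### the block formula -/

section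

variable {X : Type*} [MeasurableSpace X] (μX : Measure X) [SigmaFinite μX] {k : ℕ}

theorem BL_lhs (H : (Fin k → ℝ) × X → ℂ) (y : Fin k → E3)
    (hint : Integrable (fun q : (Fin k → E3) × X =>
      (∏ i, ((‖q.1 i‖⁻¹ : ℝ) : ℂ)) * H ((fun i => ‖q.1 i‖), q.2)) ((volume).prod μX)) :
    (∏ i, ((‖y i‖ : ℝ) : ℂ)) * ∫ q : (Fin k → E3) × X, (∏ i, e (⟪y i, q.1 i⟫ : ℝ)) *
      ((∏ i, ((‖q.1 i‖⁻¹ : ℝ) : ℂ)) * H ((fun i => ‖q.1 i‖), q.2)) ∂((volume).prod μX) =
    (c3 : ℂ) ^ k * ∫ w, (∏ i, ((Real.sin (2 * Real.pi * (‖y i‖ * w.1 i)) : ℝ) : ℂ)) * H w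
      ∂((Measure.pi fun _ : Fin k => mI).prod μX) := by
  have hmp := poly_mp μX P3_mp k
  have hvol : (volume : Measure (Fin k → E3)) = Measure.pi fun _ => (volume : Measure E3) := rfl
  rw [hvol] at hint ⊢
  set Φ : (Fin k → E3) × X → ℂ := fun q => (∏ i, e (⟪y i, q.1 i⟫ : ℝ)) *
      ((∏ i, ((‖q.1 i‖⁻¹ : ℝ) : ℂ)) * H ((fun i => ‖q.1 i‖), q.2)) with hΦ
  have hΦi : Integrable Φ ((Measure.pi fun _ => (volume : Measure E3)).prod μX) := by
    refine hint.bdd_mul (c := 1) ?_ ?_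
    · refine Measurable.aestronglyMeasurable (Finset.measurable_prod _ fun i _ =>
        measurable_e.comp ?_)
      have : Measurable (fun q : (Fin k → E3) × X => q.1 i) := by fun_prop
      exact this.const_inner
    · refine Eventually.of_forall fun q => ?_
      rw [norm_prod]
      simp [norm_e]
  have e1 : ∫ q, Φ q ∂((Measure.pi fun _ => (volume : Measure E3)).prod μX) =
      ∫ w : (Fin k → ℝ) × X, ∫ s : Fin k → E3, Φ ((fun i => w.1 i • s i), w.2)
        ∂(Measure.pi fun _ => sg 3) ∂((Measure.pi fun _ : Fin k => nu 3).prod μX) := by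
    conv_lhs => rw [← hmp.map_eq]
    rw [integral_map hmp.measurable.aemeasurable (by rw [hmp.map_eq]; exact hΦi.1)]
    exact integral_prod_symm _ (hmp.integrable_comp_of_integrable hΦi)
  have hnu : nu 3 = mI.withDensity (fun r => ENNReal.ofReal (r ^ 2)) := rfl
  have hsf : SigmaFinite (mI.withDensity (fun r => ENNReal.ofReal (r ^ 2))) := by
    rw [← hnu]; infer_instance
  have hpi : (Measure.pi fun _ : Fin k => nu 3) =
      (Measure.pi fun _ : Fin k => mI).withDensity (fun x => ∏ i, ENNReal.ofReal (x i ^ 2)) := by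
    simp_rw [hnu]
    exact pi_withDensity mI k (fun r => ENNReal.ofReal (r ^ 2)) (by fun_prop)
  have hpm : Measurable (fun x : Fin k → ℝ => ∏ i, ENNReal.ofReal (x i ^ 2)) := by fun_prop
  have hpm2 : Measurable (fun z : (Fin k → ℝ) × X => ∏ i, ENNReal.ofReal (z.1 i ^ 2)) :=
    hpm.comp measurable_fst
  have hfin : ∀ᵐ z : (Fin k → ℝ) × X ∂((Measure.pi fun _ : Fin k => mI).prod μX),
      ∏ i, ENNReal.ofReal (z.1 i ^ 2) < ∞ :=
    Eventually.of_forall fun w => ENNReal.prod_lt_top fun i _ => ENNReal.ofReal_lt_top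
  rw [e1, hpi, prod_withDensity_left hpm, integral_withDensity_eq_integral_toReal_smul
    hpm2 hfin, ← integral_const_mul, ← integral_const_mul]
  refine integral_congr_ae ?_
  filter_upwards [ae_pi_pos k μX] with w hw
  have e2 : ∫ s : Fin k → E3, Φ ((fun i => w.1 i • s i), w.2) ∂(Measure.pi fun _ => sg 3) =
      (∏ i, ∫ v, e (⟪y i, w.1 i • v⟫ : ℝ) ∂(sg 3)) *
        ((∏ i, (((w.1 i)⁻¹ : ℝ) : ℂ)) * H w) := by
    rw [← integral_fintype_prod_eq_prod (μ := fun _ : Fin k => sg 3)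
      (f := fun i v => e (⟪y i, w.1 i • v⟫ : ℝ)), ← integral_mul_const]
    refine integral_congr_ae ?_
    filter_upwards [ae_pi_all (k := k) (Pool.Agent.H789R2.FR.sg_ae 3)] with s hs
    simp only [hΦ]
    have h3 : ∀ i, ‖w.1 i • s i‖ = w.1 i := by
      intro i
      rw [norm_smul, hs i, mul_one, Real.norm_of_nonneg (hw i).le]
    simp_rw [h3]
  rw [e2]
  have h4 : (∏ i, ENNReal.ofReal (w.1 i ^ 2)).toReal = ∏ i, w.1 i ^ 2 := by
    rw [ENNReal.toReal_prod]
    refine Finset.prod_congr rfl fun i _ => ?_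
    rw [ENNReal.toReal_ofReal (sq_nonneg _)]
  simp only [h4]
  have hck : (c3 : ℂ) ^ k = ∏ _i : Fin k, (c3 : ℂ) := by simp
  rw [Complex.real_smul, hck]
  push_cast
  have h5 : ∀ i, ((‖y i‖ : ℝ) : ℂ) * (((w.1 i : ℝ) : ℂ) ^ 2 *
      ((∫ v, e (⟪y i, w.1 i • v⟫ : ℝ) ∂(sg 3)) * ((w.1 i : ℝ) : ℂ)⁻¹)) =
      (c3 : ℂ) * Complex.sin (2 * Real.pi * (‖y i‖ * w.1 i)) := by
    intro i
    have h6 := sphere_int (y i) (hw i)
    have h7 : ((w.1 i : ℝ) : ℂ) ≠ 0 := by exact_mod_cast (hw i).ne'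
    calc ((‖y i‖ : ℝ) : ℂ) * (((w.1 i : ℝ) : ℂ) ^ 2 *
          ((∫ v, e (⟪y i, w.1 i • v⟫ : ℝ) ∂(sg 3)) * ((w.1 i : ℝ) : ℂ)⁻¹))
        = (((‖y i‖ : ℝ) : ℂ) * ∫ v, e (⟪y i, w.1 i • v⟫ : ℝ) ∂(sg 3)) * ((w.1 i : ℝ) : ℂ) := by
          field_simp
      _ = _ := by
          rw [h6]
          push_cast
          field_simp
  calc _ = (∏ i, ((‖y i‖ : ℝ) : ℂ) * (((w.1 i : ℝ) : ℂ) ^ 2 *
      ((∫ v, e (⟪y i, w.1 i • v⟫ : ℝ) ∂(sg 3)) * ((w.1 i : ℝ) : ℂ)⁻¹))) * H w := by
        simp only [Finset.prod_mul_distrib]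
        ring
    _ = _ := by
        simp_rw [h5]
        rw [Finset.prod_mul_distrib]
        ring

/-- sign of a reflection -/
def sgn (b : Bool) : ℂ := if b then 1 else -1

theorem BL_rhs (a : Fin k → ℝ) (H : (Fin k → ℝ) × X → ℂ)
    (hH : Integrable H ((volume).prod μX))
    (hodd : ∀ (b : Fin k → Bool) (ρ : Fin k → ℝ) (x : X),
      H ((fun i => P1 (b i, ρ i)), x) = (∏ i, sgn (b i)) * H (ρ, x)) :
    ∫ q : (Fin k → ℝ) × X, (∏ i, e (a i * q.1 i)) * H q ∂((volume).prod μX) =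
    (2 * Complex.I) ^ k * ∫ w, (∏ i, ((Real.sin (2 * Real.pi * (a i * w.1 i)) : ℝ) : ℂ)) * H w
      ∂((Measure.pi fun _ : Fin k => mI).prod μX) := by
  have hmp := poly_mp μX P1_mp k
  have hvol : (volume : Measure (Fin k → ℝ)) = Measure.pi fun _ => (volume : Measure ℝ) := rfl
  rw [hvol] at hH ⊢
  set Φ : (Fin k → ℝ) × X → ℂ := fun q => (∏ i, e (a i * q.1 i)) * H q with hΦ
  have hΦi : Integrable Φ ((Measure.pi fun _ => (volume : Measure ℝ)).prod μX) := by
    refine hH.bdd_mul (c := 1) ?_ ?_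
    · refine Measurable.aestronglyMeasurable (Finset.measurable_prod _ fun i _ =>
        measurable_e.comp ?_)
      fun_prop
    · refine Eventually.of_forall fun q => ?_
      rw [norm_prod]
      simp [norm_e]
  have e1 : ∫ q, Φ q ∂((Measure.pi fun _ => (volume : Measure ℝ)).prod μX) =
      ∫ w : (Fin k → ℝ) × X, ∫ s : Fin k → Bool, Φ ((fun i => P1 (s i, w.1 i)), w.2)
        ∂(Measure.pi fun _ => Measure.count) ∂((Measure.pi fun _ : Fin k => mI).prod μX) := by
    conv_lhs => rw [← hmp.map_eq]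
    rw [integral_map hmp.measurable.aemeasurable (by rw [hmp.map_eq]; exact hΦi.1)]
    exact integral_prod_symm _ (hmp.integrable_comp_of_integrable hΦi)
  rw [e1, ← integral_const_mul]
  refine integral_congr_ae (Eventually.of_forall fun w => ?_)
  simp only [hΦ]
  have e2 : ∀ s : Fin k → Bool, (∏ i, e (a i * P1 (s i, w.1 i))) *
      H ((fun i => P1 (s i, w.1 i)), w.2) =
      (∏ i, (sgn (s i) * e (a i * P1 (s i, w.1 i)))) * H w := by
    intro s
    rw [hodd, Finset.prod_mul_distrib]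
    ring
  simp_rw [e2]
  rw [integral_mul_const, integral_fintype_prod_eq_prod
    (μ := fun _ : Fin k => (Measure.count : Measure Bool))
    (f := fun i (b : Bool) => sgn b * e (a i * P1 (b, w.1 i))), ← mul_assoc]
  congr 1
  have hck : (2 * Complex.I : ℂ) ^ k = ∏ _i : Fin k, (2 * Complex.I : ℂ) := by simp
  rw [hck, ← Finset.prod_mul_distrib]
  refine Finset.prod_congr rfl fun i _ => ?_
  rw [integral_count]
  simp only [Fintype.sum_bool, sgn, P1, if_true]
  simp only [Bool.false_eq_true, if_false, one_mul, neg_mul, mul_neg]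
  rw [← sub_eq_add_neg, e_sin]

theorem BL (H : (Fin k → ℝ) × X → ℂ) (y : Fin k → E3)
    (hint : Integrable (fun q : (Fin k → E3) × X =>
      (∏ i, ((‖q.1 i‖⁻¹ : ℝ) : ℂ)) * H ((fun i => ‖q.1 i‖), q.2)) ((volume).prod μX))
    (hH : Integrable H ((volume).prod μX))
    (hodd : ∀ (b : Fin k → Bool) (ρ : Fin k → ℝ) (x : X),
      H ((fun i => P1 (b i, ρ i)), x) = (∏ i, sgn (b i)) * H (ρ, x)) :
    (∏ i, ((‖y i‖ : ℝ) : ℂ)) * ∫ q : (Fin k → E3) × X, (∏ i, e (⟪y i, q.1 i⟫ : ℝ)) *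
      ((∏ i, ((‖q.1 i‖⁻¹ : ℝ) : ℂ)) * H ((fun i => ‖q.1 i‖), q.2)) ∂((volume).prod μX) =
    ((c3 : ℂ) / (2 * Complex.I)) ^ k *
      ∫ q : (Fin k → ℝ) × X, (∏ i, e (‖y i‖ * q.1 i)) * H q ∂((volume).prod μX) := by
  rw [BL_lhs μX H y hint, BL_rhs μX (fun i => ‖y i‖) H hH hodd, ← mul_assoc, ← mul_pow]
  congr 2
  have := Complex.I_ne_zero
  field_simp

/-! ### norms -/

theorem norm_id3 (Φ : (Fin k → ℝ) × X → ℝ≥0∞) (hΦ : Measurable Φ) :
    ∫⁻ q : (Fin k → E3) × X, Φ ((fun i => ‖q.1 i‖), q.2) ∂((volume).prod μX) =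
    (sg 3 univ) ^ k * ∫⁻ w, (∏ i, ENNReal.ofReal (w.1 i ^ 2)) * Φ w
      ∂((Measure.pi fun _ : Fin k => mI).prod μX) := by
  have hmp := poly_mp μX P3_mp k
  have hvol : (volume : Measure (Fin k → E3)) = Measure.pi fun _ => (volume : Measure E3) := rfl
  have hΦm : Measurable (fun q : (Fin k → E3) × X => Φ ((fun i => ‖q.1 i‖), q.2)) :=
    hΦ.comp (by fun_prop)
  have hnu : nu 3 = mI.withDensity (fun r => ENNReal.ofReal (r ^ 2)) := rfl
  have hsf : SigmaFinite (mI.withDensity (fun r => ENNReal.ofReal (r ^ 2))) := by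
    rw [← hnu]; infer_instance
  have hpi : (Measure.pi fun _ : Fin k => nu 3) =
      (Measure.pi fun _ : Fin k => mI).withDensity (fun x => ∏ i, ENNReal.ofReal (x i ^ 2)) := by
    simp_rw [hnu]
    exact pi_withDensity mI k (fun r => ENNReal.ofReal (r ^ 2)) (by fun_prop)
  have hpm : Measurable (fun x : Fin k → ℝ => ∏ i, ENNReal.ofReal (x i ^ 2)) := by fun_prop
  have e1 : ∫⁻ q : (Fin k → E3) × X, Φ ((fun i => ‖q.1 i‖), q.2)
      ∂((Measure.pi fun _ => (volume : Measure E3)).prod μX) =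
      ∫⁻ w : (Fin k → ℝ) × X, ∫⁻ s : Fin k → E3, Φ ((fun i => ‖w.1 i • s i‖), w.2)
        ∂(Measure.pi fun _ => sg 3) ∂((Measure.pi fun _ : Fin k => nu 3).prod μX) := by
    rw [← hmp.lintegral_comp hΦm]
    exact lintegral_prod_symm' _ (hΦm.comp hmp.measurable)
  have hpm2 : Measurable (fun z : (Fin k → ℝ) × X => ∏ i, ENNReal.ofReal (z.1 i ^ 2)) :=
    hpm.comp measurable_fst
  rw [hvol, e1, hpi, prod_withDensity_left hpm, lintegral_withDensity_eq_lintegral_mul₀
      hpm2.aemeasurable]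
  · rw [← lintegral_const_mul' _ _ (ENNReal.pow_ne_top (measure_ne_top _ _))]
    refine lintegral_congr_ae ?_
    filter_upwards [ae_pi_pos k μX] with w hw
    simp only [Pi.mul_apply]
    have e2 : ∫⁻ s : Fin k → E3, Φ ((fun i => ‖w.1 i • s i‖), w.2) ∂(Measure.pi fun _ => sg 3) =
        Φ w * (sg 3 univ) ^ k := by
      have h1 : ∫⁻ s : Fin k → E3, Φ ((fun i => ‖w.1 i • s i‖), w.2)
          ∂(Measure.pi fun _ => sg 3) = ∫⁻ _ : Fin k → E3, Φ w ∂(Measure.pi fun _ => sg 3) := by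
        refine lintegral_congr_ae ?_
        filter_upwards [ae_pi_all (k := k) (Pool.Agent.H789R2.FR.sg_ae 3)] with s hs
        have h3 : ∀ i, ‖w.1 i • s i‖ = w.1 i := by
          intro i
          rw [norm_smul, hs i, mul_one, Real.norm_of_nonneg (hw i).le]
        simp_rw [h3]
      rw [h1, lintegral_const, Measure.pi_univ, Finset.prod_const, Finset.card_univ,
        Fintype.card_fin]
    rw [e2]
    ring
  · exact (Measurable.lintegral_prod_left' (hΦm.comp hmp.measurable)).aemeasurable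

theorem norm_id1 (Φ : (Fin k → ℝ) × X → ℝ≥0∞) (hΦ : Measurable Φ) :
    ∫⁻ q : (Fin k → ℝ) × X, Φ ((fun i => |q.1 i|), q.2) ∂((volume).prod μX) =
    2 ^ k * ∫⁻ w, Φ w ∂((Measure.pi fun _ : Fin k => mI).prod μX) := by
  have hmp := poly_mp μX P1_mp k
  have hvol : (volume : Measure (Fin k → ℝ)) = Measure.pi fun _ => (volume : Measure ℝ) := rfl
  have hΦm : Measurable (fun q : (Fin k → ℝ) × X => Φ ((fun i => |q.1 i|), q.2)) := by
    refine hΦ.comp (Measurable.prodMk ?_ measurable_snd)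
    refine measurable_pi_lambda _ fun i => continuous_abs.measurable.comp ?_
    fun_prop
  have e1 : ∫⁻ q : (Fin k → ℝ) × X, Φ ((fun i => |q.1 i|), q.2)
      ∂((Measure.pi fun _ => (volume : Measure ℝ)).prod μX) =
      ∫⁻ w : (Fin k → ℝ) × X, ∫⁻ s : Fin k → Bool, Φ ((fun i => |P1 (s i, w.1 i)|), w.2)
        ∂(Measure.pi fun _ => Measure.count) ∂((Measure.pi fun _ : Fin k => mI).prod μX) := by
    rw [← hmp.lintegral_comp hΦm]
    exact lintegral_prod_symm' _ (hΦm.comp hmp.measurable)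
  rw [hvol, e1, ← lintegral_const_mul' _ _ (ENNReal.pow_ne_top (by norm_num))]
  refine lintegral_congr_ae ?_
  filter_upwards [ae_pi_pos k μX] with w hw
  have h3 : ∀ (s : Fin k → Bool) i, |P1 (s i, w.1 i)| = w.1 i := by
    intro s i
    unfold P1
    simp only
    split_ifs
    · exact abs_of_pos (hw i)
    · rw [abs_neg]
      exact abs_of_pos (hw i)
  simp_rw [h3]
  rw [lintegral_const, Measure.pi_univ, Finset.prod_const, Finset.card_univ,
    Fintype.card_fin, mul_comm]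
  congr 2
  rw [Measure.count_univ]
  simp

end

end Pool.Agent.Helper66K9.LS
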