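import Pool.Agent.Helper66K9.LS.NC
set_option autoImplicit false

/-! # One frequency piece -/

namespace Pool.Agent.Helper66K9.LS

open MeasureTheory Set Filter
open scoped ENNReal FourierTransform RealInnerProductSpace Topology
open Pool.Agent.TH280.LS
open Pool.Agent.H789R2.FR (sg)

/-- the class of data in standard coordinates -/
structure Cls (k n : ℕ) (R0 : ℝ) (f : Wd k n → ℂ) : Prop where
  meas : Measurable f
  inv : Inv f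
  supp : ∀ z, R0 < ‖z‖ → f z = 0
  int : Integrable f
  sq : ∫⁻ z, ‖f z‖ₑ ^ (2 : ℝ) < ∞

theorem piece (hDUAL : S_DUAL) (hW : S_W) (k n : ℕ) (hk : 1 ≤ k) (hkn : 2 ≤ k + n) (R0 : ℝ)
    (hR0 : 0 ≤ R0) (p : ℝ) (hp : 2 < p) (ε : ℝ) (hε : 0 < ε) : ∃ C : ℝ, 0 < C ∧
    ∀ (N A : ℝ) (Ψ : ℝ → ℝ), 1 ≤ N → Sym N A Ψ → ∀ f : Wd k n → ℂ, Cls k n R0 f →
    ∫⁻ t in T12, ∫⁻ z, ‖TM (Mt Ψ t) f z‖ₑ ^ p ≤
      ENNReal.ofReal (C * A ^ p * N ^ (((3 * k + n : ℝ) - 1) * (p / 2 - 1) -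
        k * min (p - 2) (1 / k) + ε)) * ∫⁻ z, ‖f z‖ₑ ^ p := by
  have hk0 : (0 : ℝ) < k := by exact_mod_cast hk
  set θ : ℝ := min (p - 2) (1 / k) with hθ
  have hθ0 : 0 ≤ θ := le_min (by linarith) (by positivity)
  have hθp : θ ≤ p - 2 := min_le_left _ _
  have hθk : k * θ ≤ 1 := by
    calc k * θ ≤ k * (1 / k) := mul_le_mul_of_nonneg_left (min_le_right _ _) hk0.le
      _ = 1 := by field_simp
  obtain ⟨δ, hδ, hab⟩ := absorb k n hp.le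
  obtain ⟨C1, hC1, hint⟩ := interp hDUAL hW (ι := Fin k ⊕ Fin n) (by simpa using hkn)
    (Sum.inl : Fin k → Fin k ⊕ Fin n) θ hθ0 hθk R0 hR0 p hp ε hε
  have hS := sg3_pos
  have hκ := kap_pos k
  set D : ℝ := ((sg 3).real univ) ^ k * (kap k) ^ p * (δ⁻¹ ^ (p - 2 - θ) * (1 + δ⁻¹) ^ θ) ^ k
    with hD
  set D2 : ℝ := 2 ^ k * (R0 ^ (p - 2 - θ)) ^ k / ((sg 3).real univ) ^ k + 1 with hD2
  have hDp : 0 < D := by positivity
  have hD2p : 0 < D2 := by positivity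
  refine ⟨2 * D * C1 * D2, by positivity, ?_⟩
  intro N A Ψ hN h f hf
  have hN0 : 0 < N := by linarith
  have hA := h.nonneg
  have hVi : Integrable (VF f) := VF_int hf.inv hf.meas hR0 hf.supp hf.sq
  have h1 : ∀ t, ∫⁻ z, ‖TM (Mt Ψ t) f z‖ₑ ^ p ≤ ENNReal.ofReal (2 * D * (N ^ (p - 2 - θ)) ^ k) *
      ∫⁻ w, Om (Sum.inl : Fin k → Fin k ⊕ Fin n) θ N w * ‖TM (Mt Ψ t) (VF f) w‖ₑ ^ p := by
    intro t
    have hM := Mt_mul hN h t
    have h2 := hab A (2 * N) (Mt Ψ t) hM N hN0 le_rfl f hf.int hf.sq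
    have h3 := lower hf.inv hf.int hVi (p := p) (θ := θ) (N := N) (δ := δ) hp.le hθ0 hθp hN hδ hM
    calc ∫⁻ z, ‖TM (Mt Ψ t) f z‖ₑ ^ p
        ≤ 2 * ∫⁻ z in good k n (δ / N), ‖TM (Mt Ψ t) f z‖ₑ ^ p := h2
      _ ≤ 2 * (ENNReal.ofReal (((sg 3).real univ) ^ k * (kap k) ^ p *
          (δ⁻¹ ^ (p - 2 - θ) * (1 + δ⁻¹) ^ θ * N ^ (p - 2 - θ)) ^ k) *
          ∫⁻ w, Om (Sum.inl : Fin k → Fin k ⊕ Fin n) θ N w * ‖TM (Mt Ψ t) (VF f) w‖ₑ ^ p) :=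
          mul_le_mul_right h3 _
      _ = _ := by
          rw [← mul_assoc]
          congr 1
          have h9 : ∀ x : ℝ, (2 : ℝ≥0∞) * ENNReal.ofReal x = ENNReal.ofReal (2 * x) := by
            intro x
            rw [ENNReal.ofReal_mul (by norm_num)]
            norm_num
          rw [h9]
          congr 1
          rw [hD, mul_pow (δ⁻¹ ^ (p - 2 - θ) * (1 + δ⁻¹) ^ θ) (N ^ (p - 2 - θ))]
          ring
  have hVz : ∀ w, R0 < ‖w‖ → VF f w = 0 := fun w hw => VF_zero hf.supp w hw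
  have h2 := hint N A Ψ hN h (VF f) hVi (VF_meas hf.meas) hVz
  have h3 := upper hf.inv hf.meas hR0 hf.supp (p := p) (θ := θ) (N := N) hp.le hθ0 hθp hN
  have hNN : (N ^ (p - 2 - θ)) ^ k *
      N ^ (((Fintype.card (Fin k ⊕ Fin n) : ℝ) - 1) * (p / 2 - 1) + ε) =
      N ^ (((3 * k + n : ℝ) - 1) * (p / 2 - 1) - k * θ + ε) := by
    rw [← Real.rpow_natCast (N ^ (p - 2 - θ)) k, ← Real.rpow_mul hN0.le, ← Real.rpow_add hN0]
    congr 1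
    rw [Fintype.card_sum, Fintype.card_fin, Fintype.card_fin]
    push_cast
    ring
  calc ∫⁻ t in T12, ∫⁻ z, ‖TM (Mt Ψ t) f z‖ₑ ^ p
      ≤ ∫⁻ t in T12, ENNReal.ofReal (2 * D * (N ^ (p - 2 - θ)) ^ k) *
        ∫⁻ w, Om (Sum.inl : Fin k → Fin k ⊕ Fin n) θ N w * ‖TM (Mt Ψ t) (VF f) w‖ₑ ^ p :=
        lintegral_mono fun t => h1 t
    _ = ENNReal.ofReal (2 * D * (N ^ (p - 2 - θ)) ^ k) * ∫⁻ t in T12,
        ∫⁻ w, Om (Sum.inl : Fin k → Fin k ⊕ Fin n) θ N w * ‖TM (Mt Ψ t) (VF f) w‖ₑ ^ p :=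
        lintegral_const_mul' _ _ ENNReal.ofReal_ne_top
    _ ≤ ENNReal.ofReal (2 * D * (N ^ (p - 2 - θ)) ^ k) * (ENNReal.ofReal (C1 * A ^ p *
        N ^ (((Fintype.card (Fin k ⊕ Fin n) : ℝ) - 1) * (p / 2 - 1) + ε)) *
        (ENNReal.ofReal D2 * ∫⁻ z, ‖f z‖ₑ ^ p)) := by
        refine mul_le_mul_right (h2.trans (mul_le_mul_right (h3.trans ?_) _)) _
        refine mul_le_mul_left (ENNReal.ofReal_le_ofReal ?_) _
        rw [hD2]
        linarith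
    _ = _ := by
        rw [← mul_assoc, ← mul_assoc, ← ENNReal.ofReal_mul (by positivity),
          ← ENNReal.ofReal_mul (by positivity)]
        congr 2
        rw [← hNN]
        ring

end Pool.Agent.Helper66K9.LS
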