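import Pool.Agent.Helper66K9.LS.P
import Pool.Agent.H438R2.RZ.M2
set_option autoImplicit false

/-! # Interpolation of the weighted estimates -/

namespace Pool.Agent.Helper66K9.LS

open MeasureTheory Set Filter
open scoped ENNReal FourierTransform RealInnerProductSpace Topology
open Pool.Agent.TH280.LS

/-- the time set -/
def T12 : Set ℝ := {t | 1 ≤ |t| ∧ |t| ≤ 2}

theorem T12_meas : MeasurableSet T12 := by
  unfold T12
  exact (measurableSet_le measurable_const continuous_abs.measurable).inter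
    (measurableSet_le continuous_abs.measurable measurable_const)

theorem T12_sub : T12 ⊆ Icc (-2 : ℝ) 2 := fun _ ht => abs_le.1 ht.2

theorem interp (hDUAL : S_DUAL) (hW : S_W) {ι : Type} [Fintype ι] (hι : 2 ≤ Fintype.card ι)
    {k : ℕ} (J : Fin k → ι) (θ : ℝ) (hθ0 : 0 ≤ θ) (hθ : k * θ ≤ 1) (R0 : ℝ) (hR0 : 0 ≤ R0)
    (p : ℝ) (hp : 2 < p) (ε : ℝ) (hε : 0 < ε) : ∃ C : ℝ, 0 < C ∧ ∀ (N A : ℝ) (Ψ : ℝ → ℝ), 1 ≤ N →
    Sym N A Ψ → ∀ V : EuclideanSpace ℝ ι → ℂ, Integrable V → Measurable V →
    (∀ w, R0 < ‖w‖ → V w = 0) →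
    ∫⁻ t in T12, ∫⁻ z, Om J θ N z * ‖TM (Mt Ψ t) V z‖ₑ ^ p ≤
      ENNReal.ofReal (C * A ^ p * N ^ (((Fintype.card ι : ℝ) - 1) * (p / 2 - 1) + ε)) *
        ∫⁻ z, Om J θ N z * ‖V z‖ₑ ^ p := by
  have hne : Nonempty ι := Fintype.card_pos_iff.1 (by omega)
  obtain ⟨C1, hC1, hP⟩ := P_weight hDUAL hW hι J θ hθ0 hθ R0 hR0 ε hε
  obtain ⟨C2, hC2, hS⟩ := sup_bound (W := EuclideanSpace ℝ ι) R0 hR0
  obtain ⟨C3, hC3, hM⟩ := Pool.Agent.H438R2.RZ.marcInf 2 p (by norm_num) hp
  have hp0 : 0 < p := by linarith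
  refine ⟨C3 * C1 * C2 ^ (p - 2), by positivity, ?_⟩
  intro N A Ψ hN h V hV hVm hVs
  have hN0 : 0 < N := by linarith
  rcases h.nonneg.eq_or_lt with hA | hA
  · have h0 : ∀ σ, Ψ σ = 0 := fun σ => by
      have := h.b0 σ
      rw [← hA] at this
      exact abs_nonpos_iff.1 this
    have h1 : ∀ t z, TM (Mt Ψ t) V z = 0 := by
      intro t z
      unfold TM Mt
      simp [h0]
    simp [h1, hp0]
  have hOm := Om_meas J θ N
  set O : EuclideanSpace ℝ ι → ℝ≥0∞ := Om J θ N with hO
  have hTMm : ∀ {U : EuclideanSpace ℝ ι → ℂ}, Integrable U →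
      Measurable (fun q : ℝ × EuclideanSpace ℝ ι => TM (Mt Ψ q.1) U q.2) := fun hU =>
    TM_meas (Mt_meas h) hU
  have hTs : MeasurableSet {q : ℝ × EuclideanSpace ℝ ι | q.1 ∈ T12} := T12_meas.preimage measurable_fst
  classical
  set F : ℝ × EuclideanSpace ℝ ι → ℝ := fun q => if q.1 ∈ T12 then ‖TM (Mt Ψ q.1) V q.2‖ else 0
    with hF
  set f : EuclideanSpace ℝ ι → ℝ := fun w => ‖V w‖ with hf
  have hFm : Measurable F := Measurable.ite hTs (hTMm hV).norm measurable_const
  have hfm : Measurable f := hVm.norm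
  set M0 : ℝ := C1 * A ^ 2 * N ^ ε with hM0
  set M1 : ℝ := C2 * A * N ^ (((Fintype.card ι : ℝ) - 1) / 2) with hM1
  have hM0p : 0 < M0 := by positivity
  have hM1p : 0 < M1 := by positivity
  set μ : Measure (EuclideanSpace ℝ ι) := volume.withDensity O with hμ
  set ν : Measure (ℝ × EuclideanSpace ℝ ι) := (volume.restrict T12).prod μ with hν
  have key := hM μ ν F f hFm hfm (fun q => by simp only [hF]; split_ifs <;> positivity)
    (fun w => norm_nonneg _) M0 M1 hM0p hM1p ?_
  · -- conclusion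
    have e1 : ∫⁻ q, ENNReal.ofReal (F q) ^ p ∂ν =
        ∫⁻ t in T12, ∫⁻ z, O z * ‖TM (Mt Ψ t) V z‖ₑ ^ p := by
      rw [hν, lintegral_prod _ (hFm.ennreal_ofReal.pow_const p).aemeasurable]
      refine setLIntegral_congr_fun T12_meas fun t ht => ?_
      rw [hμ, lintegral_withDensity_eq_lintegral_mul _ hOm]
      · refine lintegral_congr fun z => ?_
        simp only [Pi.mul_apply, hF]
        rw [if_pos ht, ofReal_norm]
      · exact (hFm.comp measurable_prodMk_left).ennreal_ofReal.pow_const p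
    have e2 : ∫⁻ x, ENNReal.ofReal (f x) ^ p ∂μ = ∫⁻ z, O z * ‖V z‖ₑ ^ p := by
      rw [hμ, lintegral_withDensity_eq_lintegral_mul _ hOm (hfm.ennreal_ofReal.pow_const p)]
      refine lintegral_congr fun z => ?_
      simp only [Pi.mul_apply, hf]
      rw [ofReal_norm]
    rw [e1, e2] at key
    refine key.trans (le_of_eq ?_)
    congr 2
    rw [hM0, hM1, Real.mul_rpow (by positivity) (by positivity), Real.mul_rpow hC2.le hA.le,
      ← Real.rpow_mul hN0.le, Real.rpow_add hN0]
    have h3 : A ^ p = A ^ 2 * A ^ (p - 2) := by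
      rw [← Real.rpow_natCast A 2, ← Real.rpow_add hA]
      congr 1
      push_cast
      ring
    have h4 : ((Fintype.card ι : ℝ) - 1) / 2 * (p - 2) =
        ((Fintype.card ι : ℝ) - 1) * (p / 2 - 1) := by ring
    rw [h3, h4]
    ring
  · intro s hs
    set Vb : EuclideanSpace ℝ ι → ℂ := {w | s < ‖V w‖}.indicator V with hVb
    set Vs : EuclideanSpace ℝ ι → ℂ := {w | s < ‖V w‖}ᶜ.indicator V with hVsm
    have hms : MeasurableSet {w | s < ‖V w‖} := measurableSet_lt measurable_const hVm.norm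
    have hVbi : Integrable Vb := hV.indicator hms
    have hVsi : Integrable Vs := hV.indicator hms.compl
    have hVbm : Measurable Vb := hVm.indicator hms
    have hsum : V = fun w => Vb w + Vs w := by
      funext w
      simp only [hVb, hVsm]
      rw [indicator_self_add_compl_apply]
    refine ⟨fun q => if q.1 ∈ T12 then ‖TM (Mt Ψ q.1) Vb q.2‖ₑ else 0,
      fun q => if q.1 ∈ T12 then ‖TM (Mt Ψ q.1) Vs q.2‖ₑ else 0,
      Measurable.ite hTs (hTMm hVbi).enorm measurable_const,
      Measurable.ite hTs (hTMm hVsi).enorm measurable_const, ?_, ?_, ?_⟩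
    · refine Eventually.of_forall fun q => ?_
      simp only [hF]
      by_cases hq : q.1 ∈ T12
      · rw [if_pos hq, if_pos hq, if_pos hq, ofReal_norm]
        have h1 : TM (Mt Ψ q.1) V q.2 = TM (Mt Ψ q.1) Vb q.2 + TM (Mt Ψ q.1) Vs q.2 := by
          conv_lhs => rw [hsum]
          exact TM_add (Mt_mul hN h q.1) hVbi hVsi q.2
        rw [h1]
        exact enorm_add_le _ _
      · rw [if_neg hq]
        simp
    · have h1 : ∫⁻ q, (if q.1 ∈ T12 then ‖TM (Mt Ψ q.1) Vb q.2‖ₑ else 0) ^ (2 : ℝ) ∂ν =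
          ∫⁻ t in T12, ∫⁻ z, O z * ‖TM (Mt Ψ t) Vb z‖ₑ ^ 2 := by
        have hmm : Measurable (fun q : ℝ × EuclideanSpace ℝ ι =>
            (if q.1 ∈ T12 then ‖TM (Mt Ψ q.1) Vb q.2‖ₑ else 0) ^ (2 : ℝ)) :=
          (Measurable.ite hTs (hTMm hVbi).enorm measurable_const).pow_const _
        rw [hν, lintegral_prod _ hmm.aemeasurable]
        refine setLIntegral_congr_fun T12_meas fun t ht => ?_
        rw [hμ, lintegral_withDensity_eq_lintegral_mul _ hOm]
        · refine lintegral_congr fun z => ?_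
          simp only [Pi.mul_apply]
          rw [if_pos ht, ENNReal.rpow_two]
        · exact hmm.comp measurable_prodMk_left
      rw [h1]
      refine (lintegral_mono_set T12_sub).trans ?_
      refine (hP N A Ψ hN h Vb hVbi hVbm ?_).trans (le_of_eq ?_)
      · intro w hw
        exact indicator_apply_eq_zero.2 fun _ => hVs w hw
      · congr 1
        rw [hμ, setLIntegral_withDensity_eq_setLIntegral_mul _ hOm _ hms,
          ← lintegral_indicator hms]
        · refine lintegral_congr fun w => ?_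
          simp only [hVb]
          by_cases hw : w ∈ {w | s < ‖V w‖}
          · rw [indicator_of_mem hw, indicator_of_mem hw]
            simp only [Pi.mul_apply, hf]
            rw [ofReal_norm, ENNReal.rpow_two]
          · rw [indicator_of_notMem hw, indicator_of_notMem hw]
            simp
        · exact hfm.ennreal_ofReal.pow_const _
    · refine Eventually.of_forall fun q => ?_
      simp only
      by_cases hq : q.1 ∈ T12
      · rw [if_pos hq, ← ofReal_norm]
        apply ENNReal.ofReal_le_ofReal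
        have h2 := hS N A Ψ hN h q.1 hq.1 hq.2 Vs hVsi (fun w hw =>
          indicator_apply_eq_zero.2 fun _ => hVs w hw) s hs.le (fun w => by
          simp only [hVsm]
          by_cases hw : w ∈ {w | s < ‖V w‖}ᶜ
          · rw [indicator_of_mem hw]
            exact not_lt.1 hw
          · rw [indicator_of_notMem hw, norm_zero]
            exact hs.le) q.2
        rw [finrank_euclideanSpace] at h2
        exact h2
      · rw [if_neg hq]
        exact zero_le

end Pool.Agent.Helper66K9.LS
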