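import Pool.Agent.Helper66K9.LS.Op
set_option autoImplicit false

/-! # The kernel of a frequency localised piece of the wave propagator -/

namespace Pool.Agent.Helper66K9.LS

open MeasureTheory Set Filter
open scoped ENNReal FourierTransform RealInnerProductSpace Topology ContDiff SchwartzMap
open Pool.Agent.TH280.LS (e norm_e e_add measurable_e continuous_e plancherel e_conj)

variable {W : Type*} [NormedAddCommGroup W] [InnerProductSpace ℝ W] [FiniteDimensional ℝ W]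
  [MeasurableSpace W] [BorelSpace W]

/-- smooth symbols at frequency `N`, as functions of the square of the frequency -/
structure Sym (N A : ℝ) (Ψ : ℝ → ℝ) : Prop where
  smooth : ContDiff ℝ ∞ Ψ
  supp : ∀ σ, Ψ σ ≠ 0 → N ^ 2 / 4 ≤ σ ∧ σ ≤ 2 * N ^ 2
  b0 : ∀ σ, |Ψ σ| ≤ A
  b1 : ∀ σ, |deriv Ψ σ| ≤ A / N ^ 2
  b2 : ∀ σ, |deriv (deriv Ψ) σ| ≤ A / N ^ 4

/-- the multipliers `e(tρ) Ψ(ρ²)` -/
noncomputable def Mt (Ψ : ℝ → ℝ) (t ρ : ℝ) : ℂ := e (t * ρ) * ((Ψ (ρ ^ 2) : ℝ) : ℂ)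

theorem Sym.nonneg {N A : ℝ} {Ψ : ℝ → ℝ} (h : Sym N A Ψ) : 0 ≤ A := (abs_nonneg _).trans (h.b0 0)

theorem Mt_mul {N A : ℝ} {Ψ : ℝ → ℝ} (hN : 1 ≤ N) (h : Sym N A Ψ) (t : ℝ) :
    Mul A (2 * N) (Mt Ψ t) := by
  refine ⟨?_, ?_, ?_⟩
  · unfold Mt
    refine (measurable_e.comp (by fun_prop)).mul (Complex.measurable_ofReal.comp
      (h.smooth.continuous.measurable.comp (by fun_prop)))
  · intro ρ _
    unfold Mt
    rw [norm_mul, norm_e, one_mul, Complex.norm_real]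
    exact h.b0 _
  · intro ρ hρ
    unfold Mt
    by_contra hc
    have h1 : Ψ (ρ ^ 2) ≠ 0 := by
      intro h0
      apply hc
      rw [h0]
      simp
    have h2 := (h.supp _ h1).2
    nlinarith

theorem Mt_meas {N A : ℝ} {Ψ : ℝ → ℝ} (h : Sym N A Ψ) :
    Measurable (Function.uncurry (Mt Ψ)) := by
  unfold Mt Function.uncurry
  refine (measurable_e.comp (by fun_prop)).mul (Complex.measurable_ofReal.comp
    (h.smooth.continuous.measurable.comp (by fun_prop)))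

/-- the symbol as a function of the square of the frequency -/
noncomputable def Th (Ψ : ℝ → ℝ) (t σ : ℝ) : ℂ := e (t * Real.sqrt σ) * ((Ψ σ : ℝ) : ℂ)

/-- the logarithmic derivative of `e(t √σ)` -/
noncomputable def Eh (t σ : ℝ) : ℂ := Complex.I * ((Real.pi * t / Real.sqrt σ : ℝ) : ℂ)

noncomputable def Th1 (Ψ : ℝ → ℝ) (t σ : ℝ) : ℂ :=
  e (t * Real.sqrt σ) * (Eh t σ * ((Ψ σ : ℝ) : ℂ) + ((deriv Ψ σ : ℝ) : ℂ))

noncomputable def Th2 (Ψ : ℝ → ℝ) (t σ : ℝ) : ℂ :=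
  e (t * Real.sqrt σ) * (Eh t σ * (Eh t σ * ((Ψ σ : ℝ) : ℂ) + ((deriv Ψ σ : ℝ) : ℂ)) +
    (Eh t σ * ((deriv Ψ σ : ℝ) : ℂ) - Eh t σ / (2 * σ) * ((Ψ σ : ℝ) : ℂ) +
      ((deriv (deriv Ψ) σ : ℝ) : ℂ)))

theorem hasDeriv_e_sqrt (t : ℝ) {σ : ℝ} (hσ : 0 < σ) :
    HasDerivAt (fun σ : ℝ => e (t * Real.sqrt σ)) (e (t * Real.sqrt σ) * Eh t σ) σ := by
  have h1 : HasDerivAt Real.sqrt (1 / (2 * Real.sqrt σ)) σ := Real.hasDerivAt_sqrt hσ.ne'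
  have h2 : HasDerivAt (fun σ : ℝ => ((2 * Real.pi * (t * Real.sqrt σ) : ℝ) : ℂ) * Complex.I)
      (((2 * Real.pi * (t * (1 / (2 * Real.sqrt σ))) : ℝ) : ℂ) * Complex.I) σ :=
    (((h1.const_mul t).const_mul (2 * Real.pi)).ofReal_comp).mul_const _
  have h3 := h2.cexp
  unfold e
  convert h3 using 1
  unfold Eh
  have hs : Real.sqrt σ ≠ 0 := (Real.sqrt_pos.2 hσ).ne'
  have : 2 * Real.pi * (t * (1 / (2 * Real.sqrt σ))) = Real.pi * t / Real.sqrt σ := by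
    field_simp
  rw [this]
  ring

theorem hasDeriv_Eh (t : ℝ) {σ : ℝ} (hσ : 0 < σ) :
    HasDerivAt (Eh t) (-(Eh t σ / (2 * σ))) σ := by
  have h1 : HasDerivAt Real.sqrt (1 / (2 * Real.sqrt σ)) σ := Real.hasDerivAt_sqrt hσ.ne'
  have hs : Real.sqrt σ ≠ 0 := (Real.sqrt_pos.2 hσ).ne'
  have h2 : HasDerivAt (fun σ : ℝ => Real.pi * t / Real.sqrt σ)
      (-(Real.pi * t / Real.sqrt σ / (2 * σ))) σ := by
    have h3 := (hasDerivAt_const σ (Real.pi * t)).div h1 hs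
    refine h3.congr_deriv ?_
    have h4 : Real.sqrt σ ^ 2 = σ := Real.sq_sqrt hσ.le
    have h5 : 2 * σ ≠ 0 := by positivity
    rw [h4]
    field_simp
    ring
  have h3 := (h2.ofReal_comp).const_mul Complex.I
  unfold Eh
  refine h3.congr_deriv ?_
  push_cast
  ring

section

variable {N A : ℝ} {Ψ : ℝ → ℝ}

theorem Sym.diff (h : Sym N A Ψ) (σ : ℝ) : HasDerivAt Ψ (deriv Ψ σ) σ :=
  (h.smooth.differentiable (by simp)).differentiableAt.hasDerivAt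

theorem Sym.smooth1 (h : Sym N A Ψ) : ContDiff ℝ ∞ (deriv Ψ) :=
  (contDiff_infty_iff_deriv.1 h.smooth).2

theorem Sym.diff1 (h : Sym N A Ψ) (σ : ℝ) : HasDerivAt (deriv Ψ) (deriv (deriv Ψ) σ) σ :=
  (h.smooth1.differentiable (by simp)).differentiableAt.hasDerivAt

theorem Sym.smooth2 (h : Sym N A Ψ) : ContDiff ℝ ∞ (deriv (deriv Ψ)) :=
  (contDiff_infty_iff_deriv.1 h.smooth1).2

theorem Sym.zero (h : Sym N A Ψ) {σ : ℝ} (hσ : σ < N ^ 2 / 4 ∨ 2 * N ^ 2 < σ) : Ψ σ = 0 := by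
  by_contra hc
  have := h.supp σ hc
  rcases hσ with hσ | hσ <;> linarith

theorem Sym.zero_nhds (h : Sym N A Ψ) {σ : ℝ} (hσ : σ < N ^ 2 / 4 ∨ 2 * N ^ 2 < σ) :
    Ψ =ᶠ[𝓝 σ] fun _ => 0 := by
  rcases hσ with hσ | hσ
  · filter_upwards [Iio_mem_nhds hσ] with s hs
    exact h.zero (Or.inl hs)
  · filter_upwards [Ioi_mem_nhds hσ] with s hs
    exact h.zero (Or.inr hs)

theorem Sym.zero1_nhds (h : Sym N A Ψ) {σ : ℝ} (hσ : σ < N ^ 2 / 4 ∨ 2 * N ^ 2 < σ) :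
    deriv Ψ =ᶠ[𝓝 σ] fun _ => 0 := by
  have := (h.zero_nhds hσ).deriv
  filter_upwards [this] with s hs
  rw [hs]
  simp

theorem Sym.zero2_nhds (h : Sym N A Ψ) {σ : ℝ} (hσ : σ < N ^ 2 / 4 ∨ 2 * N ^ 2 < σ) :
    deriv (deriv Ψ) =ᶠ[𝓝 σ] fun _ => 0 := by
  have := (h.zero1_nhds hσ).deriv
  filter_upwards [this] with s hs
  rw [hs]
  simp

theorem hasDeriv_Th (hN : 1 ≤ N) (h : Sym N A Ψ) (t σ : ℝ) :
    HasDerivAt (Th Ψ t) (Th1 Ψ t σ) σ := by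
  rcases lt_or_ge 0 σ with hσ | hσ
  · have h1 := (hasDeriv_e_sqrt t hσ).mul ((h.diff σ).ofReal_comp)
    refine h1.congr_deriv ?_
    unfold Th1
    ring
  · have h2 : σ < N ^ 2 / 4 := by nlinarith
    have h3 := h.zero_nhds (Or.inl h2)
    have h4 := h.zero1_nhds (Or.inl h2)
    have h5 : Th1 Ψ t σ = 0 := by
      unfold Th1
      rw [h3.self_of_nhds, h4.self_of_nhds]
      simp
    rw [h5]
    refine (hasDerivAt_const σ (0 : ℂ)).congr_of_eventuallyEq ?_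
    filter_upwards [h3] with s hs
    unfold Th
    rw [hs]
    simp

theorem hasDeriv_Th1 (hN : 1 ≤ N) (h : Sym N A Ψ) (t σ : ℝ) :
    HasDerivAt (Th1 Ψ t) (Th2 Ψ t σ) σ := by
  rcases lt_or_ge 0 σ with hσ | hσ
  · have h1 := (hasDeriv_e_sqrt t hσ).mul
      (((hasDeriv_Eh t hσ).mul ((h.diff σ).ofReal_comp)).add ((h.diff1 σ).ofReal_comp))
    refine h1.congr_deriv ?_
    unfold Th2
    simp only [Pi.mul_apply, Pi.add_apply]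
    ring
  · have h2 : σ < N ^ 2 / 4 := by nlinarith
    have h3 := h.zero_nhds (Or.inl h2)
    have h4 := h.zero1_nhds (Or.inl h2)
    have h6 := h.zero2_nhds (Or.inl h2)
    have h5 : Th2 Ψ t σ = 0 := by
      unfold Th2
      rw [h3.self_of_nhds, h4.self_of_nhds, h6.self_of_nhds]
      simp
    rw [h5]
    refine (hasDerivAt_const σ (0 : ℂ)).congr_of_eventuallyEq ?_
    filter_upwards [h3, h4] with s hs hs1
    unfold Th1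
    rw [hs, hs1]
    simp

/-- the symbol on `W` -/
noncomputable def gW (W : Type*) [NormedAddCommGroup W] (Ψ : ℝ → ℝ) (t : ℝ) (ζ : W) : ℂ :=
  Mt Ψ t ‖ζ‖

omit [FiniteDimensional ℝ W] [MeasurableSpace W] [BorelSpace W] [InnerProductSpace ℝ W] in
theorem gW_eq (Ψ : ℝ → ℝ) (t : ℝ) (ζ : W) : gW W Ψ t ζ = Th Ψ t (‖ζ‖ ^ 2) := by
  unfold gW Mt Th
  rw [Real.sqrt_sq (norm_nonneg _)]

omit [FiniteDimensional ℝ W] [MeasurableSpace W] [BorelSpace W] in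
theorem gW_smooth (hN : 1 ≤ N) (h : Sym N A Ψ) (t : ℝ) : ContDiff ℝ ∞ (gW W Ψ t) := by
  rw [contDiff_iff_contDiffAt]
  intro ζ
  by_cases hζ : ζ = 0
  · subst hζ
    have h0 : (fun ζ : W => ‖ζ‖ ^ 2) ⁻¹' Iio (N ^ 2 / 4) ∈ 𝓝 (0 : W) := by
      have hc : Continuous (fun ζ : W => ‖ζ‖ ^ 2) := by fun_prop
      apply (hc.isOpen_preimage _ isOpen_Iio).mem_nhds
      simp only [mem_preimage, mem_Iio, norm_zero]
      nlinarith
    refine (contDiffAt_const (c := (0 : ℂ))).congr_of_eventuallyEq ?_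
    filter_upwards [h0] with s hs
    rw [gW_eq]
    unfold Th
    rw [h.zero (Or.inl hs)]
    simp
  · unfold gW Mt e
    have h1 : ContDiffAt ℝ ∞ (fun ζ : W => ‖ζ‖) ζ := contDiffAt_norm ℝ hζ
    have h2 : ContDiffAt ℝ ∞ (fun ζ : W => Ψ (‖ζ‖ ^ 2)) ζ :=
      (h.smooth.contDiffAt).comp ζ (h1.pow 2)
    have h3 : ContDiffAt ℝ ∞ (fun ζ : W => ((Ψ (‖ζ‖ ^ 2) : ℝ) : ℂ)) ζ :=
      (Complex.ofRealCLM.contDiff.contDiffAt).comp ζ h2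
    refine ContDiffAt.mul ?_ h3
    refine ContDiffAt.cexp (ContDiffAt.mul ?_ contDiffAt_const)
    have h4 : ContDiffAt ℝ ∞ (fun ζ : W => 2 * Real.pi * (t * ‖ζ‖)) ζ :=
      contDiffAt_const.mul (contDiffAt_const.mul h1)
    exact (Complex.ofRealCLM.contDiff.contDiffAt).comp ζ h4

omit [MeasurableSpace W] [BorelSpace W] in
theorem gW_cpt (hN : 1 ≤ N) (h : Sym N A Ψ) (t : ℝ) : HasCompactSupport (gW W Ψ t) := by
  refine HasCompactSupport.intro (isCompact_closedBall (0 : W) (2 * N)) fun ζ hζ => ?_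
  unfold gW
  have h1 : 2 * N < ‖ζ‖ := by simpa using hζ
  exact (Mt_mul hN h t).supp _ h1

/-- the symbol as a Schwartz function -/
noncomputable def gS (hN : 1 ≤ N) (h : Sym N A Ψ) (t : ℝ) : 𝓢(W, ℂ) :=
  (gW_cpt (W := W) hN h t).toSchwartzMap (gW_smooth hN h t)

omit [MeasurableSpace W] [BorelSpace W] in
theorem gS_apply (hN : 1 ≤ N) (h : Sym N A Ψ) (t : ℝ) (ζ : W) : gS hN h t ζ = gW W Ψ t ζ := rfl

open LineDeriv

omit [MeasurableSpace W] [BorelSpace W] [FiniteDimensional ℝ W] in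
theorem hasDeriv_sq (ζ m : W) :
    HasDerivAt (fun s : ℝ => ‖ζ + s • m‖ ^ 2) (2 * (⟪ζ, m⟫ : ℝ)) 0 := by
  have h1 : (fun s : ℝ => ‖ζ + s • m‖ ^ 2) =
      fun s : ℝ => ‖ζ‖ ^ 2 + s * (2 * (⟪ζ, m⟫ : ℝ)) + s ^ 2 * ‖m‖ ^ 2 := by
    funext s
    rw [norm_add_sq_real, real_inner_smul_right, norm_smul, mul_pow, Real.norm_eq_abs, sq_abs]
    ring
  rw [h1]
  have h2 : HasDerivAt (fun s : ℝ => ‖ζ‖ ^ 2 + s * (2 * (⟪ζ, m⟫ : ℝ)) + s ^ 2 * ‖m‖ ^ 2)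
      (0 + 1 * (2 * (⟪ζ, m⟫ : ℝ)) + ((2 : ℕ) * (0 : ℝ) ^ (2 - 1)) * ‖m‖ ^ 2) 0 :=
    ((hasDerivAt_const 0 (‖ζ‖ ^ 2)).add ((hasDerivAt_id (0 : ℝ)).mul_const _)).add
      ((hasDerivAt_pow 2 (0 : ℝ)).mul_const _)
  convert h2 using 1
  simp

omit [MeasurableSpace W] [BorelSpace W] in
theorem gS_line (hN : 1 ≤ N) (h : Sym N A Ψ) (t : ℝ) (m ζ : W) :
    (∂_{m} (gS hN h t : 𝓢(W, ℂ))) ζ = ((2 * (⟪ζ, m⟫ : ℝ) : ℝ) : ℂ) * Th1 Ψ t (‖ζ‖ ^ 2) := by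
  rw [SchwartzMap.lineDerivOp_apply]
  have h1 : HasDerivAt (fun s : ℝ => Th Ψ t (‖ζ + s • m‖ ^ 2))
      ((2 * (⟪ζ, m⟫ : ℝ)) • Th1 Ψ t (‖ζ‖ ^ 2)) 0 := by
    have h2 := hasDeriv_Th hN h t (‖ζ + (0 : ℝ) • m‖ ^ 2)
    have h3 := h2.scomp (0 : ℝ) (hasDeriv_sq ζ m)
    rw [zero_smul, add_zero] at h3
    exact h3
  unfold lineDeriv
  have h4 : (fun s : ℝ => (gS hN h t : 𝓢(W, ℂ)) (ζ + s • m)) =
      fun s : ℝ => Th Ψ t (‖ζ + s • m‖ ^ 2) := by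
    funext s
    rw [gS_apply, gW_eq]
  rw [h4, h1.deriv]
  rw [Complex.real_smul]

omit [MeasurableSpace W] [BorelSpace W] in
theorem gS_line2 (hN : 1 ≤ N) (h : Sym N A Ψ) (t : ℝ) (m ζ : W) :
    (∂_{m} (∂_{m} (gS hN h t : 𝓢(W, ℂ)))) ζ = ((2 * ‖m‖ ^ 2 : ℝ) : ℂ) * Th1 Ψ t (‖ζ‖ ^ 2) +
      ((4 * (⟪ζ, m⟫ : ℝ) ^ 2 : ℝ) : ℂ) * Th2 Ψ t (‖ζ‖ ^ 2) := by
  rw [SchwartzMap.lineDerivOp_apply]
  have h1 : HasDerivAt (fun s : ℝ => Th1 Ψ t (‖ζ + s • m‖ ^ 2))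
      ((2 * (⟪ζ, m⟫ : ℝ)) • Th2 Ψ t (‖ζ‖ ^ 2)) 0 := by
    have h2 := hasDeriv_Th1 hN h t (‖ζ + (0 : ℝ) • m‖ ^ 2)
    have h3 := h2.scomp (0 : ℝ) (hasDeriv_sq ζ m)
    rw [zero_smul, add_zero] at h3
    exact h3
  have h5 : HasDerivAt (fun s : ℝ => 2 * (⟪ζ + s • m, m⟫ : ℝ)) (2 * ‖m‖ ^ 2) 0 := by
    have h6 : (fun s : ℝ => 2 * (⟪ζ + s • m, m⟫ : ℝ)) =
        fun s : ℝ => 2 * (⟪ζ, m⟫ : ℝ) + s * (2 * ‖m‖ ^ 2) := by
      funext s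
      rw [inner_add_left, real_inner_smul_left, real_inner_self_eq_norm_sq]
      ring
    rw [h6]
    have h7 := (hasDerivAt_const (0 : ℝ) (2 * (⟪ζ, m⟫ : ℝ))).add
      ((hasDerivAt_id (0 : ℝ)).mul_const (2 * ‖m‖ ^ 2))
    refine h7.congr_deriv ?_
    ring
  have h8 := (h5.ofReal_comp).mul h1
  unfold lineDeriv
  have h4 : (fun s : ℝ => (∂_{m} (gS hN h t : 𝓢(W, ℂ))) (ζ + s • m)) =
      fun s : ℝ => ((2 * (⟪ζ + s • m, m⟫ : ℝ) : ℝ) : ℂ) * Th1 Ψ t (‖ζ + s • m‖ ^ 2) := by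
    funext s
    rw [gS_line]
  rw [h4]
  have h9 := h8.deriv
  simp only [Pi.mul_def] at h9
  rw [h9]
  simp only [zero_smul, add_zero]
  rw [Complex.real_smul]
  push_cast
  ring

end

end Pool.Agent.Helper66K9.LS
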