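import Pool.Agent.Helper66K9.LS.Ker
set_option autoImplicit false

/-! # The kernel is concentrated near the light cone -/

namespace Pool.Agent.Helper66K9.LS

open MeasureTheory Set Filter
open scoped ENNReal FourierTransform RealInnerProductSpace Topology ContDiff SchwartzMap
open Pool.Agent.TH280.LS (e norm_e e_add measurable_e continuous_e plancherel e_conj)
open LineDeriv

variable {W : Type*} [NormedAddCommGroup W] [InnerProductSpace ℝ W] [FiniteDimensional ℝ W]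
  [MeasurableSpace W] [BorelSpace W]

theorem F_line (f : 𝓢(W, ℂ)) (m w : W) : (𝓕 (∂_{m} f) : 𝓢(W, ℂ)) w =
    2 * Real.pi * Complex.I * ((⟪w, m⟫ : ℝ) : ℂ) * (𝓕 f : 𝓢(W, ℂ)) w := by
  have h := congrArg (fun F : 𝓢(W, ℂ) => F w) (SchwartzMap.fourier_lineDerivOp_eq f m)
  have ht : (inner ℝ · m : W → ℝ).HasTemperateGrowth := ((innerSL ℝ).flip m).hasTemperateGrowth
  rw [h]
  simp only [smul_apply, SchwartzMap.smulLeftCLM_apply_apply ht, smul_eq_mul,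
    Complex.real_smul]
  ring

theorem F_lap (f : 𝓢(W, ℂ)) {ι : Type*} [Fintype ι] (b : OrthonormalBasis ι ℝ W) (w : W) :
    (𝓕 (∑ i, ∂_{b i} (∂_{b i} f)) : 𝓢(W, ℂ)) w =
      -(4 * Real.pi ^ 2 * ((‖w‖ ^ 2 : ℝ) : ℂ)) * (𝓕 f : 𝓢(W, ℂ)) w := by
  have h1 : (𝓕 (∑ i, ∂_{b i} (∂_{b i} f)) : 𝓢(W, ℂ)) = ∑ i, 𝓕 (∂_{b i} (∂_{b i} f)) := by
    exact map_sum (FourierTransform.fourierCLM ℂ 𝓢(W, ℂ)) _ _
  rw [h1, sum_apply]
  simp only [F_line]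
  have h2 : ∑ i, (⟪w, b i⟫ : ℝ) ^ 2 = ‖w‖ ^ 2 := b.sum_sq_inner_left w
  rw [← h2]
  push_cast
  rw [Finset.mul_sum, ← Finset.sum_neg_distrib, Finset.sum_mul]
  refine Finset.sum_congr rfl fun i _ => ?_
  have := Complex.I_sq
  linear_combination (4 * Real.pi ^ 2 * ((⟪w, b i⟫ : ℝ) : ℂ) ^ 2 * (𝓕 f : 𝓢(W, ℂ)) w) * this

/-- `(-Δ/4π² - t²)` applied to the symbol -/
noncomputable def LL (q : ℕ) (Ψ : ℝ → ℝ) (t σ : ℝ) : ℂ :=
  -(1 / (4 * Real.pi ^ 2) : ℂ) * (2 * q * Th1 Ψ t σ + 4 * σ * Th2 Ψ t σ) -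
    (t : ℂ) ^ 2 * Th Ψ t σ

section

variable {N A : ℝ} {Ψ : ℝ → ℝ}

theorem LL_eq (q : ℕ) (Ψ : ℝ → ℝ) (t : ℝ) {σ : ℝ} (hσ : 0 < σ) :
    LL q Ψ t σ = -(1 / (4 * Real.pi ^ 2) : ℂ) * (e (t * Real.sqrt σ) *
      (2 * q * (Eh t σ * ((Ψ σ : ℝ) : ℂ)) + 2 * q * ((deriv Ψ σ : ℝ) : ℂ) +
        8 * (σ * Eh t σ * ((deriv Ψ σ : ℝ) : ℂ)) - 2 * (Eh t σ * ((Ψ σ : ℝ) : ℂ)) +
        4 * (σ * ((deriv (deriv Ψ) σ : ℝ) : ℂ)))) := by
  have hpi : (Real.pi : ℂ) ≠ 0 := by exact_mod_cast Real.pi_ne_zero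
  have hσ' : (σ : ℂ) ≠ 0 := by exact_mod_cast hσ.ne'
  have h1 : (σ : ℂ) * Eh t σ ^ 2 = -(Real.pi ^ 2 * (t : ℂ) ^ 2) := by
    unfold Eh
    have h2 : (Real.pi * t / Real.sqrt σ) ^ 2 = Real.pi ^ 2 * t ^ 2 / σ := by
      rw [div_pow, Real.sq_sqrt hσ.le, mul_pow]
    rw [mul_pow, Complex.I_sq, ← Complex.ofReal_pow, h2]
    push_cast
    field_simp
  unfold LL Th1 Th2 Th
  have h3 : 4 * (σ : ℂ) * (Eh t σ / (2 * σ) * ((Ψ σ : ℝ) : ℂ)) =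
      2 * (Eh t σ * ((Ψ σ : ℝ) : ℂ)) := by
    field_simp
    ring
  have h4 : (t : ℂ) ^ 2 * ((Ψ σ : ℝ) : ℂ) = -(1 / (4 * Real.pi ^ 2) : ℂ) *
      (4 * (σ * Eh t σ ^ 2) * ((Ψ σ : ℝ) : ℂ)) := by
    rw [h1]
    field_simp
  linear_combination (-(1 / (4 * Real.pi ^ 2) : ℂ)) * (-e (t * Real.sqrt σ)) * h3 -
    e (t * Real.sqrt σ) * h4

theorem norm_Eh {t σ : ℝ} (hσ : 0 < σ) : ‖Eh t σ‖ = Real.pi * |t| / Real.sqrt σ := by
  unfold Eh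
  rw [norm_mul, Complex.norm_I, one_mul, Complex.norm_real, Real.norm_eq_abs, abs_div, abs_mul,
    abs_of_pos Real.pi_pos, abs_of_pos (Real.sqrt_pos.2 hσ)]

theorem LL_zero (h : Sym N A Ψ) (q : ℕ) (t : ℝ) {σ : ℝ} (hσ : σ < N ^ 2 / 4 ∨ 2 * N ^ 2 < σ) :
    LL q Ψ t σ = 0 := by
  have h3 := (h.zero_nhds hσ).self_of_nhds
  have h4 := (h.zero1_nhds hσ).self_of_nhds
  have h5 := (h.zero2_nhds hσ).self_of_nhds
  unfold LL Th1 Th2 Th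
  rw [h3, h4, h5]
  simp

theorem LL_bound (hN : 1 ≤ N) (h : Sym N A Ψ) (q : ℕ) {t : ℝ} (ht : |t| ≤ 2) (σ : ℝ) :
    ‖LL q Ψ t σ‖ ≤ (2 * q + 4) * A / N := by
  have hN0 : 0 < N := by linarith
  have hA := h.nonneg
  by_cases hσ : σ < N ^ 2 / 4 ∨ 2 * N ^ 2 < σ
  · rw [LL_zero h q t hσ, norm_zero]
    positivity
  rw [not_or, not_lt, not_lt] at hσ
  obtain ⟨h1, h2⟩ := hσ
  have hσ0 : 0 < σ := lt_of_lt_of_le (by positivity) h1
  have hpi := Real.pi_gt_three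
  have hpi4 := Real.pi_le_four
  have hs1 : N / 2 ≤ Real.sqrt σ := by
    apply Real.le_sqrt_of_sq_le
    nlinarith
  have hs2 : Real.sqrt σ ≤ 3 / 2 * N := by
    rw [Real.sqrt_le_left (by positivity)]
    nlinarith
  have hs0 : 0 < Real.sqrt σ := Real.sqrt_pos.2 hσ0
  have hE : ‖Eh t σ‖ ≤ 4 * Real.pi / N := by
    rw [norm_Eh hσ0, div_le_div_iff₀ hs0 hN0]
    have h3 : Real.pi * |t| * N ≤ Real.pi * 2 * N := by gcongr
    have h4 : 4 * Real.pi * (N / 2) ≤ 4 * Real.pi * Real.sqrt σ := by gcongr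
    linarith
  have hE2 : ‖(σ : ℂ) * Eh t σ‖ ≤ 3 * Real.pi * N := by
    rw [norm_mul, norm_Eh hσ0, Complex.norm_real, Real.norm_eq_abs, abs_of_pos hσ0]
    have h3 : σ * (Real.pi * |t| / Real.sqrt σ) = Real.pi * |t| * Real.sqrt σ := by
      have : σ / Real.sqrt σ = Real.sqrt σ := Real.div_sqrt
      calc σ * (Real.pi * |t| / Real.sqrt σ) = Real.pi * |t| * (σ / Real.sqrt σ) := by ring
        _ = _ := by rw [this]
    rw [h3]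
    calc Real.pi * |t| * Real.sqrt σ ≤ Real.pi * 2 * (3 / 2 * N) := by gcongr
      _ = 3 * Real.pi * N := by ring
  have b0 : ‖((Ψ σ : ℝ) : ℂ)‖ ≤ A := by rw [Complex.norm_real]; exact h.b0 σ
  have b1 : ‖((deriv Ψ σ : ℝ) : ℂ)‖ ≤ A / N ^ 2 := by rw [Complex.norm_real]; exact h.b1 σ
  have b2 : ‖((deriv (deriv Ψ) σ : ℝ) : ℂ)‖ ≤ A / N ^ 4 := by
    rw [Complex.norm_real]; exact h.b2 σ
  have t1 : ‖2 * (q : ℂ) * (Eh t σ * ((Ψ σ : ℝ) : ℂ))‖ ≤ 8 * Real.pi * q * (A / N) := by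
    rw [norm_mul, norm_mul, norm_mul, Complex.norm_natCast]
    simp only [Complex.norm_ofNat]
    calc 2 * (q : ℝ) * (‖Eh t σ‖ * ‖((Ψ σ : ℝ) : ℂ)‖) ≤ 2 * (q : ℝ) * (4 * Real.pi / N * A) := by
          gcongr
      _ = _ := by ring
  have t2 : ‖2 * (q : ℂ) * ((deriv Ψ σ : ℝ) : ℂ)‖ ≤ 2 * q * (A / N) := by
    rw [norm_mul, norm_mul, Complex.norm_natCast]
    simp only [Complex.norm_ofNat]
    have h3 : A / N ^ 2 ≤ A / N := by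
      apply div_le_div_of_nonneg_left hA hN0
      nlinarith
    calc 2 * (q : ℝ) * ‖((deriv Ψ σ : ℝ) : ℂ)‖ ≤ 2 * (q : ℝ) * (A / N) := by
          gcongr
          exact b1.trans h3
      _ = _ := by ring
  have t3 : ‖8 * (σ * Eh t σ * ((deriv Ψ σ : ℝ) : ℂ))‖ ≤ 24 * Real.pi * (A / N) := by
    rw [norm_mul, norm_mul]
    simp only [Complex.norm_ofNat]
    calc 8 * (‖(σ : ℂ) * Eh t σ‖ * ‖((deriv Ψ σ : ℝ) : ℂ)‖) ≤
          8 * (3 * Real.pi * N * (A / N ^ 2)) := by gcongr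
      _ = _ := by field_simp; ring
  have t4 : ‖2 * (Eh t σ * ((Ψ σ : ℝ) : ℂ))‖ ≤ 8 * Real.pi * (A / N) := by
    rw [norm_mul, norm_mul]
    simp only [Complex.norm_ofNat]
    calc 2 * (‖Eh t σ‖ * ‖((Ψ σ : ℝ) : ℂ)‖) ≤ 2 * (4 * Real.pi / N * A) := by gcongr
      _ = _ := by ring
  have t5 : ‖4 * (σ * ((deriv (deriv Ψ) σ : ℝ) : ℂ))‖ ≤ 8 * (A / N) := by
    rw [norm_mul, norm_mul]
    simp only [Complex.norm_ofNat]
    rw [Complex.norm_real, Real.norm_eq_abs, abs_of_pos hσ0]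
    have h3 : A / N ^ 2 ≤ A / N := by
      apply div_le_div_of_nonneg_left hA hN0
      nlinarith
    calc 4 * (σ * ‖((deriv (deriv Ψ) σ : ℝ) : ℂ)‖) ≤ 4 * (2 * N ^ 2 * (A / N ^ 4)) := by gcongr
      _ = 8 * (A / N ^ 2) := by field_simp; ring
      _ ≤ _ := by gcongr
  rw [LL_eq q Ψ t hσ0, norm_mul, norm_mul, norm_e, one_mul]
  have hc : ‖-(1 / (4 * Real.pi ^ 2) : ℂ)‖ = 1 / (4 * Real.pi ^ 2) := by
    rw [norm_neg, norm_div, norm_mul, norm_pow, Complex.norm_real, Real.norm_eq_abs,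
      abs_of_pos Real.pi_pos]
    simp
  rw [hc]
  have hsum : ‖2 * (q : ℂ) * (Eh t σ * ((Ψ σ : ℝ) : ℂ)) + 2 * q * ((deriv Ψ σ : ℝ) : ℂ) +
        8 * (σ * Eh t σ * ((deriv Ψ σ : ℝ) : ℂ)) - 2 * (Eh t σ * ((Ψ σ : ℝ) : ℂ)) +
        4 * (σ * ((deriv (deriv Ψ) σ : ℝ) : ℂ))‖ ≤
      8 * Real.pi * q * (A / N) + 2 * q * (A / N) + 24 * Real.pi * (A / N) +
        8 * Real.pi * (A / N) + 8 * (A / N) := by
    refine (norm_add_le _ _).trans (add_le_add ((norm_sub_le _ _).trans (add_le_add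
      ((norm_add_le _ _).trans (add_le_add ((norm_add_le _ _).trans (add_le_add t1 t2)) t3))
      t4)) t5)
  calc 1 / (4 * Real.pi ^ 2) * _ ≤ 1 / (4 * Real.pi ^ 2) * (8 * Real.pi * q * (A / N) +
        2 * q * (A / N) + 24 * Real.pi * (A / N) + 8 * Real.pi * (A / N) + 8 * (A / N)) := by
        gcongr
    _ = ((8 * Real.pi * q + 2 * q + 32 * Real.pi + 8) / (4 * Real.pi ^ 2)) * (A / N) := by ring
    _ ≤ (2 * q + 4) * (A / N) := by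
        gcongr
        rw [div_le_iff₀ (by positivity)]
        have hq : (0 : ℝ) ≤ q := Nat.cast_nonneg q
        have e0 : 0 ≤ 4 * Real.pi ^ 2 - 8 * Real.pi := by nlinarith
        have e1 : 8 * Real.pi * q ≤ 4 * Real.pi ^ 2 * q := by nlinarith [mul_nonneg hq e0]
        have e0' : 0 ≤ 4 * Real.pi ^ 2 - 2 := by nlinarith
        have e2 : 2 * (q : ℝ) ≤ 4 * Real.pi ^ 2 * q := by nlinarith [mul_nonneg hq e0']
        have e3 : 32 * Real.pi + 8 ≤ 16 * Real.pi ^ 2 := by nlinarith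
        nlinarith
    _ = _ := by ring

/-- the kernel -/
noncomputable def Kt (W : Type*) [NormedAddCommGroup W] [InnerProductSpace ℝ W]
    [FiniteDimensional ℝ W] [MeasurableSpace W] [BorelSpace W] (Ψ : ℝ → ℝ) (t : ℝ) (z : W) : ℂ :=
  ∫ ζ : W, e (⟪z, ζ⟫ : ℝ) * Mt Ψ t ‖ζ‖

theorem Kt_eq (hN : 1 ≤ N) (h : Sym N A Ψ) (t : ℝ) (z : W) :
    Kt W Ψ t z = (𝓕 (gS hN h t : 𝓢(W, ℂ)) : 𝓢(W, ℂ)) (-z) := by
  rw [SchwartzMap.fourier_coe, F_eq]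
  unfold Kt
  refine integral_congr_ae (Eventually.of_forall fun ζ => ?_)
  simp only
  rw [gS_apply, inner_neg_right, neg_neg, real_inner_comm]
  rfl

/-- the symbol of `(|z|^2 - t^2) K` as a Schwartz function -/
noncomputable def hS (hN : 1 ≤ N) (h : Sym N A Ψ) (t : ℝ) : 𝓢(W, ℂ) :=
  (-(1 / (4 * Real.pi ^ 2) : ℂ)) • (∑ i, ∂_{stdOrthonormalBasis ℝ W i}
    (∂_{stdOrthonormalBasis ℝ W i} (gS hN h t : 𝓢(W, ℂ)))) - ((t : ℂ) ^ 2) • gS hN h t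

omit [MeasurableSpace W] [BorelSpace W] in
theorem hS_apply (hN : 1 ≤ N) (h : Sym N A Ψ) (t : ℝ) (ζ : W) :
    (hS hN h t : 𝓢(W, ℂ)) ζ = LL (Module.finrank ℝ W) Ψ t (‖ζ‖ ^ 2) := by
  unfold hS LL
  rw [sub_apply, smul_apply, smul_apply, sum_apply,
    gS_apply, gW_eq]
  simp only [smul_eq_mul, gS_line2]
  rw [Finset.sum_add_distrib, ← Finset.sum_mul, ← Finset.sum_mul]
  have h1 : ∑ i, ((2 * ‖(stdOrthonormalBasis ℝ W) i‖ ^ 2 : ℝ) : ℂ) =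
      2 * (Module.finrank ℝ W : ℂ) := by
    simp [mul_comm]
  have h2 : ∑ i, ((4 * (⟪ζ, (stdOrthonormalBasis ℝ W) i⟫ : ℝ) ^ 2 : ℝ) : ℂ) =
      4 * ((‖ζ‖ ^ 2 : ℝ) : ℂ) := by
    rw [← (stdOrthonormalBasis ℝ W).sum_sq_inner_left ζ]
    push_cast
    rw [Finset.mul_sum]
  rw [h1, h2]

theorem hS_F (hN : 1 ≤ N) (h : Sym N A Ψ) (t : ℝ) (w : W) :
    (𝓕 (hS hN h t : 𝓢(W, ℂ)) : 𝓢(W, ℂ)) w =
      ((‖w‖ ^ 2 - t ^ 2 : ℝ) : ℂ) * (𝓕 (gS hN h t : 𝓢(W, ℂ)) : 𝓢(W, ℂ)) w := by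
  have hpi : (Real.pi : ℂ) ≠ 0 := by exact_mod_cast Real.pi_ne_zero
  have hsub : ∀ X Y : 𝓢(W, ℂ), (𝓕 (X - Y) : 𝓢(W, ℂ)) = 𝓕 X - 𝓕 Y := fun X Y =>
    map_sub (FourierTransform.fourierCLM ℂ 𝓢(W, ℂ)) X Y
  unfold hS
  rw [hsub, FourierTransform.fourier_smul, FourierTransform.fourier_smul,
    sub_apply, smul_apply, smul_apply, F_lap]
  simp only [smul_eq_mul]
  push_cast
  field_simp

/-- the weighted bound of the kernel -/
theorem Kt_L2 (hN : 1 ≤ N) (h : Sym N A Ψ) {t : ℝ} (ht : |t| ≤ 2) :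
    Integrable (fun z : W => (1 + N ^ 2 * (‖z‖ ^ 2 - t ^ 2) ^ 2) * ‖Kt W Ψ t z‖ ^ 2) ∧
    ∫ z : W, (1 + N ^ 2 * (‖z‖ ^ 2 - t ^ 2) ^ 2) * ‖Kt W Ψ t z‖ ^ 2 ≤
      (1 + (2 * Module.finrank ℝ W + 4) ^ 2) * A ^ 2 *
        volume.real (Metric.closedBall (0 : W) (2 * N)) := by
  set q := Module.finrank ℝ W
  set G : 𝓢(W, ℂ) := 𝓕 (gS hN h t : 𝓢(W, ℂ)) with hG
  set H : 𝓢(W, ℂ) := 𝓕 (hS hN h t : 𝓢(W, ℂ)) with hH
  have hN0 : 0 < N := by linarith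
  have i1 : Integrable (fun z : W => ‖G z‖ ^ 2) := (G.memLp 2).integrable_norm_pow (by norm_num)
  have i2 : Integrable (fun z : W => ‖H z‖ ^ 2) := (H.memLp 2).integrable_norm_pow (by norm_num)
  have e0 : (fun z : W => (1 + N ^ 2 * (‖z‖ ^ 2 - t ^ 2) ^ 2) * ‖Kt W Ψ t z‖ ^ 2) =
      fun z : W => ‖G (-z)‖ ^ 2 + N ^ 2 * ‖H (-z)‖ ^ 2 := by
    funext z
    rw [Kt_eq hN h, ← hG]
    have h1 : ‖H (-z)‖ = |‖z‖ ^ 2 - t ^ 2| * ‖G (-z)‖ := by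
      rw [hH, hS_F, norm_mul, Complex.norm_real, norm_neg, Real.norm_eq_abs]
    rw [h1, mul_pow, sq_abs]
    ring
  have i3 : Integrable (fun z : W => ‖G z‖ ^ 2 + N ^ 2 * ‖H z‖ ^ 2) := i1.add (i2.const_mul _)
  refine ⟨by rw [e0]; exact i3.comp_neg, ?_⟩
  have e1 : ∫ z : W, (1 + N ^ 2 * (‖z‖ ^ 2 - t ^ 2) ^ 2) * ‖Kt W Ψ t z‖ ^ 2 =
      (∫ z : W, ‖G z‖ ^ 2) + N ^ 2 * ∫ z : W, ‖H z‖ ^ 2 := by
    rw [e0, integral_neg_eq_self (fun z : W => ‖G z‖ ^ 2 + N ^ 2 * ‖H z‖ ^ 2),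
      integral_add i1 (i2.const_mul _), integral_const_mul]
  have c0 : ∀ {F : 𝓢(W, ℂ)} {B : ℝ}, (∀ ζ, ‖F ζ‖ ≤ B) → (∀ ζ, 2 * N < ‖ζ‖ → F ζ = 0) →
      ∫ z : W, ‖F z‖ ^ 2 ≤ B ^ 2 * volume.real (Metric.closedBall (0 : W) (2 * N)) := by
    intro F B hB hz
    have hB0 : 0 ≤ B := (norm_nonneg _).trans (hB 0)
    calc ∫ z : W, ‖F z‖ ^ 2 ≤ ∫ z : W, (Metric.closedBall (0 : W) (2 * N)).indicator
          (fun _ => B ^ 2) z := by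
          refine integral_mono_of_nonneg (Eventually.of_forall fun z => sq_nonneg _) ?_ ?_
          · rw [integrable_indicator_iff Metric.isClosed_closedBall.measurableSet]
            exact integrableOn_const (measure_closedBall_lt_top).ne
          · refine Eventually.of_forall fun z => ?_
            simp only
            by_cases hx : z ∈ Metric.closedBall (0 : W) (2 * N)
            · rw [indicator_of_mem hx]
              have := hB z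
              gcongr
            · rw [indicator_of_notMem hx, hz z]
              · simp
              · simpa using hx
      _ = _ := by
          rw [integral_indicator_const _ Metric.isClosed_closedBall.measurableSet, smul_eq_mul,
            mul_comm]
  have p1 : ∫ z : W, ‖G z‖ ^ 2 ≤ A ^ 2 * volume.real (Metric.closedBall (0 : W) (2 * N)) := by
    rw [hG, SchwartzMap.integral_norm_sq_fourier]
    refine c0 (fun ζ => ?_) (fun ζ hζ => ?_)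
    · rw [gS_apply]
      exact (Mt_mul hN h t).bdd _ (norm_nonneg _)
    · rw [gS_apply]
      exact (Mt_mul hN h t).supp _ hζ
  have p2 : ∫ z : W, ‖H z‖ ^ 2 ≤ ((2 * q + 4) * A / N) ^ 2 *
      volume.real (Metric.closedBall (0 : W) (2 * N)) := by
    rw [hH, SchwartzMap.integral_norm_sq_fourier]
    refine c0 (fun ζ => ?_) (fun ζ hζ => ?_)
    · rw [hS_apply]
      exact LL_bound hN h _ ht _
    · rw [hS_apply]
      refine LL_zero h _ t (Or.inr ?_)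
      nlinarith
  rw [e1]
  calc (∫ z : W, ‖G z‖ ^ 2) + N ^ 2 * ∫ z : W, ‖H z‖ ^ 2
      ≤ A ^ 2 * volume.real (Metric.closedBall (0 : W) (2 * N)) + N ^ 2 *
        (((2 * q + 4) * A / N) ^ 2 * volume.real (Metric.closedBall (0 : W) (2 * N))) := by
        gcongr
    _ = _ := by field_simp

end

end Pool.Agent.Helper66K9.LS
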