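import Pool.Agent.Helper66K9.LS.Red3
set_option autoImplicit false

/-! # No concentration near coordinate hyperplanes -/

namespace Pool.Agent.Helper66K9.LS

open MeasureTheory Set Filter
open scoped ENNReal FourierTransform RealInnerProductSpace Topology ContDiff SchwartzMap
open Pool.Agent.TH280.LS (e norm_e e_add measurable_e continuous_e plancherel e_conj)

/-- uniform absolute continuity of the marginals -/
theorem slab {ι : Type} [Fintype ι] (K : EuclideanSpace ℝ ι → ℝ≥0∞)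
    (hKf : ∫⁻ z, K z ≠ (⊤ : ℝ≥0∞)) (l : ι) {ε : ℝ≥0∞} (hε : ε ≠ 0) :
    ∃ δ : ℝ, 0 < δ ∧ ∀ c : ℝ, ∫⁻ z in {z : EuclideanSpace ℝ ι | |z l - c| ≤ δ}, K z ≤ ε := by
  set μK : Measure (EuclideanSpace ℝ ι) := volume.withDensity K with hμK
  have hev : Measurable (fun z : EuclideanSpace ℝ ι => z l) := by fun_prop
  set ν : Measure ℝ := μK.map (fun z : EuclideanSpace ℝ ι => z l) with hν
  have hfin : IsFiniteMeasure μK := by
    refine ⟨?_⟩
    rw [hμK, withDensity_apply _ MeasurableSet.univ, Measure.restrict_univ]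
    exact lt_top_iff_ne_top.2 hKf
  have hfin2 : IsFiniteMeasure ν := by
    rw [hν]
    exact Measure.isFiniteMeasure_map _ _
  have hq : Measure.QuasiMeasurePreserving (fun z : EuclideanSpace ℝ ι => z l) volume volume :=
    (Measure.quasiMeasurePreserving_eval (fun _ : ι => (volume : Measure ℝ)) l).comp
      (PiLp.volume_preserving_ofLp ι).quasiMeasurePreserving
  have hac : ν ≪ volume := by
    refine Measure.AbsolutelyContinuous.mk fun s hs h0 => ?_
    rw [hν, Measure.map_apply hev hs]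
    exact withDensity_absolutelyContinuous _ _ (hq.preimage_null h0)
  set g : ℝ → ℝ≥0∞ := ν.rnDeriv volume with hg
  have hνg : volume.withDensity g = ν := Measure.withDensity_rnDeriv_eq _ _ hac
  have hgf : ∫⁻ x, g x ≠ (⊤ : ℝ≥0∞) := by
    have h1 : ∫⁻ x, g x = ν univ := by
      rw [← hνg, withDensity_apply _ MeasurableSet.univ, Measure.restrict_univ]
    rw [h1]
    exact measure_ne_top _ _
  obtain ⟨δ', hδ', h⟩ := exists_pos_setLIntegral_lt_of_measure_lt hgf hε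
  obtain ⟨r, hr0, hr⟩ := ENNReal.lt_iff_exists_nnreal_btwn.1 hδ'
  have hr0' : 0 < (r : ℝ) := by
    have : (0 : ℝ≥0∞) < (r : ℝ≥0∞) := hr0
    exact_mod_cast this
  refine ⟨r / 2, by positivity, fun c => ?_⟩
  have hs : {z : EuclideanSpace ℝ ι | |z l - c| ≤ (r : ℝ) / 2} =
      (fun z : EuclideanSpace ℝ ι => z l) ⁻¹' Icc (c - r / 2) (c + r / 2) := by
    ext z
    simp only [mem_ofPred_eq, mem_preimage, mem_Icc, abs_le]
    constructor
    · rintro ⟨h1, h2⟩; constructor <;> linarith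
    · rintro ⟨h1, h2⟩; constructor <;> linarith
  have h1 : ∫⁻ z in {z : EuclideanSpace ℝ ι | |z l - c| ≤ (r : ℝ) / 2}, K z =
      ∫⁻ x in Icc (c - r / 2) (c + r / 2), g x := by
    rw [← withDensity_apply g measurableSet_Icc, hνg, hν, Measure.map_apply hev measurableSet_Icc,
      hμK, withDensity_apply _ (hev measurableSet_Icc), hs]
  rw [h1]
  refine (h _ ?_).le
  rw [Real.volume_Icc]
  have : c + (r : ℝ) / 2 - (c - r / 2) = r := by ring
  rw [this, ENNReal.ofReal_coe_nnreal]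
  exact hr

theorem jensen {X : Type*} [MeasurableSpace X] (μ : Measure X) {g : X → ℝ≥0∞}
    (hg : AEMeasurable g μ) {p : ℝ} (hp : 1 < p) :
    (∫⁻ x, g x ∂μ) ^ p ≤ (μ univ) ^ (p - 1) * ∫⁻ x, g x ^ p ∂μ := by
  have hp0 : 0 < p := by linarith
  have hq : p.HolderConjugate (p.conjExponent) := Real.HolderConjugate.conjExponent hp
  have h1 := ENNReal.lintegral_mul_le_Lp_mul_Lq μ hq hg (aemeasurable_const (b := (1 : ℝ≥0∞)))
  simp only [Pi.mul_apply, mul_one, ENNReal.one_rpow, lintegral_const, one_mul] at h1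
  calc (∫⁻ x, g x ∂μ) ^ p
      ≤ ((∫⁻ x, g x ^ p ∂μ) ^ (1 / p) * (μ univ) ^ (1 / p.conjExponent)) ^ p :=
        ENNReal.rpow_le_rpow h1 hp0.le
    _ = (μ univ) ^ (p - 1) * ∫⁻ x, g x ^ p ∂μ := by
        rw [ENNReal.mul_rpow_of_nonneg _ _ hp0.le, ← ENNReal.rpow_mul, ← ENNReal.rpow_mul]
        have e1 : 1 / p * p = 1 := by field_simp
        have e2 : 1 / p.conjExponent * p = p - 1 := by
          unfold Real.conjExponent
          have : p - 1 ≠ 0 := by linarith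
          field_simp
        rw [e1, e2, ENNReal.rpow_one, mul_comm]

section

variable (W : Type*) [NormedAddCommGroup W] [InnerProductSpace ℝ W] [FiniteDimensional ℝ W]

/-- a cutoff -/
noncomputable def bmp : ContDiffBump (0 : W) := ⟨2, 3, by norm_num, by norm_num⟩

theorem bmp_cpt : HasCompactSupport (fun ζ : W => ((bmp W ζ : ℝ) : ℂ)) :=
  (bmp W).hasCompactSupport.comp_left (g := fun x : ℝ => (x : ℂ)) Complex.ofReal_zero

theorem bmp_smooth : ContDiff ℝ ∞ (fun ζ : W => ((bmp W ζ : ℝ) : ℂ)) :=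
  Complex.ofRealCLM.contDiff.comp (bmp W).contDiff

/-- the cutoff as a Schwartz function -/
noncomputable def kS : 𝓢(W, ℂ) := (bmp_cpt W).toSchwartzMap (bmp_smooth W)

theorem kS_one {ζ : W} (h : ‖ζ‖ ≤ 2) : kS W ζ = 1 := by
  have h1 : kS W ζ = ((bmp W ζ : ℝ) : ℂ) := rfl
  rw [h1, (bmp W).one_of_mem_closedBall (by simpa [bmp] using h)]
  simp

variable [MeasurableSpace W] [BorelSpace W]

/-- the kernel -/
noncomputable def kK : 𝓢(W, ℂ) := 𝓕⁻ (kS W)

theorem F_kK : (𝓕 (kK W) : 𝓢(W, ℂ)) = kS W := by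
  unfold kK
  exact FourierTransform.fourier_fourierInv_eq (kS W)

theorem F_kK' (ζ : W) : ∫ v : W, e (-(⟪v, ζ⟫ : ℝ)) * kK W v = kS W ζ := by
  rw [← F_eq, ← SchwartzMap.fourier_coe, F_kK]

end

variable {W : Type*} [NormedAddCommGroup W] [InnerProductSpace ℝ W] [FiniteDimensional ℝ W]
  [MeasurableSpace W] [BorelSpace W]

theorem repro {C R : ℝ} {M : ℝ → ℂ} (hM : Mul C R M) {f : W → ℂ} (hf : Integrable f) {N : ℝ}
    (hN : 0 < N) (hR : R ≤ 2 * N) (z : W) :
    TM M f z = ∫ v : W, kK W v * TM M f (z - N⁻¹ • v) := by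
  set g : W → ℂ := fun ζ => M ‖ζ‖ * 𝓕 f ζ with hg
  have hgi : Integrable g := int_MF hM hf
  have hKi : Integrable (kK W : W → ℂ) := (kK W).integrable
  have h1 : ∀ ζ : W, e (⟪z, ζ⟫ : ℝ) * g ζ =
      ∫ v : W, kK W v * (e (⟪z - N⁻¹ • v, ζ⟫ : ℝ) * g ζ) := by
    intro ζ
    have h2 : kS W (N⁻¹ • ζ) * g ζ = g ζ := by
      by_cases hζ : ‖ζ‖ ≤ 2 * N
      · rw [kS_one W, one_mul]
        rw [norm_smul, norm_inv, Real.norm_of_nonneg hN.le, inv_mul_le_iff₀ hN]
        linarith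
      · push Not at hζ
        simp only [hg]
        rw [hM.supp _ (by linarith)]
        simp
    conv_lhs => rw [← h2]
    rw [← F_kK', ← integral_mul_const, ← integral_const_mul]
    refine integral_congr_ae (Eventually.of_forall fun v => ?_)
    simp only
    have h3 : e (⟪z - N⁻¹ • v, ζ⟫ : ℝ) = e (⟪z, ζ⟫ : ℝ) * e (-(⟪v, N⁻¹ • ζ⟫ : ℝ)) := by
      rw [← e_add, inner_sub_left, real_inner_smul_left, real_inner_smul_right, sub_eq_add_neg]
    rw [h3]
    ring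
  have h4 : TM M f z = ∫ ζ : W, e (⟪z, ζ⟫ : ℝ) * g ζ := rfl
  rw [h4]
  simp_rw [h1]
  rw [integral_integral_swap]
  · refine integral_congr_ae (Eventually.of_forall fun v => ?_)
    simp only
    rw [integral_const_mul]
    rfl
  · have h2 : Integrable (fun q : W × W => g q.1 * kK W q.2) := hgi.mul_prod hKi
    have h3 : (Function.uncurry fun (ζ v : W) => kK W v * (e (⟪z - N⁻¹ • v, ζ⟫ : ℝ) * g ζ)) =
        fun q : W × W => e (⟪z - N⁻¹ • q.2, q.1⟫ : ℝ) * (g q.1 * kK W q.2) := by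
      funext q
      simp only [Function.uncurry]
      ring
    rw [h3]
    refine h2.bdd_mul (c := 1) ?_ ?_
    · exact (measurable_e.comp (by fun_prop)).aestronglyMeasurable
    · exact Eventually.of_forall fun ζ => (norm_e _).le

theorem NCb {ι : Type} [Fintype ι] {p : ℝ} (hp : 1 < p) (l : ι) {ε : ℝ≥0∞} (hε : ε ≠ 0) :
    ∃ δ : ℝ, 0 < δ ∧ ∀ (C R : ℝ) (M : ℝ → ℂ), Mul C R M → ∀ N : ℝ, 0 < N → R ≤ 2 * N →
      ∀ f : EuclideanSpace ℝ ι → ℂ, Integrable f →
      ∫⁻ z in {z : EuclideanSpace ℝ ι | |z l| ≤ δ / N}, ‖TM M f z‖ₑ ^ p ≤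
        ε * ∫⁻ z, ‖TM M f z‖ₑ ^ p := by
  have hp0 : 0 < p := by linarith
  set K : EuclideanSpace ℝ ι → ℝ≥0∞ := fun v => ‖kK (EuclideanSpace ℝ ι) v‖ₑ with hK
  have hKm : Measurable K := (kK (EuclideanSpace ℝ ι)).continuous.measurable.enorm
  set a : ℝ≥0∞ := ∫⁻ v, K v with ha
  have haf : a ≠ (⊤ : ℝ≥0∞) := ((kK (EuclideanSpace ℝ ι)).integrable (μ := volume)).2.ne
  have hap : a ^ (p - 1) ≠ (⊤ : ℝ≥0∞) := ENNReal.rpow_ne_top_of_nonneg (by linarith) haf
  set ε' : ℝ≥0∞ := ε / (a ^ (p - 1) + 1) with hε'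
  have hε'0 : ε' ≠ 0 := by
    rw [hε', Ne, ENNReal.div_eq_zero_iff, not_or]
    exact ⟨hε, ENNReal.add_ne_top.2 ⟨hap, ENNReal.one_ne_top⟩⟩
  obtain ⟨δ, hδ, hsl⟩ := slab K haf l hε'0
  refine ⟨δ, hδ, ?_⟩
  intro C R M hM N hN hR f hf
  set u : EuclideanSpace ℝ ι → ℂ := TM M f with hu
  have hum : Measurable u := TM_meas1 hM.meas hf
  set μK : Measure (EuclideanSpace ℝ ι) := volume.withDensity K with hμK
  have hμa : μK univ = a := by
    rw [hμK, withDensity_apply _ MeasurableSet.univ, Measure.restrict_univ]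
  have hfin : IsFiniteMeasure μK := ⟨by rw [hμa]; exact lt_top_iff_ne_top.2 haf⟩
  set S : Set (EuclideanSpace ℝ ι) := {z | |z l| ≤ δ / N} with hS
  have hSm : MeasurableSet S :=
    measurableSet_le (continuous_abs.measurable.comp (by fun_prop)) measurable_const
  have h1 : ∀ z, ‖u z‖ₑ ^ p ≤ a ^ (p - 1) * ∫⁻ v, ‖u (z - N⁻¹ • v)‖ₑ ^ p ∂μK := by
    intro z
    have hm : Measurable (fun v : EuclideanSpace ℝ ι => ‖u (z - N⁻¹ • v)‖ₑ) :=
      (hum.comp (by fun_prop)).enorm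
    calc ‖u z‖ₑ ^ p ≤ (∫⁻ v, ‖u (z - N⁻¹ • v)‖ₑ ∂μK) ^ p := by
          refine ENNReal.rpow_le_rpow ?_ hp0.le
          rw [hu, repro hM hf hN hR z, hμK, lintegral_withDensity_eq_lintegral_mul _ hKm hm]
          refine (enorm_integral_le_lintegral_enorm _).trans (le_of_eq ?_)
          refine lintegral_congr fun v => ?_
          simp only [Pi.mul_apply]
          rw [enorm_mul]
      _ ≤ _ := by
          rw [← hμa]
          exact jensen μK hm.aemeasurable hp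
  have hjm : Measurable (fun q : EuclideanSpace ℝ ι × EuclideanSpace ℝ ι =>
      S.indicator (fun _ => (1 : ℝ≥0∞)) q.1 * ‖u (q.1 - N⁻¹ • q.2)‖ₑ ^ p) := by
    refine Measurable.mul ?_ ((hum.comp (by fun_prop)).enorm.pow_const p)
    exact (measurable_const.indicator hSm).comp measurable_fst
  calc ∫⁻ z in S, ‖u z‖ₑ ^ p
      ≤ ∫⁻ z in S, a ^ (p - 1) * ∫⁻ v, ‖u (z - N⁻¹ • v)‖ₑ ^ p ∂μK :=
        lintegral_mono fun z => h1 z
    _ = a ^ (p - 1) * ∫⁻ z, ∫⁻ v, S.indicator (fun _ => (1 : ℝ≥0∞)) z *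
          ‖u (z - N⁻¹ • v)‖ₑ ^ p ∂μK := by
        rw [lintegral_const_mul' _ _ hap, ← lintegral_indicator hSm]
        congr 1
        refine lintegral_congr fun z => ?_
        by_cases hz : z ∈ S
        · simp [indicator_of_mem hz]
        · simp [indicator_of_notMem hz]
    _ = a ^ (p - 1) * ∫⁻ v, ∫⁻ z, S.indicator (fun _ => (1 : ℝ≥0∞)) z *
          ‖u (z - N⁻¹ • v)‖ₑ ^ p ∂volume ∂μK := by
        rw [lintegral_lintegral_swap hjm.aemeasurable]
    _ = a ^ (p - 1) * ∫⁻ v, ∫⁻ w, S.indicator (fun _ => (1 : ℝ≥0∞)) (w + N⁻¹ • v) *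
          ‖u w‖ₑ ^ p ∂volume ∂μK := by
        congr 1
        refine lintegral_congr fun v => ?_
        rw [← lintegral_add_right_eq_self (fun z => S.indicator (fun _ => (1 : ℝ≥0∞)) z *
          ‖u (z - N⁻¹ • v)‖ₑ ^ p) (N⁻¹ • v)]
        simp only [add_sub_cancel_right]
    _ = a ^ (p - 1) * ∫⁻ w, ∫⁻ v, S.indicator (fun _ => (1 : ℝ≥0∞)) (w + N⁻¹ • v) *
          ‖u w‖ₑ ^ p ∂μK := by
        rw [lintegral_lintegral_swap]
        refine Measurable.aemeasurable (Measurable.mul ?_ ?_)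
        · exact (measurable_const.indicator hSm).comp
            (f := fun q : EuclideanSpace ℝ ι × EuclideanSpace ℝ ι => q.2 + N⁻¹ • q.1)
            (by fun_prop)
        · exact (hum.comp measurable_snd).enorm.pow_const p
    _ ≤ a ^ (p - 1) * ∫⁻ w, ε' * ‖u w‖ₑ ^ p := by
        refine mul_le_mul_right (lintegral_mono fun w => ?_) _
        have hmi : Measurable (fun v : EuclideanSpace ℝ ι =>
            S.indicator (fun _ => (1 : ℝ≥0∞)) (w + N⁻¹ • v)) :=
          (measurable_const.indicator hSm).comp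
            (f := fun v : EuclideanSpace ℝ ι => w + N⁻¹ • v) (by fun_prop)
        rw [lintegral_mul_const _ hmi]
        refine mul_le_mul_left ?_ _
        have hpre : (fun v : EuclideanSpace ℝ ι => S.indicator (fun _ => (1 : ℝ≥0∞))
            (w + N⁻¹ • v)) = ({v : EuclideanSpace ℝ ι | |v l - (-(N * w l))| ≤ δ}).indicator
              (fun _ => (1 : ℝ≥0∞)) := by
          funext v
          have hiff : w + N⁻¹ • v ∈ S ↔
              v ∈ {v : EuclideanSpace ℝ ι | |v l - (-(N * w l))| ≤ δ} := by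
            simp only [hS, mem_ofPred_eq]
            rw [le_div_iff₀ hN]
            have h5 : |(w + N⁻¹ • v) l| * N = |v l - (-(N * w l))| := by
              rw [← abs_of_pos hN, ← abs_mul, abs_of_pos hN]
              congr 1
              simp only [PiLp.add_apply, PiLp.smul_apply, smul_eq_mul]
              field_simp
              ring
            rw [h5]
          by_cases hv : w + N⁻¹ • v ∈ S
          · rw [indicator_of_mem hv, indicator_of_mem (hiff.1 hv)]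
          · rw [indicator_of_notMem hv, indicator_of_notMem (fun h => hv (hiff.2 h))]
        have hms : MeasurableSet {v : EuclideanSpace ℝ ι | |v l - (-(N * w l))| ≤ δ} :=
          measurableSet_le (continuous_abs.measurable.comp (by fun_prop)) measurable_const
        rw [hpre, lintegral_indicator hms, setLIntegral_one, hμK, withDensity_apply _ hms]
        exact hsl _
    _ = (a ^ (p - 1) * ε') * ∫⁻ w, ‖u w‖ₑ ^ p := by
        rw [lintegral_const_mul _ (hum.enorm.pow_const p), mul_assoc]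
    _ ≤ ε * ∫⁻ w, ‖u w‖ₑ ^ p := by
        refine mul_le_mul_left ?_ _
        rw [hε', ← mul_div_assoc]
        refine ENNReal.div_le_of_le_mul ?_
        rw [mul_comm (a ^ (p - 1)) ε]
        exact mul_le_mul_right (self_le_add_right _ _) _

theorem TM_Lp {C R : ℝ} {M : ℝ → ℂ} (hM : Mul C R M) {f : W → ℂ} (hf : Integrable f)
    (h2 : ∫⁻ z, ‖f z‖ₑ ^ (2 : ℝ) < (⊤ : ℝ≥0∞)) {p : ℝ} (hp : 2 ≤ p) :
    ∫⁻ z, ‖TM M f z‖ₑ ^ p < (⊤ : ℝ≥0∞) := by
  set B : ℝ≥0∞ := ∫⁻ ζ : W, ‖M ‖ζ‖ * 𝓕 f ζ‖ₑ with hB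
  have hBf : B < (⊤ : ℝ≥0∞) := (int_MF hM hf).2
  have h1 : ∀ z, ‖TM M f z‖ₑ ≤ B := by
    intro z
    unfold TM
    refine (enorm_integral_le_lintegral_enorm _).trans (le_of_eq ?_)
    refine lintegral_congr fun ζ => ?_
    rw [enorm_mul, ← ofReal_norm (e (⟪z, ζ⟫ : ℝ)), norm_e]
    simp
  have h3 := TM_L2 hM hf
  calc ∫⁻ z, ‖TM M f z‖ₑ ^ p ≤ ∫⁻ z, B ^ (p - 2) * ‖TM M f z‖ₑ ^ 2 := by
        refine lintegral_mono fun z => ?_
        calc ‖TM M f z‖ₑ ^ p = ‖TM M f z‖ₑ ^ (p - 2) * ‖TM M f z‖ₑ ^ (2 : ℝ) := by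
              rw [← ENNReal.rpow_add_of_nonneg _ _ (by linarith) (by norm_num)]
              congr 1
              ring
          _ ≤ _ := by
              rw [ENNReal.rpow_two]
              exact mul_le_mul_left (ENNReal.rpow_le_rpow (h1 z) (by linarith)) _
    _ = B ^ (p - 2) * ∫⁻ z, ‖TM M f z‖ₑ ^ 2 :=
        lintegral_const_mul' _ _ (ENNReal.rpow_ne_top_of_nonneg (by linarith) hBf.ne)
    _ < (⊤ : ℝ≥0∞) := by
        refine ENNReal.mul_lt_top (ENNReal.rpow_lt_top_of_nonneg (by linarith) hBf.ne) ?_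
        refine lt_of_le_of_lt h3 (ENNReal.mul_lt_top ENNReal.ofReal_lt_top ?_)
        simpa using h2

theorem absorb (k n : ℕ) {p : ℝ} (hp : 2 ≤ p) : ∃ δ : ℝ, 0 < δ ∧ ∀ (C R : ℝ) (M : ℝ → ℂ),
    Mul C R M → ∀ N : ℝ, 0 < N → R ≤ 2 * N → ∀ f : Wd k n → ℂ, Integrable f →
    ∫⁻ z, ‖f z‖ₑ ^ (2 : ℝ) < (⊤ : ℝ≥0∞) →
    ∫⁻ z, ‖TM M f z‖ₑ ^ p ≤ 2 * ∫⁻ z in good k n (δ / N), ‖TM M f z‖ₑ ^ p := by
  set ε : ℝ≥0∞ := (2 * (k + 1 : ℕ) : ℝ≥0∞)⁻¹ with hε
  have hε0 : ε ≠ 0 := by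
    rw [hε, Ne, ENNReal.inv_eq_zero]
    exact ENNReal.mul_ne_top (by norm_num) (ENNReal.natCast_ne_top _)
  have h1 := fun i : Fin k => NCb (ι := (Fin k × Fin 3) ⊕ Fin n) (p := p) (by linarith)
    (Sum.inl (i, 0)) hε0
  choose δ hδ hNC using h1
  obtain ⟨δ0, hδ0, hle⟩ : ∃ δ0 : ℝ, 0 < δ0 ∧ ∀ i, δ0 ≤ δ i := by
    rcases isEmpty_or_nonempty (Fin k) with he | he
    · exact ⟨1, one_pos, fun i => (he.false i).elim⟩
    · refine ⟨Finset.univ.inf' Finset.univ_nonempty δ, ?_, fun i =>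
        Finset.inf'_le _ (Finset.mem_univ i)⟩
      rw [Finset.lt_inf'_iff]
      exact fun i _ => hδ i
  refine ⟨δ0, hδ0, ?_⟩
  intro C R M hM N hN hR f hf h2
  set I : ℝ≥0∞ := ∫⁻ z, ‖TM M f z‖ₑ ^ p with hI
  have hIf : I < (⊤ : ℝ≥0∞) := TM_Lp hM hf h2 hp
  have h3 : I ≤ (∫⁻ z in good k n (δ0 / N), ‖TM M f z‖ₑ ^ p) + I / 2 := by
    calc I = (∫⁻ z in good k n (δ0 / N), ‖TM M f z‖ₑ ^ p) +
          ∫⁻ z in (good k n (δ0 / N))ᶜ, ‖TM M f z‖ₑ ^ p :=
          (lintegral_add_compl _ (good_meas k n _)).symm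
      _ ≤ (∫⁻ z in good k n (δ0 / N), ‖TM M f z‖ₑ ^ p) +
          ∫⁻ z in ⋃ i : Fin k, {z : Wd k n | |z (Sum.inl (i, 0))| ≤ δ i / N},
            ‖TM M f z‖ₑ ^ p := by
          refine add_le_add le_rfl (lintegral_mono_set fun z hz => ?_)
          simp only [good, mem_compl_iff, mem_ofPred_eq, not_forall, not_lt] at hz
          obtain ⟨i, hi⟩ := hz
          refine mem_iUnion.2 ⟨i, hi.trans ?_⟩
          exact div_le_div_of_nonneg_right (hle i) hN.le
      _ ≤ (∫⁻ z in good k n (δ0 / N), ‖TM M f z‖ₑ ^ p) + ∑ _i : Fin k, ε * I := by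
          refine add_le_add le_rfl ((lintegral_iUnion_le _ _).trans ?_)
          rw [tsum_fintype]
          exact Finset.sum_le_sum fun i _ => hNC i C R M hM N hN hR f hf
      _ ≤ _ := by
          refine add_le_add le_rfl ?_
          rw [Finset.sum_const, Finset.card_univ, Fintype.card_fin, nsmul_eq_mul, ← mul_assoc,
            ENNReal.div_eq_inv_mul]
          refine mul_le_mul_left ?_ _
          rw [hε, ENNReal.mul_inv (Or.inl (by norm_num)) (Or.inl (by norm_num)), mul_left_comm]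
          refine mul_le_of_le_one_right zero_le ?_
          rw [← div_eq_mul_inv]
          refine ENNReal.div_le_of_le_mul ?_
          rw [one_mul]
          exact_mod_cast Nat.le_succ k
  have h4 : I / 2 ≤ ∫⁻ z in good k n (δ0 / N), ‖TM M f z‖ₑ ^ p := by
    have h5 : I / 2 ≠ (⊤ : ℝ≥0∞) := (ENNReal.div_lt_top hIf.ne (by norm_num)).ne
    have h6 : I / 2 + I / 2 ≤ (∫⁻ z in good k n (δ0 / N), ‖TM M f z‖ₑ ^ p) + I / 2 := by
      rw [ENNReal.add_halves]
      exact h3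
    exact (ENNReal.add_le_add_iff_right h5).1 h6
  calc I = 2 * (I / 2) := (ENNReal.mul_div_cancel (by norm_num) (by norm_num)).symm
    _ ≤ _ := mul_le_mul_right h4 _

end Pool.Agent.Helper66K9.LS
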