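import Pool.Agent.TH280.LS.K3
set_option autoImplicit false

/-! # Radial multiplier operators on inner product spaces: basic facts -/

namespace Pool.Agent.Helper66K9.LS

open MeasureTheory Set Filter
open scoped ENNReal FourierTransform RealInnerProductSpace Topology
open Pool.Agent.TH280.LS (e norm_e e_add measurable_e continuous_e plancherel e_conj)

variable {W : Type*} [NormedAddCommGroup W] [InnerProductSpace ℝ W] [FiniteDimensional ℝ W]
  [MeasurableSpace W] [BorelSpace W]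

/-- radial multiplier operator -/
noncomputable def TM (M : ℝ → ℂ) (f : W → ℂ) (z : W) : ℂ :=
  ∫ ζ : W, e (⟪z, ζ⟫ : ℝ) * (M ‖ζ‖ * 𝓕 f ζ)

/-- bounded measurable multipliers with bounded support -/
structure Mul (C R : ℝ) (M : ℝ → ℂ) : Prop where
  meas : Measurable M
  bdd : ∀ ρ, 0 ≤ ρ → ‖M ρ‖ ≤ C
  supp : ∀ ρ, R < ρ → M ρ = 0

theorem memLp2_of_bdd {X : Type*} [MeasurableSpace X] {μ : Measure X} {f : X → ℂ}
    (hf : Integrable f μ) {K : ℝ} (hK : ∀ x, ‖f x‖ ≤ K) : MemLp f 2 μ := by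
  rw [memLp_two_iff_integrable_sq_norm hf.1]
  refine (hf.norm.const_mul K).mono' (hf.1.norm.pow 2) (Filter.Eventually.of_forall fun x => ?_)
  rw [Real.norm_eq_abs, abs_of_nonneg (sq_nonneg _), sq]
  exact mul_le_mul_of_nonneg_right (hK x) (norm_nonneg _)

theorem int_cpt {F : W → ℂ} (hF : AEStronglyMeasurable F) {B R : ℝ} (hb : ∀ ζ, ‖F ζ‖ ≤ B)
    (hs : ∀ ζ, R < ‖ζ‖ → F ζ = 0) : Integrable F := by
  have h1 : Integrable ((Metric.closedBall (0 : W) R).indicator fun _ => B) := by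
    rw [integrable_indicator_iff Metric.isClosed_closedBall.measurableSet]
    exact integrableOn_const (measure_closedBall_lt_top).ne
  refine h1.mono' hF (Eventually.of_forall fun x => ?_)
  by_cases hx : x ∈ Metric.closedBall (0 : W) R
  · rw [indicator_of_mem hx]
    exact hb x
  · rw [indicator_of_notMem hx, hs x, norm_zero]
    simpa using hx

theorem cont_F {f : W → ℂ} (hf : Integrable f) : Continuous (𝓕 f) :=
  VectorFourier.fourierIntegral_continuous Real.continuous_fourierChar continuous_inner hf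

theorem norm_F_le (f : W → ℂ) (ζ : W) : ‖𝓕 f ζ‖ ≤ ∫ z, ‖f z‖ := by
  rw [Real.fourier_eq]
  refine (norm_integral_le_integral_norm _).trans (le_of_eq ?_)
  refine integral_congr_ae (Eventually.of_forall fun x => ?_)
  simp only [Circle.norm_smul]

theorem F_eq (f : W → ℂ) (ζ : W) : 𝓕 f ζ = ∫ w : W, e (-(⟪w, ζ⟫ : ℝ)) * f w := by
  rw [Real.fourier_eq]
  refine integral_congr_ae (Eventually.of_forall fun v => ?_)
  simp only
  rw [Circle.smul_def, smul_eq_mul, Real.fourierChar_apply]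
  unfold e
  congr 2

section

variable {C R : ℝ} {M : ℝ → ℂ} (hM : Mul C R M)

include hM

theorem Mul.nonneg : 0 ≤ C := (norm_nonneg _).trans (hM.bdd 0 le_rfl)

theorem meas_MF {f : W → ℂ} (hf : Integrable f) : Measurable (fun ζ : W => M ‖ζ‖ * 𝓕 f ζ) :=
  (hM.meas.comp measurable_norm).mul (cont_F hf).measurable

theorem bdd_MF {f : W → ℂ} (ζ : W) :
    ‖M ‖ζ‖ * 𝓕 f ζ‖ ≤ C * ∫ z, ‖f z‖ := by
  rw [norm_mul]
  exact mul_le_mul (hM.bdd _ (norm_nonneg _)) (norm_F_le f ζ) (norm_nonneg _) hM.nonneg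

theorem int_MF {f : W → ℂ} (hf : Integrable f) : Integrable (fun ζ : W => M ‖ζ‖ * 𝓕 f ζ) :=
  int_cpt (meas_MF hM hf).aestronglyMeasurable (fun ζ => bdd_MF hM ζ) (R := R) fun ζ h => by
    rw [hM.supp _ h, zero_mul]

theorem memLp_MF {f : W → ℂ} (hf : Integrable f) : MemLp (fun ζ : W => M ‖ζ‖ * 𝓕 f ζ) 2 :=
  memLp2_of_bdd (int_MF hM hf) (fun ζ => bdd_MF hM ζ)

omit hM in
theorem int_eMF {G : W → ℂ} (hG : Integrable G) (z : W) :
    Integrable (fun ζ : W => e (⟪z, ζ⟫ : ℝ) * G ζ) := by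
  refine hG.bdd_mul (c := 1) ?_ ?_
  · exact (measurable_e.comp (by fun_prop)).aestronglyMeasurable
  · exact Eventually.of_forall fun ζ => (norm_e _).le

theorem TM_add {f g : W → ℂ} (hf : Integrable f) (hg : Integrable g) (z : W) :
    TM M (fun w => f w + g w) z = TM M f z + TM M g z := by
  unfold TM
  rw [← integral_add (int_eMF (int_MF hM hf) z) (int_eMF (int_MF hM hg) z)]
  refine integral_congr_ae (Eventually.of_forall fun ζ => ?_)
  simp only
  have h : 𝓕 (fun w => f w + g w) ζ = 𝓕 f ζ + 𝓕 g ζ := by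
    rw [F_eq, F_eq, F_eq, ← integral_add]
    · refine integral_congr_ae (Eventually.of_forall fun w => ?_)
      simp only
      ring
    · refine hf.bdd_mul (c := 1) ?_ ?_
      · exact (measurable_e.comp (Measurable.neg (by fun_prop))).aestronglyMeasurable
      · exact Eventually.of_forall fun ζ => (norm_e _).le
    · refine hg.bdd_mul (c := 1) ?_ ?_
      · exact (measurable_e.comp (Measurable.neg (by fun_prop))).aestronglyMeasurable
      · exact Eventually.of_forall fun ζ => (norm_e _).le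
  rw [h]
  ring

theorem TM_sum {ι : Type*} (S : Finset ι) (f : ι → W → ℂ) (hf : ∀ i, Integrable (f i)) (z : W) :
    TM M (fun w => ∑ i ∈ S, f i w) z = ∑ i ∈ S, TM M (f i) z := by
  classical
  induction S using Finset.induction_on with
  | empty =>
      simp only [Finset.sum_empty]
      unfold TM
      have : ∀ ζ : W, 𝓕 (fun _ : W => (0 : ℂ)) ζ = 0 := by
        intro ζ
        rw [F_eq]
        simp
      simp [this]
  | insert a S ha ih =>
      simp only [Finset.sum_insert ha]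
      rw [TM_add hM (hf a) (integrable_finset_sum _ fun i _ => hf i), ih]

/-- `L²` bound -/
theorem TM_L2 {f : W → ℂ} (hf : Integrable f) :
    ∫⁻ z : W, ‖TM M f z‖ₑ ^ 2 ≤ ENNReal.ofReal (C ^ 2) * ∫⁻ z : W, ‖f z‖ₑ ^ 2 := by
  rcases hM.nonneg.eq_or_lt with hC | hC
  · have h0 : ∀ z : W, TM M f z = 0 := by
      intro z
      unfold TM
      have : ∀ ζ : W, M ‖ζ‖ = 0 := fun ζ => by
        have := hM.bdd ‖ζ‖ (norm_nonneg _)
        rw [← hC] at this
        exact norm_le_zero_iff.1 this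
      simp [this]
    simp [h0]
  by_cases h2 : MemLp f 2
  swap
  · have : ∫⁻ x : W, ‖f x‖ₑ ^ 2 = ⊤ := by
      by_contra hne
      refine h2 ⟨hf.1, ?_⟩
      rw [eLpNorm_lt_top_iff_lintegral_rpow_enorm_lt_top (by norm_num) (by norm_num)]
      simp only [ENNReal.toReal_ofNat, ENNReal.rpow_ofNat]
      exact lt_top_iff_ne_top.mpr hne
    rw [this, ENNReal.mul_top]
    · exact le_top
    · rw [Ne, ENNReal.ofReal_eq_zero, not_le]
      positivity
  set G : W → ℂ := fun ζ : W => M ‖ζ‖ * 𝓕 f ζ with hG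
  have h1 : ∀ z, TM M f z = 𝓕 G (-z) := by
    intro z
    rw [F_eq]
    unfold TM
    refine integral_congr_ae (Eventually.of_forall fun ζ => ?_)
    simp only [hG]
    rw [inner_neg_right, neg_neg, real_inner_comm]
  calc ∫⁻ z : W, ‖TM M f z‖ₑ ^ 2 = ∫⁻ z : W, ‖𝓕 G (-z)‖ₑ ^ 2 :=
        lintegral_congr fun z => by rw [h1]
    _ = ∫⁻ z : W, ‖𝓕 G z‖ₑ ^ 2 := by
        exact (Measure.measurePreserving_neg (volume : Measure W)).lintegral_comp_emb
          (MeasurableEquiv.neg W).measurableEmbedding (fun z => ‖𝓕 G z‖ₑ ^ 2)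
    _ = ∫⁻ ζ : W, ‖G ζ‖ₑ ^ 2 := plancherel G (int_MF hM hf) (memLp_MF hM hf)
    _ ≤ ∫⁻ ζ : W, ENNReal.ofReal (C ^ 2) * ‖𝓕 f ζ‖ₑ ^ 2 := by
        refine lintegral_mono fun ζ => ?_
        have h3 : ‖G ζ‖ₑ ≤ ENNReal.ofReal C * ‖𝓕 f ζ‖ₑ := by
          simp only [hG]
          rw [enorm_mul]
          refine mul_le_mul_left ?_ _
          rw [← ofReal_norm]
          exact ENNReal.ofReal_le_ofReal (hM.bdd _ (norm_nonneg _))
        calc ‖G ζ‖ₑ ^ 2 ≤ (ENNReal.ofReal C * ‖𝓕 f ζ‖ₑ) ^ 2 := by gcongr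
          _ = _ := by rw [mul_pow, ENNReal.ofReal_pow hC.le]
    _ = ENNReal.ofReal (C ^ 2) * ∫⁻ ζ : W, ‖𝓕 f ζ‖ₑ ^ 2 :=
        lintegral_const_mul' _ _ ENNReal.ofReal_ne_top
    _ = _ := by rw [plancherel f hf h2]

/-- the kernel -/
theorem TM_kernel {f : W → ℂ} (hf : Integrable f) (z : W) :
    TM M f z = ∫ w : W, (∫ ζ : W, e (⟪z - w, ζ⟫ : ℝ) * M ‖ζ‖) * f w := by
  unfold TM
  have hMi : Integrable (fun ζ : W => M ‖ζ‖) :=
    int_cpt (hM.meas.comp measurable_norm).aestronglyMeasurable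
      (fun ζ => hM.bdd _ (norm_nonneg _)) (R := R) fun ζ h => hM.supp _ h
  have h1 : ∀ ζ : W, e (⟪z, ζ⟫ : ℝ) * (M ‖ζ‖ * 𝓕 f ζ) =
      ∫ w : W, e (⟪z - w, ζ⟫ : ℝ) * M ‖ζ‖ * f w := by
    intro ζ
    rw [F_eq, ← mul_assoc, ← integral_const_mul]
    refine integral_congr_ae (Eventually.of_forall fun w => ?_)
    simp only
    have : e (⟪z - w, ζ⟫ : ℝ) = e (⟪z, ζ⟫ : ℝ) * e (-(⟪w, ζ⟫ : ℝ)) := by
      rw [← e_add, inner_sub_left, sub_eq_add_neg]
    rw [this]
    ring
  simp_rw [h1]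
  rw [integral_integral_swap]
  · refine integral_congr_ae (Eventually.of_forall fun w => ?_)
    simp only
    rw [integral_mul_const]
  · have h2 : Integrable (fun q : W × W => M ‖q.1‖ * f q.2) := hMi.mul_prod hf
    have h3 : (Function.uncurry fun (ζ w : W) => e (⟪z - w, ζ⟫ : ℝ) * M ‖ζ‖ * f w) =
        fun q : W × W => e (⟪z - q.2, q.1⟫ : ℝ) * (M ‖q.1‖ * f q.2) := by
      funext q
      simp only [Function.uncurry]
      ring
    rw [h3]
    refine h2.bdd_mul (c := 1) ?_ ?_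
    · exact (measurable_e.comp (by fun_prop)).aestronglyMeasurable
    · exact Eventually.of_forall fun ζ => (norm_e _).le

end

/-- isometries -/
theorem F_isom {W' : Type*} [NormedAddCommGroup W'] [InnerProductSpace ℝ W']
    [FiniteDimensional ℝ W'] [MeasurableSpace W'] [BorelSpace W'] (U : W ≃ₗᵢ[ℝ] W')
    (f : W' → ℂ) (ζ : W) : 𝓕 (fun w => f (U w)) ζ = 𝓕 f (U ζ) := by
  rw [F_eq, F_eq]
  rw [← U.measurePreserving.integral_comp U.toHomeomorph.measurableEmbedding]
  refine integral_congr_ae (Eventually.of_forall fun w => ?_)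
  simp only
  rw [U.inner_map_map]

theorem TM_isom {W' : Type*} [NormedAddCommGroup W'] [InnerProductSpace ℝ W']
    [FiniteDimensional ℝ W'] [MeasurableSpace W'] [BorelSpace W'] (U : W ≃ₗᵢ[ℝ] W')
    (M : ℝ → ℂ) (f : W' → ℂ) (z : W) : TM M (fun w => f (U w)) z = TM M f (U z) := by
  unfold TM
  rw [← U.measurePreserving.integral_comp U.toHomeomorph.measurableEmbedding]
  refine integral_congr_ae (Eventually.of_forall fun w => ?_)
  simp only
  rw [U.inner_map_map, U.norm_map, F_isom]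

/-- translations -/
theorem TM_trans (M : ℝ → ℂ) (f : W → ℂ) (c z : W) :
    TM M (fun w => f (w - c)) z = TM M f (z - c) := by
  unfold TM
  refine integral_congr_ae (Eventually.of_forall fun ζ => ?_)
  simp only
  have h : 𝓕 (fun w => f (w - c)) ζ = e (-(⟪c, ζ⟫ : ℝ)) * 𝓕 f ζ := by
    rw [F_eq, F_eq, ← integral_const_mul,
      ← integral_sub_right_eq_self (fun w => e (-(⟪c, ζ⟫ : ℝ)) * (e (-(⟪w, ζ⟫ : ℝ)) * f w)) c]
    refine integral_congr_ae (Eventually.of_forall fun w => ?_)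
    simp only
    rw [← mul_assoc, ← e_add]
    congr 2
    rw [inner_sub_left]
    ring
  rw [h]
  have h2 : e (⟪z - c, ζ⟫ : ℝ) = e (⟪z, ζ⟫ : ℝ) * e (-(⟪c, ζ⟫ : ℝ)) := by
    rw [← e_add, inner_sub_left, sub_eq_add_neg]
  rw [h2]
  ring

/-- joint measurability -/
theorem TM_meas {M : ℝ → ℝ → ℂ} (hM : Measurable (Function.uncurry M)) {f : W → ℂ}
    (hf : Integrable f) : Measurable (fun q : ℝ × W => TM (M q.1) f q.2) := by
  have h1 : StronglyMeasurable (fun q : (ℝ × W) × W =>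
      e (⟪q.1.2, q.2⟫ : ℝ) * (M q.1.1 ‖q.2‖ * 𝓕 f q.2)) := by
    apply Measurable.stronglyMeasurable
    refine Measurable.mul (measurable_e.comp (by fun_prop)) (Measurable.mul
      ?_ ((cont_F hf).measurable.comp measurable_snd))
    exact hM.comp (f := fun q : (ℝ × W) × W => (q.1.1, ‖q.2‖)) (by fun_prop)
  exact (h1.integral_prod_right (ν := volume)).measurable

end Pool.Agent.Helper66K9.LS
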