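import Pool.Agent.Helper66K9.LS.A2
set_option autoImplicit false

/-! # Product weights -/

namespace Pool.Agent.Helper66K9.LS

open MeasureTheory Set Filter
open scoped ENNReal FourierTransform RealInnerProductSpace Topology
open Pool.Agent.TH280.LS

theorem A_iota (hDUAL : S_DUAL) (hW : S_W) {ι : Type} [Fintype ι] (hι : 2 ≤ Fintype.card ι)
    (i : ι) (R0 : ℝ) (hR0 : 0 ≤ R0) : ∃ C : ℝ, 0 < C ∧ ∀ (N A : ℝ) (Ψ : ℝ → ℝ), 1 ≤ N →
    Sym N A Ψ → ∀ V : EuclideanSpace ℝ ι → ℂ, Integrable V → Measurable V →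
    (∀ w, R0 < |w i| → V w = 0) →
    ∫⁻ t in Icc (-2 : ℝ) 2, ∫⁻ z, ENNReal.ofReal (om N (z i)) * ‖TM (Mt Ψ t) V z‖ₑ ^ 2 ≤
      ENNReal.ofReal (C * A ^ 2 * (1 + Real.log N) ^ 2) *
        ∫⁻ z, ENNReal.ofReal (om N (z i)) * ‖V z‖ₑ ^ 2 := by
  obtain ⟨m, hm⟩ : ∃ m, Fintype.card ι = m + 1 := ⟨Fintype.card ι - 1, by omega⟩
  set σ : ι ≃ Fin (m + 1) := Fintype.equivFinOfCardEq hm
  obtain ⟨C, hC, h⟩ := A_coord hDUAL hW m (by omega) (σ i) R0 hR0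
  refine ⟨C, hC, ?_⟩
  intro N A Ψ hN hS V hV hVm hVs
  set U : EuclideanSpace ℝ ι ≃ₗᵢ[ℝ] EuclideanSpace ℝ (Fin (m + 1)) :=
    LinearIsometryEquiv.piLpCongrLeft 2 ℝ ℝ σ with hU
  have hUi : ∀ z : EuclideanSpace ℝ ι, (U z) (σ i) = z i := by
    intro z
    rw [hU, LinearIsometryEquiv.piLpCongrLeft_apply]
    simp
  have hUs : ∀ z : EuclideanSpace ℝ (Fin (m + 1)), (U.symm z) i = z (σ i) := by
    intro z
    rw [← hUi, LinearIsometryEquiv.apply_symm_apply]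
  set f : EuclideanSpace ℝ (Fin (m + 1)) → ℂ := fun w => V (U.symm w) with hf
  have hVf : V = fun w => f (U w) := by
    funext w
    simp only [hf, LinearIsometryEquiv.symm_apply_apply]
  have hmps := U.symm.measurePreserving
  have hfi : Integrable f :=
    (hmps.integrable_comp_emb U.symm.toHomeomorph.measurableEmbedding).2 hV
  have hfm : Measurable f := hVm.comp U.symm.continuous.measurable
  have key := h N A Ψ hN hS f hfi hfm (fun w hw => hVs _ (by rw [hUs]; exact hw))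
  have e1 : ∀ t, ∫⁻ z, ENNReal.ofReal (om N (z i)) * ‖TM (Mt Ψ t) V z‖ₑ ^ 2 =
      ∫⁻ z, ENNReal.ofReal (om N (z (σ i))) * ‖TM (Mt Ψ t) f z‖ₑ ^ 2 := by
    intro t
    rw [← U.measurePreserving.lintegral_comp_emb U.toHomeomorph.measurableEmbedding
      (fun z => ENNReal.ofReal (om N (z (σ i))) * ‖TM (Mt Ψ t) f z‖ₑ ^ 2)]
    refine lintegral_congr fun z => ?_
    rw [hUi, ← TM_isom, ← hVf]
  have e2 : ∫⁻ z, ENNReal.ofReal (om N (z i)) * ‖V z‖ₑ ^ 2 =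
      ∫⁻ z, ENNReal.ofReal (om N (z (σ i))) * ‖f z‖ₑ ^ 2 := by
    rw [← U.measurePreserving.lintegral_comp_emb U.toHomeomorph.measurableEmbedding
      (fun z => ENNReal.ofReal (om N (z (σ i))) * ‖f z‖ₑ ^ 2)]
    refine lintegral_congr fun z => ?_
    rw [hUi]
    simp only [hf, LinearIsometryEquiv.symm_apply_apply]
  simp_rw [e1]
  rw [e2]
  exact key

/-- dyadic size of the weight -/
noncomputable def lam (R0 N x : ℝ) : ℕ := Nat.log 2 ⌊(1 + R0) * om N x⌋₊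

theorem lam_meas (R0 N : ℝ) : Measurable (lam R0 N) := by
  unfold lam
  exact (measurable_from_top (f := Nat.log 2)).comp
    (Nat.measurable_floor.comp ((om_meas N).const_mul _))

theorem lam_le {R0 N : ℝ} (hR0 : 0 ≤ R0) (hN : 1 ≤ N) (x : ℝ) :
    lam R0 N x ≤ Nat.log 2 ⌊(1 + R0) * N⌋₊ := by
  unfold lam
  apply Nat.log_mono_right
  apply Nat.floor_le_floor
  have := om_le hN x
  gcongr

theorem lam_spec {R0 N x : ℝ} (_ : 0 ≤ R0) (hN : 1 ≤ N) (hx : |x| ≤ R0) :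
    (2 : ℝ) ^ lam R0 N x ≤ (1 + R0) * om N x ∧ (1 + R0) * om N x < 2 ^ (lam R0 N x + 1) := by
  have h1 : 1 ≤ (1 + R0) * om N x := by
    unfold om
    rw [mul_one_div, le_div_iff₀ (by positivity)]
    have : 1 / N ≤ 1 := by rw [div_le_one (by linarith)]; exact hN
    linarith
  have h2 : ⌊(1 + R0) * om N x⌋₊ ≠ 0 := by
    have := (Nat.one_le_floor_iff _).2 h1
    omega
  constructor
  · have h3 := Nat.pow_log_le_self 2 h2
    calc (2 : ℝ) ^ lam R0 N x = ((2 ^ lam R0 N x : ℕ) : ℝ) := by push_cast; rfl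
      _ ≤ (⌊(1 + R0) * om N x⌋₊ : ℝ) := by exact_mod_cast h3
      _ ≤ _ := Nat.floor_le (by linarith)
  · have h3 := Nat.lt_pow_succ_log_self (b := 2) (by norm_num) ⌊(1 + R0) * om N x⌋₊
    have h4 := Nat.lt_floor_add_one ((1 + R0) * om N x)
    have h5 : (⌊(1 + R0) * om N x⌋₊ : ℝ) + 1 ≤ 2 ^ (lam R0 N x + 1) := by
      have : ⌊(1 + R0) * om N x⌋₊ + 1 ≤ 2 ^ (lam R0 N x + 1) := h3
      exact_mod_cast this
    linarith

/-- the number of dyadic pieces -/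
theorem count_le (R0 : ℝ) (hR0 : 0 ≤ R0) (k : ℕ) (ε : ℝ) (hε : 0 < ε) : ∃ C : ℝ, 0 < C ∧
    ∀ N : ℝ, 1 ≤ N → (((Nat.log 2 ⌊(1 + R0) * N⌋₊ + 1 : ℕ) : ℝ)) ^ k *
      (1 + Real.log N) ^ 2 ≤ C * N ^ ε := by
  set δ : ℝ := ε / (2 * (k + 1)) with hδ
  have hδ0 : 0 < δ := by positivity
  set c : ℝ := max 1 (1 / (δ * Real.log 2)) with hc
  have hl2 : 0 < Real.log 2 := Real.log_pos (by norm_num)
  have hc1 : 1 ≤ c := le_max_left _ _
  have hc2 : 1 / (δ * Real.log 2) ≤ c := le_max_right _ _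
  set ε' : ℝ := min (ε / 4) 1 with hε'
  have hε'0 : 0 < ε' := by positivity
  refine ⟨(c * (1 + R0) ^ δ) ^ k * (1 / ε') ^ 2, by positivity, ?_⟩
  intro N hN
  have hN0 : 0 < N := by linarith
  set L : ℕ := Nat.log 2 ⌊(1 + R0) * N⌋₊ with hL
  have h1 : 1 ≤ (1 + R0) * N := by nlinarith
  have h2 : ⌊(1 + R0) * N⌋₊ ≠ 0 := by
    have := (Nat.one_le_floor_iff _).2 h1
    omega
  have h3 : (2 : ℝ) ^ L ≤ (1 + R0) * N := by
    have h3 := Nat.pow_log_le_self 2 h2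
    calc (2 : ℝ) ^ L = ((2 ^ L : ℕ) : ℝ) := by push_cast; rfl
      _ ≤ (⌊(1 + R0) * N⌋₊ : ℝ) := by exact_mod_cast h3
      _ ≤ _ := Nat.floor_le (by linarith)
  have h4 : (L : ℝ) + 1 ≤ c * ((1 + R0) ^ δ * N ^ δ) := by
    have h5 : ((2 : ℝ) ^ L) ^ δ ≤ ((1 + R0) * N) ^ δ := Real.rpow_le_rpow (by positivity) h3 hδ0.le
    rw [Real.mul_rpow (by positivity) hN0.le] at h5
    have h6 : ((2 : ℝ) ^ L) ^ δ = Real.exp (L * (δ * Real.log 2)) := by
      rw [← Real.rpow_natCast, ← Real.rpow_mul (by norm_num), Real.rpow_def_of_pos (by norm_num)]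
      congr 1
      ring
    have h7 := Real.add_one_le_exp (L * (δ * Real.log 2))
    have hx : 0 < δ * Real.log 2 := by positivity
    have h8 : (L : ℝ) + 1 ≤ c * (L * (δ * Real.log 2) + 1) := by
      have h9 : (L : ℝ) ≤ c * (L * (δ * Real.log 2)) := by
        have h10 : 1 ≤ c * (δ * Real.log 2) := by
          rwa [div_le_iff₀ hx] at hc2
        have hL0 : (0 : ℝ) ≤ L := Nat.cast_nonneg L
        nlinarith
      nlinarith
    calc (L : ℝ) + 1 ≤ c * (L * (δ * Real.log 2) + 1) := h8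
      _ ≤ c * ((2 : ℝ) ^ L) ^ δ := by rw [h6]; gcongr
      _ ≤ _ := by gcongr
  have h5 : 1 + Real.log N ≤ 1 / ε' * N ^ ε' := by
    have h6 : ε' * Real.log N ≤ N ^ ε' - 1 := by
      rw [← Real.log_rpow hN0]
      exact Real.log_le_sub_one_of_pos (by positivity)
    have h7 : ε' ≤ 1 := min_le_right _ _
    rw [one_div, inv_mul_eq_div, le_div_iff₀ hε'0]
    nlinarith
  have hlog : 0 ≤ Real.log N := Real.log_nonneg hN
  have h6 : (((L + 1 : ℕ) : ℝ)) = (L : ℝ) + 1 := by push_cast; ring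
  rw [h6]
  calc ((L : ℝ) + 1) ^ k * (1 + Real.log N) ^ 2
      ≤ (c * ((1 + R0) ^ δ * N ^ δ)) ^ k * (1 / ε' * N ^ ε') ^ 2 := by gcongr
    _ = ((c * (1 + R0) ^ δ) ^ k * (1 / ε') ^ 2) * (N ^ (δ * k) * N ^ (ε' * 2)) := by
        rw [Real.rpow_mul hN0.le, Real.rpow_mul hN0.le, Real.rpow_natCast, Real.rpow_two]
        ring
    _ ≤ ((c * (1 + R0) ^ δ) ^ k * (1 / ε') ^ 2) * N ^ ε := by
        gcongr
        rw [← Real.rpow_add hN0]
        apply Real.rpow_le_rpow_of_exponent_le hN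
        have h8 : ε' ≤ ε / 4 := min_le_left _ _
        have h9 : δ * k ≤ ε / 2 := by
          rw [hδ]
          have hk : (0 : ℝ) ≤ k := Nat.cast_nonneg k
          rw [div_mul_eq_mul_div, div_le_div_iff₀ (by positivity) (by norm_num)]
          nlinarith
        linarith

/-- the product weight -/
noncomputable def Om {ι : Type} {k : ℕ} (J : Fin k → ι) (θ N : ℝ) (w : EuclideanSpace ℝ ι) :
    ℝ≥0∞ := ∏ j : Fin k, ENNReal.ofReal (om N (w (J j))) ^ θ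

theorem Om_meas {ι : Type} [Fintype ι] {k : ℕ} (J : Fin k → ι) (θ N : ℝ) :
    Measurable (Om J θ N) := by
  unfold Om
  refine Finset.measurable_prod _ fun j _ => Measurable.pow_const ?_ _
  exact ((om_meas N).comp (by fun_prop)).ennreal_ofReal

/-- Hölder's inequality on one cell -/
theorem holder_cell {X : Type*} [MeasurableSpace X] {μ : Measure X} {k : ℕ} {θ : ℝ} (hθ0 : 0 ≤ θ)
    (hθ : k * θ ≤ 1) {G : X → ℝ≥0∞} (hG : Measurable G) {o : Fin k → X → ℝ≥0∞}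
    (ho : ∀ j, Measurable (o j)) {B S : ℝ≥0∞} {c : Fin k → ℝ≥0∞} (h0 : ∫⁻ x, G x ∂μ ≤ B * S)
    (h1 : ∀ j, ∫⁻ x, o j x * G x ∂μ ≤ c j * (B * S)) :
    ∫⁻ x, (∏ j, o j x ^ θ) * G x ∂μ ≤ (∏ j, c j ^ θ) * (B * S) := by
  have hq : 0 ≤ 1 - k * θ := by linarith
  have hk0 : 0 ≤ (k : ℝ) * θ := by positivity
  have hh := ENNReal.lintegral_mul_prod_norm_pow_le (μ := μ) (Finset.univ : Finset (Fin k))
    (g := G) (f := fun j x => o j x * G x) hG.aemeasurable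
    (fun j _ => ((ho j).mul hG).aemeasurable) (1 - k * θ) (p := fun _ => θ)
    (by simp) hq (fun _ _ => hθ0)
  have hpt : ∀ (g : ℝ≥0∞) (f : Fin k → ℝ≥0∞), g ^ (1 - k * θ) * ∏ j : Fin k, (f j * g) ^ θ =
      (∏ j, f j ^ θ) * g := by
    intro g f
    have h1 : ∏ j : Fin k, (f j * g) ^ θ = (∏ j, f j ^ θ) * g ^ (k * θ) := by
      simp_rw [ENNReal.mul_rpow_of_nonneg _ _ hθ0]
      rw [Finset.prod_mul_distrib]
      congr 1
      rw [Finset.prod_const, Finset.card_univ, Fintype.card_fin, ← ENNReal.rpow_natCast,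
        ← ENNReal.rpow_mul]
      congr 1
      ring
    rw [h1, mul_left_comm, ← ENNReal.rpow_add_of_nonneg _ _ hq hk0, sub_add_cancel,
      ENNReal.rpow_one]
  calc ∫⁻ x, (∏ j, o j x ^ θ) * G x ∂μ
      = ∫⁻ x, G x ^ (1 - k * θ) * ∏ j : Fin k, (o j x * G x) ^ θ ∂μ :=
        lintegral_congr fun x => (hpt (G x) (fun j => o j x)).symm
    _ ≤ _ := hh
    _ ≤ (B * S) ^ (1 - k * θ) * ∏ j : Fin k, (c j * (B * S)) ^ θ :=
        mul_le_mul' (ENNReal.rpow_le_rpow h0 hq)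
          (Finset.prod_le_prod' fun j _ => ENNReal.rpow_le_rpow (h1 j) hθ0)
    _ = _ := hpt (B * S) c

/-- the coordinate estimate, as a property -/
def CoordEst {ι : Type} [Fintype ι] (R0 C : ℝ) (i : ι) : Prop :=
  ∀ (N A : ℝ) (Ψ : ℝ → ℝ), 1 ≤ N →
    Sym N A Ψ → ∀ V : EuclideanSpace ℝ ι → ℂ, Integrable V → Measurable V →
    (∀ w, R0 < |w i| → V w = 0) →
    ∫⁻ t in Icc (-2 : ℝ) 2, ∫⁻ z, ENNReal.ofReal (om N (z i)) * ‖TM (Mt Ψ t) V z‖ₑ ^ 2 ≤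
      ENNReal.ofReal (C * A ^ 2 * (1 + Real.log N) ^ 2) *
        ∫⁻ z, ENNReal.ofReal (om N (z i)) * ‖V z‖ₑ ^ 2

theorem P_cell {ι : Type} [Fintype ι] {k : ℕ} (J : Fin k → ι) {θ : ℝ} (hθ0 : 0 ≤ θ)
    (hθ : k * θ ≤ 1) {R0 : ℝ} (hR0 : 0 ≤ R0) {C0 : ℝ} (hC4 : 4 ≤ C0)
    (hC : ∀ j, CoordEst R0 C0 (J j)) {N A : ℝ} {Ψ : ℝ → ℝ} (hN : 1 ≤ N) (h : Sym N A Ψ)
    (l : Fin k → ℕ) {V : EuclideanSpace ℝ ι → ℂ} (hV : Integrable V) (hVm : Measurable V)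
    (hVs : ∀ w, V w ≠ 0 → ‖w‖ ≤ R0 ∧ ∀ j, lam R0 N (w (J j)) = l j) :
    ∫⁻ t in Icc (-2 : ℝ) 2, ∫⁻ z, Om J θ N z * ‖TM (Mt Ψ t) V z‖ₑ ^ 2 ≤
      ENNReal.ofReal (2 * (C0 * A ^ 2 * (1 + Real.log N) ^ 2)) *
        ∫⁻ z, Om J θ N z * ‖V z‖ₑ ^ 2 := by
  have hA := h.nonneg
  have hN0 : 0 < N := by linarith
  have hlog : 0 ≤ Real.log N := Real.log_nonneg hN
  set B : ℝ := C0 * A ^ 2 * (1 + Real.log N) ^ 2 with hB
  have hB0 : 0 ≤ B := by positivity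
  set S : ℝ≥0∞ := ∫⁻ z, ‖V z‖ₑ ^ 2 with hS
  set c : Fin k → ℝ≥0∞ := fun j => ENNReal.ofReal (2 ^ (l j + 1) / (1 + R0)) with hc
  have hcoord : ∀ (w : EuclideanSpace ℝ ι) (j : Fin k), ‖w‖ ≤ R0 → |w (J j)| ≤ R0 := by
    intro w j hw
    have := PiLp.norm_apply_le (p := 2) w (J j)
    rw [Real.norm_eq_abs] at this
    exact this.trans hw
  have hTMm : Measurable (fun q : ℝ × EuclideanSpace ℝ ι => TM (Mt Ψ q.1) V q.2) :=
    TM_meas (Mt_meas h) hV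
  have hGm : Measurable (fun q : ℝ × EuclideanSpace ℝ ι => ‖TM (Mt Ψ q.1) V q.2‖ₑ ^ 2) :=
    hTMm.enorm.pow_const 2
  have hom : ∀ j, Measurable (fun q : ℝ × EuclideanSpace ℝ ι =>
      ENNReal.ofReal (om N (q.2 (J j)))) := fun j =>
    ((om_meas N).comp (by fun_prop)).ennreal_ofReal
  have i0 : ∫⁻ q, ‖TM (Mt Ψ q.1) V q.2‖ₑ ^ 2 ∂((volume.restrict (Icc (-2 : ℝ) 2)).prod volume) ≤
      ENNReal.ofReal B * S := by
    rw [lintegral_prod _ hGm.aemeasurable]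
    calc ∫⁻ t in Icc (-2 : ℝ) 2, ∫⁻ z, ‖TM (Mt Ψ t) V z‖ₑ ^ 2 ≤
          ∫⁻ t in Icc (-2 : ℝ) 2, ENNReal.ofReal (A ^ 2) * S := by
          refine lintegral_mono fun t => ?_
          exact TM_L2 (Mt_mul hN h t) hV
      _ = ENNReal.ofReal (4 * A ^ 2) * S := by
          rw [lintegral_const, Measure.restrict_apply_univ, Real.volume_Icc, mul_comm,
            ← mul_assoc, ← ENNReal.ofReal_mul (by norm_num)]
          congr 2
          ring
      _ ≤ _ := by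
          refine mul_le_mul_left (ENNReal.ofReal_le_ofReal ?_) _
          rw [hB]
          have h1 : 1 ≤ (1 + Real.log N) ^ 2 := by nlinarith
          calc 4 * A ^ 2 = 4 * A ^ 2 * 1 := by ring
            _ ≤ C0 * A ^ 2 * (1 + Real.log N) ^ 2 := by gcongr
  have i1 : ∀ j, ∫⁻ q : ℝ × EuclideanSpace ℝ ι, ENNReal.ofReal (om N (q.2 (J j))) *
      ‖TM (Mt Ψ q.1) V q.2‖ₑ ^ 2 ∂((volume.restrict (Icc (-2 : ℝ) 2)).prod volume) ≤
      c j * (ENNReal.ofReal B * S) := by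
    intro j
    have hmm : Measurable (fun q : ℝ × EuclideanSpace ℝ ι =>
      ENNReal.ofReal (om N (q.2 (J j))) * ‖TM (Mt Ψ q.1) V q.2‖ₑ ^ 2) := (hom j).mul hGm
    rw [lintegral_prod _ hmm.aemeasurable]
    refine (hC j N A Ψ hN h V hV hVm ?_).trans ?_
    · intro w hw
      by_contra hc0
      have := hcoord w j (hVs w hc0).1
      linarith
    · rw [mul_left_comm]
      refine mul_le_mul_right ?_ _
      rw [hS, ← lintegral_const_mul' _ _ ENNReal.ofReal_ne_top]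
      refine lintegral_mono fun z => ?_
      by_cases hz : V z = 0
      · simp [hz]
      · refine mul_le_mul_left (ENNReal.ofReal_le_ofReal ?_) _
        obtain ⟨hz1, hz2⟩ := hVs z hz
        have h2 := (lam_spec hR0 hN (hcoord z j hz1)).2
        rw [hz2 j] at h2
        rw [le_div_iff₀ (by positivity), mul_comm]
        exact h2.le
  have hh := holder_cell (μ := (volume.restrict (Icc (-2 : ℝ) 2)).prod volume) hθ0 hθ hGm hom i0 i1
  have hOm := Om_meas J θ N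
  have hmm2 : Measurable (fun q : ℝ × EuclideanSpace ℝ ι =>
      Om J θ N q.2 * ‖TM (Mt Ψ q.1) V q.2‖ₑ ^ 2) := (hOm.comp measurable_snd).mul hGm
  have hlhs : ∫⁻ t in Icc (-2 : ℝ) 2, ∫⁻ z, Om J θ N z * ‖TM (Mt Ψ t) V z‖ₑ ^ 2 =
      ∫⁻ q : ℝ × EuclideanSpace ℝ ι, Om J θ N q.2 * ‖TM (Mt Ψ q.1) V q.2‖ₑ ^ 2
        ∂((volume.restrict (Icc (-2 : ℝ) 2)).prod volume) := by
    rw [lintegral_prod _ hmm2.aemeasurable]
  rw [hlhs]
  refine hh.trans ?_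
  rw [ENNReal.ofReal_mul (by norm_num : (0 : ℝ) ≤ 2), mul_comm (ENNReal.ofReal 2), mul_assoc,
    mul_left_comm]
  refine mul_le_mul_right ?_ _
  have hct : (∏ j, c j ^ θ) ≠ ⊤ := by
    refine ENNReal.prod_ne_top fun j _ => ?_
    exact ENNReal.rpow_ne_top_of_nonneg hθ0 ENNReal.ofReal_ne_top
  rw [hS, ← lintegral_const_mul' _ _ hct, ← lintegral_const_mul' _ _ ENNReal.ofReal_ne_top]
  refine lintegral_mono fun z => ?_
  by_cases hz : V z = 0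
  · simp [hz]
  rw [← mul_assoc]
  refine mul_le_mul_left ?_ _
  obtain ⟨hz1, hz2⟩ := hVs z hz
  unfold Om
  have h4 : ∀ j, c j ^ θ ≤ ENNReal.ofReal 2 ^ θ * ENNReal.ofReal (om N (z (J j))) ^ θ := by
    intro j
    rw [← ENNReal.mul_rpow_of_nonneg _ _ hθ0, ← ENNReal.ofReal_mul (by norm_num)]
    refine ENNReal.rpow_le_rpow (ENNReal.ofReal_le_ofReal ?_) hθ0
    have h2 := (lam_spec hR0 hN (hcoord z j hz1)).1
    rw [hz2 j] at h2
    rw [div_le_iff₀ (by positivity), pow_succ]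
    linarith
  calc ∏ j : Fin k, c j ^ θ
      ≤ ∏ j : Fin k, ENNReal.ofReal 2 ^ θ * ENNReal.ofReal (om N (z (J j))) ^ θ :=
        Finset.prod_le_prod' fun j _ => h4 j
    _ = ENNReal.ofReal 2 ^ (k * θ) * ∏ j : Fin k,
          ENNReal.ofReal (om N (z (J j))) ^ θ := by
        rw [Finset.prod_mul_distrib]
        congr 1
        rw [Finset.prod_const, Finset.card_univ, Fintype.card_fin,
          ← ENNReal.rpow_natCast, ← ENNReal.rpow_mul]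
        congr 1
        ring
    _ ≤ ENNReal.ofReal 2 * ∏ j : Fin k,
          ENNReal.ofReal (om N (z (J j))) ^ θ := by
        refine mul_le_mul_left ?_ _
        calc ENNReal.ofReal 2 ^ (k * θ) ≤ ENNReal.ofReal 2 ^ (1 : ℝ) :=
              ENNReal.rpow_le_rpow_of_exponent_le (by norm_num) hθ
          _ = _ := ENNReal.rpow_one _

/-- summation over finitely many cells -/
theorem sum_cells {W : Type*} [NormedAddCommGroup W] [InnerProductSpace ℝ W]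
    [FiniteDimensional ℝ W] [MeasurableSpace W] [BorelSpace W]
    {N A : ℝ} {Ψ : ℝ → ℝ} (hN : 1 ≤ N) (h : Sym N A Ψ) {Λ : Type} [Fintype Λ] (lof : W → Λ)
    (hcm : ∀ l, MeasurableSet {w | lof w = l}) {O : W → ℝ≥0∞} (hO : Measurable O)
    {V : W → ℂ} (hV : Integrable V) (hVm : Measurable V) (B : ℝ≥0∞)
    (hkey : ∀ l, ∫⁻ t in Icc (-2 : ℝ) 2, ∫⁻ z, O z *
      ‖TM (Mt Ψ t) ({w | lof w = l}.indicator V) z‖ₑ ^ 2 ≤
      B * ∫⁻ z, O z * ‖{w | lof w = l}.indicator V z‖ₑ ^ 2) :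
    ∫⁻ t in Icc (-2 : ℝ) 2, ∫⁻ z, O z * ‖TM (Mt Ψ t) V z‖ₑ ^ 2 ≤
      ENNReal.ofReal (Fintype.card Λ) * (B * ∫⁻ z, O z * ‖V z‖ₑ ^ 2) := by
  classical
  obtain ⟨Vl, hVl⟩ : ∃ Vl : Λ → W → ℂ, Vl = fun l => {w | lof w = l}.indicator V := ⟨_, rfl⟩
  have hVli : ∀ l, Integrable (Vl l) := fun l => by rw [hVl]; exact hV.indicator (hcm l)
  have hVlm : ∀ l, Measurable (Vl l) := fun l => by rw [hVl]; exact hVm.indicator (hcm l)
  have hVl1 : ∀ w, Vl (lof w) w = V w := by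
    intro w
    rw [hVl]
    exact indicator_of_mem (show w ∈ {w' | lof w' = lof w} from rfl) V
  have hVl0 : ∀ w l, l ≠ lof w → Vl l w = 0 := by
    intro w l hl
    rw [hVl]
    exact indicator_of_notMem (fun hc => hl hc.symm) V
  have hsum : ∀ w, V w = ∑ l, Vl l w := by
    intro w
    rw [Finset.sum_eq_single (lof w)]
    · exact (hVl1 w).symm
    · intro l _ hl
      exact hVl0 w l hl
    · intro hc
      exact absurd (Finset.mem_univ _) hc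
  have hsum2 : ∀ w, ‖V w‖ₑ ^ 2 = ∑ l, ‖Vl l w‖ₑ ^ 2 := by
    intro w
    rw [Finset.sum_eq_single (lof w)]
    · rw [hVl1 w]
    · intro l _ hl
      rw [hVl0 w l hl]
      simp
    · intro hc
      exact absurd (Finset.mem_univ _) hc
  have hkey' : ∀ l, ∫⁻ t in Icc (-2 : ℝ) 2, ∫⁻ z, O z * ‖TM (Mt Ψ t) (Vl l) z‖ₑ ^ 2 ≤
      B * ∫⁻ z, O z * ‖Vl l z‖ₑ ^ 2 := by
    intro l
    rw [hVl]
    exact hkey l
  clear hkey hVl hVl1 hVl0 hcm
  have hTMm : ∀ l, Measurable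
      (fun q : ℝ × W => TM (Mt Ψ q.1) (Vl l) q.2) := fun l =>
    TM_meas (Mt_meas h) (hVli l)
  obtain ⟨n, hn⟩ : ∃ n : ℝ, n = Fintype.card Λ := ⟨_, rfl⟩
  have hn0 : 0 ≤ n := by rw [hn]; positivity
  have hsq : ∀ t z, ‖TM (Mt Ψ t) V z‖ₑ ^ 2 ≤
      ENNReal.ofReal n * ∑ l, ‖TM (Mt Ψ t) (Vl l) z‖ₑ ^ 2 := by
    intro t z
    have h1 : TM (Mt Ψ t) V z = ∑ l, TM (Mt Ψ t) (Vl l) z := by
      have h2 : V = fun w => ∑ l, Vl l w := funext hsum
      conv_lhs => rw [h2]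
      exact TM_sum (Mt_mul hN h t) Finset.univ Vl hVli z
    have h3 : ‖TM (Mt Ψ t) V z‖ ^ 2 ≤ n * ∑ l, ‖TM (Mt Ψ t) (Vl l) z‖ ^ 2 := by
      rw [h1, hn]
      calc ‖∑ l, TM (Mt Ψ t) (Vl l) z‖ ^ 2 ≤ (∑ l, ‖TM (Mt Ψ t) (Vl l) z‖) ^ 2 := by
            gcongr
            exact norm_sum_le _ _
        _ ≤ _ := sq_sum_le_card_mul_sum_sq
    rw [← ofReal_norm, ← ENNReal.ofReal_pow (norm_nonneg _)]
    refine (ENNReal.ofReal_le_ofReal h3).trans (le_of_eq ?_)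
    rw [ENNReal.ofReal_mul hn0, ENNReal.ofReal_sum_of_nonneg (fun l _ => sq_nonneg _)]
    congr 1
    refine Finset.sum_congr rfl fun l _ => ?_
    rw [← ofReal_norm, ENNReal.ofReal_pow (norm_nonneg _)]
  rw [← hn]
  have hml : ∀ l, Measurable (fun q : ℝ × W =>
      O q.2 * ‖TM (Mt Ψ q.1) (Vl l) q.2‖ₑ ^ 2) := fun l =>
    (hO.comp measurable_snd).mul ((hTMm l).enorm.pow_const 2)
  have hml2 : ∀ t l, Measurable (fun z : W =>
      O z * ‖TM (Mt Ψ t) (Vl l) z‖ₑ ^ 2) := fun t l =>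
    (hml l).comp measurable_prodMk_left
  have hml3 : ∀ l, Measurable (fun t : ℝ => ∫⁻ z : W,
      O z * ‖TM (Mt Ψ t) (Vl l) z‖ₑ ^ 2) := fun l =>
    Measurable.lintegral_prod_right' (hml l)
  have hml4 : ∀ l, Measurable (fun z : W => O z * ‖Vl l z‖ₑ ^ 2) :=
    fun l => hO.mul ((hVlm l).enorm.pow_const 2)
  calc ∫⁻ t in Icc (-2 : ℝ) 2, ∫⁻ z, O z * ‖TM (Mt Ψ t) V z‖ₑ ^ 2
      ≤ ∫⁻ t in Icc (-2 : ℝ) 2, ∫⁻ z, ENNReal.ofReal n *
          ∑ l, O z * ‖TM (Mt Ψ t) (Vl l) z‖ₑ ^ 2 := by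
        refine lintegral_mono fun t => lintegral_mono fun z => ?_
        refine (mul_le_mul_right (hsq t z) _).trans (le_of_eq ?_)
        rw [mul_left_comm, Finset.mul_sum]
    _ = ENNReal.ofReal n * ∑ l, ∫⁻ t in Icc (-2 : ℝ) 2, ∫⁻ z,
          O z * ‖TM (Mt Ψ t) (Vl l) z‖ₑ ^ 2 := by
        rw [← lintegral_finsetSum _ fun l _ => hml3 l,
          ← lintegral_const_mul' _ _ ENNReal.ofReal_ne_top]
        refine lintegral_congr fun t => ?_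
        rw [lintegral_const_mul' _ _ ENNReal.ofReal_ne_top,
          lintegral_finsetSum _ fun l _ => hml2 t l]
    _ ≤ ENNReal.ofReal n * ∑ l, B * ∫⁻ z, O z * ‖Vl l z‖ₑ ^ 2 :=
        mul_le_mul_right (Finset.sum_le_sum fun l _ => hkey' l) _
    _ = ENNReal.ofReal n * (B * ∫⁻ z, O z * ‖V z‖ₑ ^ 2) := by
        rw [← Finset.mul_sum]
        congr 2
        rw [← lintegral_finsetSum _ fun l _ => hml4 l]
        refine lintegral_congr fun z => ?_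
        rw [hsum2, Finset.mul_sum]

theorem P_weight (hDUAL : S_DUAL) (hW : S_W) {ι : Type} [Fintype ι] (hι : 2 ≤ Fintype.card ι)
    {k : ℕ} (J : Fin k → ι) (θ : ℝ) (hθ0 : 0 ≤ θ) (hθ : k * θ ≤ 1) (R0 : ℝ) (hR0 : 0 ≤ R0)
    (ε : ℝ) (hε : 0 < ε) : ∃ C : ℝ, 0 < C ∧ ∀ (N A : ℝ) (Ψ : ℝ → ℝ), 1 ≤ N →
    Sym N A Ψ → ∀ V : EuclideanSpace ℝ ι → ℂ, Integrable V → Measurable V →
    (∀ w, R0 < ‖w‖ → V w = 0) →
    ∫⁻ t in Icc (-2 : ℝ) 2, ∫⁻ z, Om J θ N z * ‖TM (Mt Ψ t) V z‖ₑ ^ 2 ≤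
      ENNReal.ofReal (C * A ^ 2 * N ^ ε) * ∫⁻ z, Om J θ N z * ‖V z‖ₑ ^ 2 := by
  choose CA hCA hA0 using fun j => A_iota hDUAL hW hι (J j) R0 hR0
  obtain ⟨Cn, hCn, hcount⟩ := count_le R0 hR0 k ε hε
  obtain ⟨C0, hC4, hCest⟩ : ∃ C0 : ℝ, 4 ≤ C0 ∧ ∀ j, CoordEst R0 C0 (J j) := by
    refine ⟨∑ j, CA j + 4, ?_, ?_⟩
    · have : 0 ≤ ∑ j, CA j := Finset.sum_nonneg fun j _ => (hCA j).le
      linarith
    · intro j N A Ψ hN h V hV hVm hVs
      refine (hA0 j N A Ψ hN h V hV hVm hVs).trans ?_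
      refine mul_le_mul_left (ENNReal.ofReal_le_ofReal ?_) _
      have := Finset.single_le_sum (f := CA) (fun j _ => (hCA j).le) (Finset.mem_univ j)
      have hlog : 0 ≤ Real.log N := Real.log_nonneg hN
      have h2 : CA j ≤ ∑ j, CA j + 4 := by linarith
      gcongr
  have hC0p : 0 < C0 := by linarith
  refine ⟨2 * C0 * Cn, by positivity, ?_⟩
  intro N A Ψ hN h V hV hVm hVs
  have hA := h.nonneg
  obtain ⟨L, hL⟩ : ∃ L : ℕ, L = Nat.log 2 ⌊(1 + R0) * N⌋₊ := ⟨_, rfl⟩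
  have hle : ∀ x, lam R0 N x < L + 1 := by
    intro x
    rw [hL]
    exact Nat.lt_succ_of_le (lam_le hR0 hN x)
  -- the pieces
  obtain ⟨lof, hlof⟩ : ∃ lof : EuclideanSpace ℝ ι → (Fin k → Fin (L + 1)),
      ∀ w j, (lof w j : ℕ) = lam R0 N (w (J j)) := ⟨fun w j => ⟨lam R0 N (w (J j)), hle _⟩,
        fun w j => rfl⟩
  have hcm : ∀ l, MeasurableSet {w | lof w = l} := by
    intro l
    have : {w : EuclideanSpace ℝ ι | lof w = l} =
        ⋂ j, {w : EuclideanSpace ℝ ι | lam R0 N (w (J j)) = l j} := by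
      ext w
      simp only [mem_ofPred_eq, mem_iInter]
      constructor
      · intro hl j
        rw [← hl, hlof]
      · intro hl
        funext j
        apply Fin.ext
        rw [hlof]
        exact hl j
    rw [this]
    refine MeasurableSet.iInter fun j => ?_
    have hm : Measurable (fun w : EuclideanSpace ℝ ι => lam R0 N (w (J j))) :=
      (lam_meas R0 N).comp (by fun_prop)
    exact hm (measurableSet_singleton _)
  have hfin := sum_cells hN h lof hcm (Om_meas J θ N) hV hVm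
    (ENNReal.ofReal (2 * (C0 * A ^ 2 * (1 + Real.log N) ^ 2))) (by
      intro l
      refine P_cell J hθ0 hθ hR0 hC4 hCest hN h (fun j => l j) (hV.indicator (hcm l))
        (hVm.indicator (hcm l)) ?_
      intro w hw
      have h1 : w ∈ {w | lof w = l} := by
        by_contra hc
        exact hw (indicator_of_notMem hc V)
      rw [indicator_of_mem h1] at hw
      refine ⟨?_, fun j => ?_⟩
      · by_contra hc
        exact hw (hVs w (not_le.1 hc))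
      · rw [← hlof]
        have h2 : lof w = l := h1
        rw [h2])
  refine hfin.trans ?_
  rw [← mul_assoc, ← ENNReal.ofReal_mul (by positivity)]
  refine mul_le_mul_left (ENNReal.ofReal_le_ofReal ?_) _
  have h9 := hcount N hN
  rw [← hL] at h9
  have hcard : (Fintype.card (Fin k → Fin (L + 1)) : ℝ) = ((L + 1 : ℕ) : ℝ) ^ k := by
    rw [Fintype.card_fun, Fintype.card_fin, Fintype.card_fin, Nat.cast_pow]
  rw [hcard]
  calc ((L + 1 : ℕ) : ℝ) ^ k * (2 * (C0 * A ^ 2 * (1 + Real.log N) ^ 2))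
      = 2 * C0 * A ^ 2 * (((L + 1 : ℕ) : ℝ) ^ k * (1 + Real.log N) ^ 2) := by ring
    _ ≤ 2 * C0 * A ^ 2 * (Cn * N ^ ε) := by gcongr
    _ = _ := by ring

end Pool.Agent.Helper66K9.LS
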