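import Pool.Agent.Helper66K9.LS.Blk
set_option autoImplicit false

/-! # Coordinates in blocks -/

namespace Pool.Agent.Helper66K9.LS

open MeasureTheory Set Filter
open scoped ENNReal FourierTransform RealInnerProductSpace Topology
open Pool.Agent.TH280.LS (e norm_e e_add measurable_e continuous_e plancherel e_conj)
open Pool.Agent.H789R2.FR (sg)

/-- the space with `k` blocks of dimension `3` -/
abbrev Wd (k n : ℕ) : Type := EuclideanSpace ℝ ((Fin k × Fin 3) ⊕ Fin n)
/-- the space with `k` blocks of dimension `1` -/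
abbrev Wq (k n : ℕ) : Type := EuclideanSpace ℝ (Fin k ⊕ Fin n)

variable {k n : ℕ}

/-- coordinates -/
noncomputable def al (k n : ℕ) : ((Fin k → E3) × (Fin n → ℝ)) ≃ᵐ Wd k n where
  toFun q := WithLp.toLp 2 (Sum.elim (fun j => q.1 j.1 j.2) q.2)
  invFun z := (fun i => WithLp.toLp 2 fun a => z (Sum.inl (i, a)), fun j => z (Sum.inr j))
  left_inv q := rfl
  right_inv z := by
    ext j
    rcases j with ⟨i, a⟩ | j <;> rfl
  measurable_toFun := by
    refine (WithLp.measurable_toLp 2 _).comp (measurable_pi_lambda _ fun j => ?_)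
    rcases j with ⟨i, a⟩ | j
    · change Measurable fun q : (Fin k → E3) × (Fin n → ℝ) => q.1 i a
      fun_prop
    · change Measurable fun q : (Fin k → E3) × (Fin n → ℝ) => q.2 j
      fun_prop
  measurable_invFun := by
    refine Measurable.prodMk (measurable_pi_lambda _ fun i =>
      (WithLp.measurable_toLp 2 _).comp (measurable_pi_lambda _ fun a => ?_))
      (measurable_pi_lambda _ fun j => ?_)
    · fun_prop
    · fun_prop

theorem al_inl (q : (Fin k → E3) × (Fin n → ℝ)) (i : Fin k) (a : Fin 3) :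
    al k n q (Sum.inl (i, a)) = q.1 i a := rfl

theorem al_inr (q : (Fin k → E3) × (Fin n → ℝ)) (j : Fin n) :
    al k n q (Sum.inr j) = q.2 j := rfl

/-- coordinates -/
noncomputable def be (k n : ℕ) : ((Fin k → ℝ) × (Fin n → ℝ)) ≃ᵐ Wq k n where
  toFun q := WithLp.toLp 2 (Sum.elim q.1 q.2)
  invFun z := (fun i => z (Sum.inl i), fun j => z (Sum.inr j))
  left_inv q := rfl
  right_inv z := by
    ext j
    rcases j with i | j <;> rfl
  measurable_toFun := by
    refine (WithLp.measurable_toLp 2 _).comp (measurable_pi_lambda _ fun j => ?_)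
    rcases j with i | j
    · change Measurable fun q : (Fin k → ℝ) × (Fin n → ℝ) => q.1 i
      fun_prop
    · change Measurable fun q : (Fin k → ℝ) × (Fin n → ℝ) => q.2 j
      fun_prop
  measurable_invFun := by
    refine Measurable.prodMk (measurable_pi_lambda _ fun i => ?_)
      (measurable_pi_lambda _ fun j => ?_)
    · fun_prop
    · fun_prop

theorem be_inl (q : (Fin k → ℝ) × (Fin n → ℝ)) (i : Fin k) :
    be k n q (Sum.inl i) = q.1 i := rfl

theorem be_inr (q : (Fin k → ℝ) × (Fin n → ℝ)) (j : Fin n) :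
    be k n q (Sum.inr j) = q.2 j := rfl

theorem al_mp (k n : ℕ) : MeasurePreserving (al k n) := by
  refine ⟨(al k n).measurable, ?_⟩
  have h1 : (al k n : (Fin k → E3) × (Fin n → ℝ) → Wd k n) =
      (WithLp.toLp 2 : ((Fin k × Fin 3) ⊕ Fin n → ℝ) → Wd k n) ∘
        (WithLp.ofLp ∘ al k n) := rfl
  have hm : Measurable (WithLp.ofLp ∘ al k n) :=
    (WithLp.measurable_ofLp 2 _).comp (al k n).measurable
  rw [h1, ← Measure.map_map (WithLp.measurable_toLp 2 _) hm]
  have h2 : Measure.map (WithLp.ofLp ∘ al k n) volume =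
      (volume : Measure ((Fin k × Fin 3) ⊕ Fin n → ℝ)) := by
    symm
    refine Measure.pi_eq fun s hs => ?_
    rw [Measure.map_apply hm (MeasurableSet.univ_pi hs)]
    have h3 : (WithLp.ofLp ∘ al k n) ⁻¹' (pi univ s) =
        (pi univ fun i : Fin k => (WithLp.ofLp : E3 → (Fin 3 → ℝ)) ⁻¹'
          (pi univ fun a => s (Sum.inl (i, a)))) ×ˢ (pi univ fun j : Fin n => s (Sum.inr j)) := by
      ext q
      simp only [mem_preimage, Function.comp, mem_prod, mem_univ_pi]
      constructor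
      · intro h
        exact ⟨fun i a => h (Sum.inl (i, a)), fun j => h (Sum.inr j)⟩
      · rintro ⟨h4, h5⟩ (⟨i, a⟩ | j)
        · exact h4 i a
        · exact h5 j
    rw [h3, Measure.volume_eq_prod, Measure.prod_prod, volume_pi_pi, volume_pi_pi,
      Fintype.prod_sum_type, Fintype.prod_prod_type]
    congr 1
    refine Finset.prod_congr rfl fun i _ => ?_
    rw [(PiLp.volume_preserving_ofLp (Fin 3)).measure_preimage
      (MeasurableSet.univ_pi fun a => hs _).nullMeasurableSet, volume_pi_pi]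
  rw [h2]
  exact (PiLp.volume_preserving_toLp _).map_eq

theorem be_mp (k n : ℕ) : MeasurePreserving (be k n) := by
  refine ⟨(be k n).measurable, ?_⟩
  have h1 : (be k n : (Fin k → ℝ) × (Fin n → ℝ) → Wq k n) =
      (WithLp.toLp 2 : (Fin k ⊕ Fin n → ℝ) → Wq k n) ∘
        (WithLp.ofLp ∘ be k n) := rfl
  have hm : Measurable (WithLp.ofLp ∘ be k n) :=
    (WithLp.measurable_ofLp 2 _).comp (be k n).measurable
  rw [h1, ← Measure.map_map (WithLp.measurable_toLp 2 _) hm]
  have h2 : Measure.map (WithLp.ofLp ∘ be k n) volume =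
      (volume : Measure (Fin k ⊕ Fin n → ℝ)) := by
    symm
    refine Measure.pi_eq fun s hs => ?_
    rw [Measure.map_apply hm (MeasurableSet.univ_pi hs)]
    have h3 : (WithLp.ofLp ∘ be k n) ⁻¹' (pi univ s) =
        (pi univ fun i : Fin k => s (Sum.inl i)) ×ˢ (pi univ fun j : Fin n => s (Sum.inr j)) := by
      ext q
      simp only [mem_preimage, Function.comp, mem_prod, mem_univ_pi]
      constructor
      · intro h
        exact ⟨fun i => h (Sum.inl i), fun j => h (Sum.inr j)⟩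
      · rintro ⟨h4, h5⟩ (i | j)
        · exact h4 i
        · exact h5 j
    rw [h3, Measure.volume_eq_prod, Measure.prod_prod, volume_pi_pi, volume_pi_pi,
      Fintype.prod_sum_type]
  rw [h2]
  exact (PiLp.volume_preserving_toLp _).map_eq

theorem al_inner (p q : (Fin k → E3) × (Fin n → ℝ)) :
    (⟪al k n p, al k n q⟫ : ℝ) = (∑ i, (⟪p.1 i, q.1 i⟫ : ℝ)) + ∑ j, p.2 j * q.2 j := by
  rw [PiLp.inner_apply, Fintype.sum_sum_type, Fintype.sum_prod_type]
  congr 1
  refine Finset.sum_congr rfl fun j _ => ?_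
  rw [al_inr, al_inr]
  exact mul_comm _ _

theorem be_inner (p q : (Fin k → ℝ) × (Fin n → ℝ)) :
    (⟪be k n p, be k n q⟫ : ℝ) = (∑ i, p.1 i * q.1 i) + ∑ j, p.2 j * q.2 j := by
  rw [PiLp.inner_apply, Fintype.sum_sum_type]
  congr 1
  · refine Finset.sum_congr rfl fun i _ => ?_
    rw [be_inl, be_inl]
    exact mul_comm _ _
  · refine Finset.sum_congr rfl fun j _ => ?_
    rw [be_inr, be_inr]
    exact mul_comm _ _

theorem al_norm (q : (Fin k → E3) × (Fin n → ℝ)) :
    ‖al k n q‖ ^ 2 = (∑ i, ‖q.1 i‖ ^ 2) + ∑ j, q.2 j ^ 2 := by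
  rw [← real_inner_self_eq_norm_sq, al_inner]
  congr 1
  · exact Finset.sum_congr rfl fun i _ => real_inner_self_eq_norm_sq _
  · exact Finset.sum_congr rfl fun i _ => (sq _).symm

theorem be_norm (q : (Fin k → ℝ) × (Fin n → ℝ)) :
    ‖be k n q‖ ^ 2 = (∑ i, q.1 i ^ 2) + ∑ j, q.2 j ^ 2 := by
  rw [← real_inner_self_eq_norm_sq, be_inner]
  congr 1
  · exact Finset.sum_congr rfl fun i _ => (sq _).symm
  · exact Finset.sum_congr rfl fun i _ => (sq _).symm

theorem norm_al_be (q : (Fin k → E3) × (Fin n → ℝ)) :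
    ‖al k n q‖ = ‖be k n (fun i => ‖q.1 i‖, q.2)‖ := by
  have h : ‖al k n q‖ ^ 2 = ‖be k n (fun i => ‖q.1 i‖, q.2)‖ ^ 2 := by
    rw [al_norm, be_norm]
  exact (sq_eq_sq₀ (norm_nonneg _) (norm_nonneg _)).1 h

theorem norm_be_congr {ρ ρ' : Fin k → ℝ} (h : ∀ i, |ρ i| = |ρ' i|) (x : Fin n → ℝ) :
    ‖be k n (ρ, x)‖ = ‖be k n (ρ', x)‖ := by
  have h : ‖be k n (ρ, x)‖ ^ 2 = ‖be k n (ρ', x)‖ ^ 2 := by
    rw [be_norm, be_norm]
    congr 1
    exact Finset.sum_congr rfl fun i _ => (sq_eq_sq_iff_abs_eq_abs _ _).2 (h i)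
  exact (sq_eq_sq₀ (norm_nonneg _) (norm_nonneg _)).1 h

theorem P1_sgn (b : Bool) (r : ℝ) : ((P1 (b, r) : ℝ) : ℂ) = sgn b * (r : ℂ) := by
  unfold P1 sgn
  cases b <;> simp

theorem abs_P1 (b : Bool) (r : ℝ) : |P1 (b, r)| = |r| := by
  unfold P1
  cases b <;> simp

theorem norm_sgn (b : Bool) : ‖sgn b‖ = 1 := by
  unfold sgn
  cases b <;> simp

theorem norm_prod_sgn (b : Fin k → Bool) : ‖∏ i, sgn (b i)‖ = 1 := by
  rw [norm_prod]
  exact Finset.prod_eq_one fun i _ => norm_sgn _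

/-- the reflections -/
noncomputable def refl1 (b : Bool) : ℝ ≃ₗᵢ[ℝ] ℝ :=
  if b then LinearIsometryEquiv.refl ℝ ℝ else LinearIsometryEquiv.neg ℝ

theorem refl1_apply (b : Bool) (r : ℝ) : refl1 b r = P1 (b, r) := by
  unfold refl1 P1
  cases b <;> simp

/-- the reflections -/
noncomputable def Ub (n : ℕ) (b : Fin k → Bool) : Wq k n ≃ₗᵢ[ℝ] Wq k n :=
  LinearIsometryEquiv.piLpCongrRight 2
    (fun j : Fin k ⊕ Fin n => refl1 (Sum.elim b (fun _ => true) j))

theorem Ub_apply (b : Fin k → Bool) (q : (Fin k → ℝ) × (Fin n → ℝ)) :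
    Ub n b (be k n q) = be k n (fun i => P1 (b i, q.1 i), q.2) := by
  ext j
  unfold Ub
  rw [LinearIsometryEquiv.piLpCongrRight_apply]
  rcases j with i | j
  · change refl1 (b i) (q.1 i) = P1 (b i, q.1 i)
    exact refl1_apply _ _
  · change refl1 true (q.2 j) = q.2 j
    rw [refl1_apply]
    simp [P1]

/-! ### functions with block symmetry -/

/-- the first unit vector -/
noncomputable def e0 : E3 := EuclideanSpace.single 0 1

theorem norm_smul_e0 (r : ℝ) : ‖r • e0‖ = |r| := by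
  have h : ‖e0‖ = 1 := by simp [e0]
  rw [norm_smul, h, mul_one, Real.norm_eq_abs]

/-- the profile -/
noncomputable def GF (f : Wd k n → ℂ) (q : (Fin k → ℝ) × (Fin n → ℝ)) : ℂ :=
  f (al k n (fun i => q.1 i • e0, q.2))

/-- block symmetry -/
def Inv (f : Wd k n → ℂ) : Prop :=
  ∀ (y y' : Fin k → E3) (x : Fin n → ℝ), (∀ i, ‖y i‖ = ‖y' i‖) → f (al k n (y, x)) =
    f (al k n (y', x))

theorem Inv.eq {f : Wd k n → ℂ} (h : Inv f) (y : Fin k → E3) (x : Fin n → ℝ) :
    f (al k n (y, x)) = GF f (fun i => ‖y i‖, x) :=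
  h _ _ _ fun i => by rw [norm_smul_e0, abs_norm]

theorem Inv.congr {f : Wd k n → ℂ} (h : Inv f) {ρ ρ' : Fin k → ℝ} (hρ : ∀ i, |ρ i| = |ρ' i|)
    (x : Fin n → ℝ) : GF f (ρ, x) = GF f (ρ', x) :=
  h _ _ _ fun i => by rw [norm_smul_e0, norm_smul_e0, hρ]

theorem GF_meas {f : Wd k n → ℂ} (hf : Measurable f) : Measurable (GF f) := by
  refine hf.comp ((al k n).measurable.comp (Measurable.prodMk ?_ measurable_snd))
  refine measurable_pi_lambda _ fun i => ?_
  fun_prop

/-- the odd function -/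
noncomputable def VV (f : Wd k n → ℂ) (q : (Fin k → ℝ) × (Fin n → ℝ)) : ℂ :=
  (∏ i, ((q.1 i : ℝ) : ℂ)) * GF f q

/-- the odd function -/
noncomputable def VF (f : Wd k n → ℂ) (w : Wq k n) : ℂ := VV f ((be k n).symm w)

theorem VF_be (f : Wd k n → ℂ) (q : (Fin k → ℝ) × (Fin n → ℝ)) : VF f (be k n q) = VV f q := rfl

theorem VV_meas {f : Wd k n → ℂ} (hf : Measurable f) : Measurable (VV f) := by
  refine Measurable.mul (Finset.measurable_prod _ fun i _ => ?_) (GF_meas hf)
  exact Complex.measurable_ofReal.comp (by fun_prop)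

theorem VF_meas {f : Wd k n → ℂ} (hf : Measurable f) : Measurable (VF f) :=
  (VV_meas hf).comp (be k n).symm.measurable

theorem VV_odd {f : Wd k n → ℂ} (h : Inv f) (b : Fin k → Bool) (ρ : Fin k → ℝ)
    (x : Fin n → ℝ) : VV f ((fun i => P1 (b i, ρ i)), x) = (∏ i, sgn (b i)) * VV f (ρ, x) := by
  unfold VV
  simp only
  rw [h.congr (ρ' := ρ) fun i => abs_P1 _ _]
  simp_rw [P1_sgn]
  rw [Finset.prod_mul_distrib]
  ring

theorem GF_zero {f : Wd k n → ℂ} {R0 : ℝ} (hs : ∀ z, R0 < ‖z‖ → f z = 0)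
    (q : (Fin k → ℝ) × (Fin n → ℝ)) (hq : R0 < ‖be k n q‖) : GF f q = 0 := by
  unfold GF
  apply hs
  rw [norm_al_be]
  refine hq.trans_le (le_of_eq (norm_be_congr (fun i => ?_) _))
  simp only
  rw [norm_smul_e0, abs_abs]

theorem VF_zero {f : Wd k n → ℂ} {R0 : ℝ} (hs : ∀ z, R0 < ‖z‖ → f z = 0)
    (w : Wq k n) (hw : R0 < ‖w‖) : VF f w = 0 := by
  unfold VF VV
  rw [GF_zero hs _ (by rwa [MeasurableEquiv.apply_symm_apply]), mul_zero]

theorem F_const_mul {W : Type*} [NormedAddCommGroup W] [InnerProductSpace ℝ W]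
    [FiniteDimensional ℝ W] [MeasurableSpace W] [BorelSpace W] (c : ℂ) (f : W → ℂ) (ζ : W) :
    𝓕 (fun w => c * f w) ζ = c * 𝓕 f ζ := by
  rw [F_eq, F_eq, ← integral_const_mul]
  refine integral_congr_ae (Eventually.of_forall fun w => ?_)
  simp only
  ring

theorem FV_odd {f : Wd k n → ℂ} (h : Inv f) (b : Fin k → Bool) (ρ : Fin k → ℝ)
    (x : Fin n → ℝ) : 𝓕 (VF f) (be k n ((fun i => P1 (b i, ρ i)), x)) =
      (∏ i, sgn (b i)) * 𝓕 (VF f) (be k n (ρ, x)) := by
  have h1 := F_isom (Ub n b) (VF f) (be k n (ρ, x))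
  rw [Ub_apply] at h1
  have h3 : (fun w => VF f ((Ub n b) w)) = fun w => (∏ i, sgn (b i)) * VF f w := by
    funext w
    have h2 : w = be k n ((be k n).symm w) := ((be k n).apply_symm_apply w).symm
    rw [h2, Ub_apply, VF_be, VF_be]
    exact VV_odd h b _ _
  rw [← h1, h3, F_const_mul]

end Pool.Agent.Helper66K9.LS
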