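import Pool.Agent.Helper66K9.LS.Red1
set_option autoImplicit false

/-! # The Fourier transform of functions with block symmetry -/

namespace Pool.Agent.Helper66K9.LS

open MeasureTheory Set Filter
open scoped ENNReal FourierTransform RealInnerProductSpace Topology
open Pool.Agent.TH280.LS (e norm_e e_add measurable_e continuous_e plancherel e_conj)
open Pool.Agent.H789R2.FR (sg)

variable {k n : ℕ}

theorem e_zero : e 0 = 1 := by simp [e]

theorem e_sum {ι : Type*} (s : Finset ι) (a : ι → ℝ) : e (∑ i ∈ s, a i) = ∏ i ∈ s, e (a i) := by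
  classical
  induction s using Finset.induction_on with
  | empty => simp [e_zero]
  | insert b s hb ih => rw [Finset.sum_insert hb, Finset.prod_insert hb, e_add, ih]

theorem int_al (g : Wd k n → ℂ) : ∫ z, g z = ∫ q, g (al k n q) :=
  ((al_mp k n).integral_comp' g).symm

theorem int_be (g : Wq k n → ℂ) : ∫ z, g z = ∫ q, g (be k n q) :=
  ((be_mp k n).integral_comp' g).symm

theorem lint_al (g : Wd k n → ℝ≥0∞) : ∫⁻ z, g z = ∫⁻ q, g (al k n q) :=
  ((al_mp k n).lintegral_comp_emb (al k n).measurableEmbedding g).symm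

theorem lint_be (g : Wq k n → ℝ≥0∞) : ∫⁻ z, g z = ∫⁻ q, g (be k n q) :=
  ((be_mp k n).lintegral_comp_emb (be k n).measurableEmbedding g).symm

theorem ae_ne0 (k n : ℕ) : ∀ᵐ q : (Fin k → E3) × (Fin n → ℝ), ∀ i, q.1 i ≠ 0 := by
  have h1 : ∀ᵐ z : E3, z ≠ 0 := by
    rw [ae_iff]
    have : {a : E3 | ¬ a ≠ 0} = {0} := by ext; simp
    rw [this]
    exact measure_singleton _
  have h2 := ae_pi_all (k := k) h1
  exact Measure.quasiMeasurePreserving_fst.ae h2

/-- the constant -/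
noncomputable def Kc (k : ℕ) : ℂ := ((c3 : ℂ) / (2 * Complex.I)) ^ k

theorem prod_inv_mul {a : Fin k → ℂ} (h : ∀ i, a i ≠ 0) : (∏ i, (a i)⁻¹) * ∏ i, a i = 1 := by
  rw [← Finset.prod_mul_distrib]
  exact Finset.prod_eq_one fun i _ => inv_mul_cancel₀ (h i)

theorem FT1 {f : Wd k n → ℂ} (hI : Inv f) (hf : Integrable f) (hV : Integrable (VF f))
    (η : Fin k → E3) (ξ : Fin n → ℝ) :
    (∏ i, ((‖η i‖ : ℝ) : ℂ)) * 𝓕 f (al k n (η, ξ)) =
      Kc k * 𝓕 (VF f) (be k n ((fun i => -‖η i‖), ξ)) := by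
  set H : (Fin k → ℝ) × (Fin n → ℝ) → ℂ := fun q => e (-∑ j, q.2 j * ξ j) * VV f q with hH
  have hfal : Integrable (fun q => f (al k n q)) :=
    ((al_mp k n).integrable_comp_emb (al k n).measurableEmbedding).2 hf
  have hVbe : Integrable (VV f) := by
    have := ((be_mp k n).integrable_comp_emb (be k n).measurableEmbedding).2 hV
    exact this
  have hpt : ∀ q : (Fin k → E3) × (Fin n → ℝ), (∀ i, q.1 i ≠ 0) →
      (∏ i, ((‖q.1 i‖⁻¹ : ℝ) : ℂ)) * H ((fun i => ‖q.1 i‖), q.2) =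
        e (-∑ j, q.2 j * ξ j) * f (al k n q) := by
    intro q hq
    simp only [hH, VV]
    have h1 := hI.eq q.1 q.2
    rw [show (q.1, q.2) = q from rfl] at h1
    rw [h1]
    have h2 := prod_inv_mul (k := k) (a := fun i => ((‖q.1 i‖ : ℝ) : ℂ)) fun i => by
      have := norm_ne_zero_iff.2 (hq i)
      exact_mod_cast this
    simp_rw [Complex.ofReal_inv]
    calc _ = ((∏ i, ((‖q.1 i‖ : ℝ) : ℂ)⁻¹) * ∏ i, ((‖q.1 i‖ : ℝ) : ℂ)) *
        (e (-∑ j, q.2 j * ξ j) * GF f ((fun i => ‖q.1 i‖), q.2)) := by ring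
      _ = _ := by rw [h2, one_mul]
  have hem : Measurable (fun q : (Fin k → E3) × (Fin n → ℝ) => e (-∑ j, q.2 j * ξ j)) :=
    measurable_e.comp (by fun_prop)
  have hem' : Measurable (fun q : (Fin k → ℝ) × (Fin n → ℝ) => e (-∑ j, q.2 j * ξ j)) :=
    measurable_e.comp (by fun_prop)
  have key := BL (volume : Measure (Fin n → ℝ)) H (fun i => -η i) ?_ ?_ ?_
  · have e1 : (∏ i, ((‖-η i‖ : ℝ) : ℂ)) = ∏ i, ((‖η i‖ : ℝ) : ℂ) := by simp
    rw [e1] at key
    have e2 : ∫ q : (Fin k → E3) × (Fin n → ℝ), (∏ i, e (⟪-η i, q.1 i⟫ : ℝ)) *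
        ((∏ i, ((‖q.1 i‖⁻¹ : ℝ) : ℂ)) * H ((fun i => ‖q.1 i‖), q.2)) ∂((volume).prod volume) =
        𝓕 f (al k n (η, ξ)) := by
      rw [F_eq, int_al]
      refine integral_congr_ae ?_
      filter_upwards [ae_ne0 k n] with q hq
      rw [hpt q hq, ← mul_assoc, ← e_sum, ← e_add, al_inner]
      congr 2
      simp only [inner_neg_left, Finset.sum_neg_distrib]
      rw [neg_add]
      congr 2
      exact Finset.sum_congr rfl fun i _ => real_inner_comm _ _
    have e3 : ∫ q : (Fin k → ℝ) × (Fin n → ℝ), (∏ i, e (‖-η i‖ * q.1 i)) * H q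
        ∂((volume).prod volume) = 𝓕 (VF f) (be k n ((fun i => -‖η i‖), ξ)) := by
      rw [F_eq, int_be]
      refine integral_congr_ae (Eventually.of_forall fun q => ?_)
      simp only [hH]
      rw [← mul_assoc, ← e_sum, ← e_add, be_inner, VF_be]
      congr 2
      simp only [norm_neg]
      rw [neg_add]
      congr 1
      rw [← Finset.sum_neg_distrib]
      exact Finset.sum_congr rfl fun i _ => by ring
    rw [e2, e3] at key
    exact key
  · refine (hfal.bdd_mul (c := 1) hem.aestronglyMeasurable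
      (Eventually.of_forall fun q => (norm_e _).le)).congr ?_
    filter_upwards [ae_ne0 k n] with q hq
    exact (hpt q hq).symm
  · exact hVbe.bdd_mul (c := 1) hem'.aestronglyMeasurable
      (Eventually.of_forall fun q => (norm_e _).le)
  · intro b ρ x
    simp only [hH]
    rw [VV_odd hI]
    ring

theorem TM1 {f : Wd k n → ℂ} (hI : Inv f) (hf : Integrable f) (hV : Integrable (VF f))
    {C R : ℝ} {M : ℝ → ℂ} (hM : Mul C R M) (y : Fin k → E3) (x : Fin n → ℝ) :
    (∏ i, ((‖y i‖ : ℝ) : ℂ)) * TM M f (al k n (y, x)) =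
      Kc k * (Kc k * (-1) ^ k) * TM M (VF f) (be k n ((fun i => ‖y i‖), x)) := by
  have hodd' : ∀ (ρ : Fin k → ℝ) (ξ : Fin n → ℝ), 𝓕 (VF f) (be k n ((fun i => -ρ i), ξ)) =
      (-1) ^ k * 𝓕 (VF f) (be k n (ρ, ξ)) := by
    intro ρ ξ
    have h := FV_odd hI (fun _ => false) ρ ξ
    simpa [P1, sgn] using h
  set H : (Fin k → ℝ) × (Fin n → ℝ) → ℂ := fun q => e (∑ j, x j * q.2 j) *
    (M ‖be k n q‖ * (Kc k * 𝓕 (VF f) (be k n ((fun i => -q.1 i), q.2)))) with hH
  have hfal : Integrable (fun q => M ‖al k n q‖ * 𝓕 f (al k n q)) :=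
    ((al_mp k n).integrable_comp_emb (al k n).measurableEmbedding).2 (int_MF hM hf)
  have hVbe : Integrable (fun q => M ‖be k n q‖ * 𝓕 (VF f) (be k n q)) :=
    ((be_mp k n).integrable_comp_emb (be k n).measurableEmbedding).2 (int_MF hM hV)
  have hpt : ∀ q : (Fin k → E3) × (Fin n → ℝ), (∀ i, q.1 i ≠ 0) →
      (∏ i, ((‖q.1 i‖⁻¹ : ℝ) : ℂ)) * H ((fun i => ‖q.1 i‖), q.2) =
        e (∑ j, x j * q.2 j) * (M ‖al k n q‖ * 𝓕 f (al k n q)) := by
    intro q hq
    simp only [hH]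
    have h1 := FT1 hI hf hV q.1 q.2
    rw [show (q.1, q.2) = q from rfl] at h1
    rw [← h1, ← norm_al_be]
    have h2 := prod_inv_mul (k := k) (a := fun i => ((‖q.1 i‖ : ℝ) : ℂ)) fun i => by
      have := norm_ne_zero_iff.2 (hq i)
      exact_mod_cast this
    simp_rw [Complex.ofReal_inv]
    calc _ = ((∏ i, ((‖q.1 i‖ : ℝ) : ℂ)⁻¹) * ∏ i, ((‖q.1 i‖ : ℝ) : ℂ)) *
        (e (∑ j, x j * q.2 j) * (M ‖al k n q‖ * 𝓕 f (al k n q))) := by ring
      _ = _ := by rw [h2, one_mul]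
  have hem : Measurable (fun q : (Fin k → E3) × (Fin n → ℝ) => e (∑ j, x j * q.2 j)) :=
    measurable_e.comp (by fun_prop)
  have hem' : Measurable (fun q : (Fin k → ℝ) × (Fin n → ℝ) => e (∑ j, x j * q.2 j)) :=
    measurable_e.comp (by fun_prop)
  have hHe : ∀ q, H q = (Kc k * (-1) ^ k) * (e (∑ j, x j * q.2 j) *
      (M ‖be k n q‖ * 𝓕 (VF f) (be k n q))) := by
    intro q
    simp only [hH]
    rw [hodd' q.1 q.2]
    ring
  have key := BL (volume : Measure (Fin n → ℝ)) H y ?_ ?_ ?_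
  · have e2 : ∫ q : (Fin k → E3) × (Fin n → ℝ), (∏ i, e (⟪y i, q.1 i⟫ : ℝ)) *
        ((∏ i, ((‖q.1 i‖⁻¹ : ℝ) : ℂ)) * H ((fun i => ‖q.1 i‖), q.2)) ∂((volume).prod volume) =
        TM M f (al k n (y, x)) := by
      unfold TM
      rw [int_al]
      refine integral_congr_ae ?_
      filter_upwards [ae_ne0 k n] with q hq
      rw [hpt q hq, ← mul_assoc, ← e_sum, ← e_add, al_inner]
    have e3 : ∫ q : (Fin k → ℝ) × (Fin n → ℝ), (∏ i, e (‖y i‖ * q.1 i)) * H q
        ∂((volume).prod volume) =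
        (Kc k * (-1) ^ k) * TM M (VF f) (be k n ((fun i => ‖y i‖), x)) := by
      unfold TM
      rw [int_be, ← integral_const_mul]
      refine integral_congr_ae (Eventually.of_forall fun q => ?_)
      simp only
      have h9 : e (∑ i, ‖y i‖ * q.1 i) = ∏ i, e (‖y i‖ * q.1 i) := e_sum _ _
      rw [hHe, be_inner, e_add, h9]
      ring
    rw [e2, e3] at key
    rw [key, Kc]
    ring
  · refine (hfal.bdd_mul (c := 1) hem.aestronglyMeasurable
      (Eventually.of_forall fun q => (norm_e _).le)).congr ?_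
    filter_upwards [ae_ne0 k n] with q hq
    exact (hpt q hq).symm
  · refine ((hVbe.bdd_mul (c := 1) hem'.aestronglyMeasurable
      (Eventually.of_forall fun q => (norm_e _).le)).const_mul (Kc k * (-1) ^ k)).congr ?_
    exact Eventually.of_forall fun q => (hHe q).symm
  · intro b ρ ξ
    rw [hHe, hHe]
    simp only
    rw [FV_odd hI, norm_be_congr (ρ' := ρ) fun i => abs_P1 _ _]
    ring

/-- the constant -/
noncomputable def kap (k : ℕ) : ℝ := (c3 / 2) ^ (2 * k)

theorem kap_pos (k : ℕ) : 0 < kap k := by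
  unfold kap
  have := c3_pos
  positivity

theorem norm_Kc (k : ℕ) : ‖Kc k‖ = (c3 / 2) ^ k := by
  unfold Kc
  rw [norm_pow, norm_div, norm_mul, Complex.norm_I, Complex.norm_real, Real.norm_of_nonneg
    c3_pos.le]
  simp

theorem TM1_norm {f : Wd k n → ℂ} (hI : Inv f) (hf : Integrable f) (hV : Integrable (VF f))
    {C R : ℝ} {M : ℝ → ℂ} (hM : Mul C R M) (y : Fin k → E3) (x : Fin n → ℝ) :
    (∏ i, ‖y i‖) * ‖TM M f (al k n (y, x))‖ =
      kap k * ‖TM M (VF f) (be k n ((fun i => ‖y i‖), x))‖ := by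
  have h := congrArg norm (TM1 hI hf hV hM y x)
  rw [norm_mul, norm_mul, norm_mul, norm_mul, norm_Kc, norm_prod, norm_pow, norm_neg, norm_one,
    one_pow, mul_one, ← pow_add] at h
  simp only [Complex.norm_real, norm_norm] at h
  rw [h, kap]
  congr 2
  ring

end Pool.Agent.Helper66K9.LS
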