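import Pool.Agent.Helper66K9.LS.Red2
import Pool.Agent.Helper66K9.LS.Interp
set_option autoImplicit false

/-! # Norms of functions with block symmetry -/

namespace Pool.Agent.Helper66K9.LS

open MeasureTheory Set Filter
open scoped ENNReal FourierTransform RealInnerProductSpace Topology
open Pool.Agent.TH280.LS (e norm_e e_add measurable_e continuous_e plancherel e_conj)
open Pool.Agent.H789R2.FR (sg)

variable {k n : ℕ}

theorem sg3_pos : 0 < (sg 3).real univ := Pool.Agent.H438R2.BR.T7.sg_pos (n := 3) (by norm_num)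

theorem sg3_eq : sg 3 univ = ENNReal.ofReal ((sg 3).real univ) := by
  rw [Measure.real, ENNReal.ofReal_toReal (measure_ne_top _ _)]

theorem mI_le (k n : ℕ) : (Measure.pi fun _ : Fin k => mI).prod (volume : Measure (Fin n → ℝ)) ≤
    (volume : Measure ((Fin k → ℝ) × (Fin n → ℝ))) := by
  have h1 : (Measure.pi fun _ : Fin k => mI) =
      (volume : Measure (Fin k → ℝ)).restrict (pi univ fun _ => Ioi 0) :=
    (Measure.restrict_pi_pi _ _).symm
  rw [h1]
  conv_lhs => rw [← Measure.restrict_univ (μ := (volume : Measure (Fin n → ℝ)))]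
  rw [Measure.prod_restrict]
  exact Measure.restrict_le_self

theorem TM_meas1 {W : Type*} [NormedAddCommGroup W] [InnerProductSpace ℝ W]
    [FiniteDimensional ℝ W] [MeasurableSpace W] [BorelSpace W] {M : ℝ → ℂ} (hM : Measurable M)
    {f : W → ℂ} (hf : Integrable f) : Measurable (TM M f) := by
  have h := TM_meas (M := fun _ => M) (f := f) (by
    unfold Function.uncurry
    exact hM.comp measurable_snd) hf
  exact h.comp (f := fun z : W => ((0 : ℝ), z)) (by fun_prop)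

theorem norm_VV (f : Wd k n → ℂ) (q : (Fin k → ℝ) × (Fin n → ℝ)) :
    ‖VV f q‖ₑ = (∏ i, ENNReal.ofReal |q.1 i|) * ‖GF f q‖ₑ := by
  unfold VV
  rw [enorm_mul, ← ofReal_norm, norm_prod, ENNReal.ofReal_prod_of_nonneg
    fun i _ => norm_nonneg _]
  simp only [Complex.norm_real, Real.norm_eq_abs]

theorem om_mul_le {N : ℝ} (hN : 1 ≤ N) {ρ : ℝ} (hρ : 0 < ρ) : om N ρ ≤ ρ⁻¹ := by
  unfold om
  rw [abs_of_pos hρ, one_div]
  refine inv_anti₀ hρ ?_
  have : 0 < 1 / N := by positivity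
  linarith

theorem up_pt {p θ R0 N : ℝ} (hθ0 : 0 ≤ θ) (hθ : θ ≤ p - 2) (hN : 1 ≤ N) {ρ : ℝ}
    (hρ : 0 < ρ) (hρR : ρ ≤ R0) : om N ρ ^ θ * ρ ^ p ≤ R0 ^ (p - 2 - θ) * ρ ^ (2 : ℕ) := by
  calc om N ρ ^ θ * ρ ^ p ≤ (ρ⁻¹) ^ θ * ρ ^ p := by
        refine mul_le_mul_of_nonneg_right ?_ (by positivity)
        exact Real.rpow_le_rpow (om_pos hN ρ).le (om_mul_le hN hρ) hθ0
    _ = ρ ^ (p - 2 - θ) * ρ ^ (2 : ℕ) := by
        rw [Real.inv_rpow hρ.le, ← Real.rpow_neg hρ.le, ← Real.rpow_add hρ,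
          ← Real.rpow_natCast ρ 2, ← Real.rpow_add hρ]
        congr 1
        push_cast
        ring
    _ ≤ _ := by
        refine mul_le_mul_of_nonneg_right ?_ (by positivity)
        exact Real.rpow_le_rpow hρ.le hρR (by linarith)

theorem upper {f : Wd k n → ℂ} (hI : Inv f) (hm : Measurable f) {R0 : ℝ} (hR0 : 0 ≤ R0)
    (hs : ∀ z, R0 < ‖z‖ → f z = 0) {p θ N : ℝ} (hp : 2 ≤ p) (hθ0 : 0 ≤ θ) (hθ : θ ≤ p - 2)
    (hN : 1 ≤ N) : ∫⁻ w, Om (Sum.inl : Fin k → Fin k ⊕ Fin n) θ N w * ‖VF f w‖ₑ ^ p ≤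
    ENNReal.ofReal (2 ^ k * (R0 ^ (p - 2 - θ)) ^ k / ((sg 3).real univ) ^ k) *
      ∫⁻ z, ‖f z‖ₑ ^ p := by
  have hp0 : 0 < p := by linarith
  have hGm := GF_meas hm
  have hVm := VV_meas hm
  set Φ : (Fin k → ℝ) × (Fin n → ℝ) → ℝ≥0∞ := fun q =>
    (∏ i, ENNReal.ofReal (om N (q.1 i)) ^ θ) * ‖VV f q‖ₑ ^ p with hΦ
  have hΦm : Measurable Φ := by
    refine Measurable.mul (Finset.measurable_prod _ fun i _ => ?_) (hVm.enorm.pow_const p)
    exact ((om_meas N).comp (by fun_prop)).ennreal_ofReal.pow_const θ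
  have e1 : ∫⁻ w, Om (Sum.inl : Fin k → Fin k ⊕ Fin n) θ N w * ‖VF f w‖ₑ ^ p =
      2 ^ k * ∫⁻ w, Φ w ∂((Measure.pi fun _ : Fin k => mI).prod volume) := by
    rw [lint_be, ← norm_id1 volume Φ hΦm]
    refine lintegral_congr fun q => ?_
    simp only [hΦ, VF_be, Om, be_inl, norm_VV, abs_abs]
    congr 1
    · refine Finset.prod_congr rfl fun i _ => ?_
      unfold om
      rw [abs_abs]
    · rw [hI.congr (ρ := fun i => |q.1 i|) (ρ' := q.1) (fun i => abs_abs _)]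
  have e2 : (sg 3 univ) ^ k * ∫⁻ w, (∏ i, ENNReal.ofReal (w.1 i ^ 2)) * ‖GF f w‖ₑ ^ p
      ∂((Measure.pi fun _ : Fin k => mI).prod volume) = ∫⁻ z, ‖f z‖ₑ ^ p := by
    rw [← norm_id3 volume (fun w => ‖GF f w‖ₑ ^ p) (hGm.enorm.pow_const p), lint_al]
    refine lintegral_congr fun q => ?_
    rw [← hI.eq q.1 q.2]
  have e3 : ∫⁻ w, Φ w ∂((Measure.pi fun _ : Fin k => mI).prod volume) ≤
      ENNReal.ofReal ((R0 ^ (p - 2 - θ)) ^ k) *
        ∫⁻ w, (∏ i, ENNReal.ofReal (w.1 i ^ 2)) * ‖GF f w‖ₑ ^ p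
      ∂((Measure.pi fun _ : Fin k => mI).prod volume) := by
    rw [← lintegral_const_mul' _ _ ENNReal.ofReal_ne_top]
    refine lintegral_mono_ae ?_
    filter_upwards [ae_pi_pos k (volume : Measure (Fin n → ℝ))] with w hw
    simp only [hΦ]
    by_cases hz : GF f w = 0
    · rw [norm_VV, hz]
      simp [hp0]
    have hle : ∀ i, w.1 i ≤ R0 := by
      intro i
      by_contra hc
      push Not at hc
      apply hz
      apply GF_zero hs
      have h1 := be_norm w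
      have h2 : w.1 i ^ 2 ≤ ‖be k n w‖ ^ 2 := by
        rw [h1]
        have h3 : w.1 i ^ 2 ≤ ∑ i, w.1 i ^ 2 :=
          Finset.single_le_sum (f := fun i => w.1 i ^ 2) (fun i _ => sq_nonneg _)
            (Finset.mem_univ i)
        have h4 : 0 ≤ ∑ j, w.2 j ^ 2 := Finset.sum_nonneg fun i _ => sq_nonneg _
        linarith
      have h5 : w.1 i ≤ ‖be k n w‖ := by
        exact le_of_sq_le_sq h2 (norm_nonneg _)
      linarith
    rw [norm_VV, ENNReal.mul_rpow_of_nonneg _ _ hp0.le, ← ENNReal.prod_rpow_of_nonneg hp0.le,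
      ← mul_assoc, ← Finset.prod_mul_distrib, ← mul_assoc]
    refine mul_le_mul_left ?_ _
    have h6 : ENNReal.ofReal ((R0 ^ (p - 2 - θ)) ^ k) =
        ∏ _i : Fin k, ENNReal.ofReal (R0 ^ (p - 2 - θ)) := by
      rw [Finset.prod_const, Finset.card_univ, Fintype.card_fin, ENNReal.ofReal_pow
        (by positivity)]
    rw [h6, ← Finset.prod_mul_distrib]
    refine Finset.prod_le_prod' fun i _ => ?_
    rw [abs_of_pos (hw i), ENNReal.ofReal_rpow_of_pos (om_pos hN _),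
      ENNReal.ofReal_rpow_of_pos (hw i), ← ENNReal.ofReal_mul (by
        have := om_pos hN (w.1 i); positivity), ← ENNReal.ofReal_mul (by positivity)]
    exact ENNReal.ofReal_le_ofReal (up_pt hθ0 hθ hN (hw i) (hle i))
  have hS := sg3_pos
  rw [e1, ← e2, sg3_eq]
  calc 2 ^ k * ∫⁻ w, Φ w ∂((Measure.pi fun _ : Fin k => mI).prod volume)
      ≤ 2 ^ k * (ENNReal.ofReal ((R0 ^ (p - 2 - θ)) ^ k) *
        ∫⁻ w, (∏ i, ENNReal.ofReal (w.1 i ^ 2)) * ‖GF f w‖ₑ ^ p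
      ∂((Measure.pi fun _ : Fin k => mI).prod volume)) := mul_le_mul_right e3 _
    _ = _ := by
      rw [← mul_assoc, ← mul_assoc]
      congr 1
      have h2 : (2 : ℝ≥0∞) ^ k = ENNReal.ofReal (2 ^ k) := by
        rw [ENNReal.ofReal_pow (by norm_num)]
        norm_num
      rw [h2, ← ENNReal.ofReal_pow hS.le,
        ← ENNReal.ofReal_mul (by positivity), ← ENNReal.ofReal_mul (by positivity)]
      congr 1
      field_simp

theorem VF_int {f : Wd k n → ℂ} (hI : Inv f) (hm : Measurable f) {R0 : ℝ} (hR0 : 0 ≤ R0)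
    (hs : ∀ z, R0 < ‖z‖ → f z = 0) (h2 : ∫⁻ z, ‖f z‖ₑ ^ (2 : ℝ) < ∞) : Integrable (VF f) := by
  have h := upper hI hm hR0 hs (p := 2) (θ := 0) (N := 1) le_rfl le_rfl (by norm_num) le_rfl
  have h3 : ∫⁻ w, ‖VF f w‖ₑ ^ (2 : ℝ) < ∞ := by
    refine lt_of_le_of_lt ?_ (lt_of_le_of_lt h (ENNReal.mul_lt_top ENNReal.ofReal_lt_top h2))
    refine lintegral_mono fun w => ?_
    unfold Om
    simp
  have hVm := VF_meas hm
  have h4 : MemLp (VF f) 2 := by
    refine ⟨hVm.aestronglyMeasurable, ?_⟩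
    rw [eLpNorm_lt_top_iff_lintegral_rpow_enorm_lt_top (by norm_num) (by norm_num)]
    simpa using h3
  have h5 : IntegrableOn (VF f) (Metric.closedBall 0 R0) := by
    have : IsFiniteMeasure (volume.restrict (Metric.closedBall (0 : Wq k n) R0)) :=
      ⟨by rw [Measure.restrict_apply_univ]; exact measure_closedBall_lt_top⟩
    exact (h4.restrict _).integrable (by norm_num)
  refine h5.integrable_of_forall_notMem_eq_zero fun w hw => ?_
  apply VF_zero hs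
  simpa using hw

theorem low_pt {p θ N δ : ℝ} (hθ0 : 0 ≤ θ) (hθ : θ ≤ p - 2) (hN : 1 ≤ N) (hδ : 0 < δ) {ρ : ℝ}
    (hρ : δ / N < ρ) : ρ ^ (2 : ℕ) * (ρ⁻¹) ^ p ≤
      (δ⁻¹ ^ (p - 2 - θ) * (1 + δ⁻¹) ^ θ * N ^ (p - 2 - θ)) * om N ρ ^ θ := by
  have hN0 : 0 < N := by linarith
  have hρ0 : 0 < ρ := lt_trans (by positivity) hρ
  have h1 : ρ⁻¹ ≤ δ⁻¹ * N := by
    rw [inv_le_comm₀ hρ0 (by positivity), mul_inv, inv_inv]
    exact hρ.le
  have h2 : ρ⁻¹ ≤ (1 + δ⁻¹) * om N ρ := by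
    unfold om
    rw [abs_of_pos hρ0, mul_one_div, le_div_iff₀ (by positivity)]
    have h3 : ρ⁻¹ * (1 / N) ≤ δ⁻¹ := by
      calc ρ⁻¹ * (1 / N) ≤ (δ⁻¹ * N) * (1 / N) :=
            mul_le_mul_of_nonneg_right h1 (by positivity)
        _ = δ⁻¹ := by field_simp
    have h4 : ρ⁻¹ * ρ = 1 := inv_mul_cancel₀ hρ0.ne'
    calc ρ⁻¹ * (1 / N + ρ) = ρ⁻¹ * (1 / N) + ρ⁻¹ * ρ := by ring
      _ ≤ δ⁻¹ + 1 := by rw [h4]; linarith
      _ = _ := by ring
  have ho := om_pos hN ρ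
  calc ρ ^ (2 : ℕ) * (ρ⁻¹) ^ p = (ρ⁻¹) ^ (p - 2 - θ) * (ρ⁻¹) ^ θ := by
        rw [← Real.rpow_add (by positivity), Real.inv_rpow hρ0.le, Real.inv_rpow hρ0.le,
          ← Real.rpow_neg hρ0.le, ← Real.rpow_neg hρ0.le, ← Real.rpow_natCast ρ 2,
          ← Real.rpow_add hρ0]
        congr 1
        push_cast
        ring
    _ ≤ (δ⁻¹ * N) ^ (p - 2 - θ) * ((1 + δ⁻¹) * om N ρ) ^ θ := by
        refine mul_le_mul (Real.rpow_le_rpow (by positivity) h1 (by linarith))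
          (Real.rpow_le_rpow (by positivity) h2 hθ0) (by positivity) (by positivity)
    _ = _ := by
        rw [Real.mul_rpow (by positivity) hN0.le, Real.mul_rpow (by positivity) ho.le]
        ring

/-- the points away from the coordinate hyperplanes -/
def good (k n : ℕ) (r : ℝ) : Set (Wd k n) := {z | ∀ i : Fin k, r < |z (Sum.inl (i, 0))|}

theorem good_meas (k n : ℕ) (r : ℝ) : MeasurableSet (good k n r) := by
  have : good k n r = ⋂ i : Fin k, {z : Wd k n | r < |z (Sum.inl (i, 0))|} := by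
    ext z
    simp [good]
  rw [this]
  refine MeasurableSet.iInter fun i => measurableSet_lt measurable_const ?_
  exact continuous_abs.measurable.comp (by fun_prop)

theorem lower {f : Wd k n → ℂ} (hI : Inv f) (hf : Integrable f) (hV : Integrable (VF f))
    {p θ N δ : ℝ} (hp : 2 ≤ p) (hθ0 : 0 ≤ θ) (hθ : θ ≤ p - 2)
    (hN : 1 ≤ N) (hδ : 0 < δ) {C R : ℝ} {M : ℝ → ℂ} (hM : Mul C R M) :
    ∫⁻ z in good k n (δ / N), ‖TM M f z‖ₑ ^ p ≤
    ENNReal.ofReal (((sg 3).real univ) ^ k * (kap k) ^ p *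
      (δ⁻¹ ^ (p - 2 - θ) * (1 + δ⁻¹) ^ θ * N ^ (p - 2 - θ)) ^ k) *
      ∫⁻ w, Om (Sum.inl : Fin k → Fin k ⊕ Fin n) θ N w * ‖TM M (VF f) w‖ₑ ^ p := by
  have hp0 : 0 < p := by linarith
  have hN0 : 0 < N := by linarith
  have hκ := kap_pos k
  have hS := sg3_pos
  set B : ℝ := δ⁻¹ ^ (p - 2 - θ) * (1 + δ⁻¹) ^ θ * N ^ (p - 2 - θ) with hB
  have hB0 : 0 ≤ B := by positivity
  have hTm : Measurable (fun q => ‖TM M (VF f) (be k n q)‖ₑ ^ p) :=
    ((TM_meas1 hM.meas hV).comp (be k n).measurable).enorm.pow_const p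
  classical
  set Φ : (Fin k → ℝ) × (Fin n → ℝ) → ℝ≥0∞ := fun q =>
    if ∀ i, δ / N < q.1 i then ENNReal.ofReal (kap k * ∏ i, (q.1 i)⁻¹) ^ p *
      ‖TM M (VF f) (be k n q)‖ₑ ^ p else 0 with hΦ
  have hset : MeasurableSet {q : (Fin k → ℝ) × (Fin n → ℝ) | ∀ i, δ / N < q.1 i} := by
    have : {q : (Fin k → ℝ) × (Fin n → ℝ) | ∀ i, δ / N < q.1 i} =
        ⋂ i : Fin k, {q : (Fin k → ℝ) × (Fin n → ℝ) | δ / N < q.1 i} := by
      ext z
      simp
    rw [this]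
    exact MeasurableSet.iInter fun i => measurableSet_lt measurable_const (by fun_prop)
  have hΦm : Measurable Φ := by
    refine Measurable.ite hset (Measurable.mul ?_ hTm) measurable_const
    refine Measurable.pow_const (Measurable.ennreal_ofReal (Measurable.const_mul ?_ _)) p
    exact Finset.measurable_prod _ fun i _ => Measurable.inv (by fun_prop)
  have e1 : ∫⁻ z in good k n (δ / N), ‖TM M f z‖ₑ ^ p ≤
      ∫⁻ q : (Fin k → E3) × (Fin n → ℝ), Φ ((fun i => ‖q.1 i‖), q.2) ∂((volume).prod volume) := by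
    rw [← lintegral_indicator (good_meas k n _), lint_al]
    refine lintegral_mono fun q => ?_
    by_cases hq : al k n q ∈ good k n (δ / N)
    · rw [indicator_of_mem hq]
      have h1 : ∀ i, δ / N < ‖q.1 i‖ := by
        intro i
        have h2 := hq i
        rw [al_inl] at h2
        have h3 := PiLp.norm_apply_le (q.1 i) 0
        rw [Real.norm_eq_abs] at h3
        exact h2.trans_le h3
      have h0 : ∀ i, 0 < ‖q.1 i‖ := fun i => lt_trans (by positivity) (h1 i)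
      simp only [hΦ]
      rw [if_pos h1, ← ENNReal.mul_rpow_of_nonneg _ _ hp0.le]
      refine ENNReal.rpow_le_rpow (le_of_eq ?_) hp0.le
      have h4 := TM1_norm hI hf hV hM q.1 q.2
      rw [show (q.1, q.2) = q from rfl] at h4
      have h5 : 0 < ∏ i, ‖q.1 i‖ := Finset.prod_pos fun i _ => h0 i
      have h6 : ‖TM M f (al k n q)‖ = (kap k * ∏ i, (‖q.1 i‖)⁻¹) *
          ‖TM M (VF f) (be k n ((fun i => ‖q.1 i‖), q.2))‖ := by
        rw [Finset.prod_inv_distrib]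
        field_simp
        linarith
      have h7 : 0 ≤ kap k * ∏ i, (‖q.1 i‖)⁻¹ :=
        mul_nonneg hκ.le (Finset.prod_nonneg fun i _ => by positivity)
      rw [← ofReal_norm, h6, ENNReal.ofReal_mul h7, ofReal_norm]
    · rw [indicator_of_notMem hq]
      exact zero_le
  have e2 : ∫⁻ w, (∏ i, ENNReal.ofReal (w.1 i ^ 2)) * Φ w
      ∂((Measure.pi fun _ : Fin k => mI).prod volume) ≤
      ENNReal.ofReal ((kap k) ^ p * B ^ k) *
        ∫⁻ w, Om (Sum.inl : Fin k → Fin k ⊕ Fin n) θ N w * ‖TM M (VF f) w‖ₑ ^ p := by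
    rw [lint_be, ← lintegral_const_mul' _ _ ENNReal.ofReal_ne_top]
    refine (lintegral_mono_ae ?_).trans (lintegral_mono' (mI_le k n) le_rfl)
    filter_upwards [ae_pi_pos k (volume : Measure (Fin n → ℝ))] with w hw
    simp only [hΦ]
    by_cases hq : ∀ i, δ / N < w.1 i
    swap
    · rw [if_neg hq, mul_zero]
      exact zero_le
    rw [if_pos hq, ← mul_assoc, ← mul_assoc]
    refine mul_le_mul_left ?_ _
    unfold Om
    simp only [be_inl]
    have h8 : (∏ i, ENNReal.ofReal (w.1 i ^ 2)) * ENNReal.ofReal (kap k * ∏ i, (w.1 i)⁻¹) ^ p =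
        ENNReal.ofReal ((kap k) ^ p) * ∏ i, ENNReal.ofReal (w.1 i ^ 2 * ((w.1 i)⁻¹) ^ p) := by
      have h9 : 0 ≤ ∏ i, (w.1 i)⁻¹ := Finset.prod_nonneg fun i _ => (inv_pos.2 (hw i)).le
      rw [ENNReal.ofReal_mul hκ.le, ENNReal.mul_rpow_of_nonneg _ _ hp0.le,
        ENNReal.ofReal_rpow_of_pos hκ, ENNReal.ofReal_prod_of_nonneg
          fun i _ => (inv_pos.2 (hw i)).le, ← ENNReal.prod_rpow_of_nonneg hp0.le]
      rw [mul_left_comm, ← Finset.prod_mul_distrib]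
      congr 1
      refine Finset.prod_congr rfl fun i _ => ?_
      rw [ENNReal.ofReal_mul (sq_nonneg _), ENNReal.ofReal_rpow_of_pos (inv_pos.2 (hw i))]
    rw [h8, ENNReal.ofReal_mul (by positivity), mul_assoc]
    refine mul_le_mul_right ?_ _
    have h10 : ENNReal.ofReal (B ^ k) = ∏ _i : Fin k, ENNReal.ofReal B := by
      rw [Finset.prod_const, Finset.card_univ, Fintype.card_fin, ENNReal.ofReal_pow hB0]
    rw [h10, ← Finset.prod_mul_distrib]
    refine Finset.prod_le_prod' fun i _ => ?_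
    rw [ENNReal.ofReal_rpow_of_pos (om_pos hN _), ← ENNReal.ofReal_mul hB0]
    exact ENNReal.ofReal_le_ofReal (low_pt hθ0 hθ hN hδ (hq i))
  calc ∫⁻ z in good k n (δ / N), ‖TM M f z‖ₑ ^ p
      ≤ ∫⁻ q : (Fin k → E3) × (Fin n → ℝ), Φ ((fun i => ‖q.1 i‖), q.2)
          ∂((volume).prod volume) := e1
    _ = (sg 3 univ) ^ k * ∫⁻ w, (∏ i, ENNReal.ofReal (w.1 i ^ 2)) * Φ w
      ∂((Measure.pi fun _ : Fin k => mI).prod volume) := norm_id3 volume Φ hΦm
    _ ≤ (sg 3 univ) ^ k * (ENNReal.ofReal ((kap k) ^ p * B ^ k) *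
        ∫⁻ w, Om (Sum.inl : Fin k → Fin k ⊕ Fin n) θ N w * ‖TM M (VF f) w‖ₑ ^ p) :=
        mul_le_mul_right e2 _
    _ = _ := by
      rw [← mul_assoc, sg3_eq, ← ENNReal.ofReal_pow hS.le, ← ENNReal.ofReal_mul (by positivity)]
      congr 2
      ring

end Pool.Agent.Helper66K9.LS
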