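import Pool.Agent.Helper66K9.LS.Symb
import Pool.Agent.Helper66K9.LS.NC
set_option autoImplicit false

/-! # Summation over the frequencies -/

namespace Pool.Agent.Helper66K9.LS

open MeasureTheory Set Filter
open scoped ENNReal FourierTransform RealInnerProductSpace Topology
open Pool.Agent.TH280.LS

variable {W : Type*} [NormedAddCommGroup W] [InnerProductSpace ℝ W] [FiniteDimensional ℝ W]
  [MeasurableSpace W] [BorelSpace W]

theorem const_le {c : ℝ≥0∞} (hc : c ≠ ∞) : ∃ K : ℝ, 0 < K ∧ c ≤ ENNReal.ofReal K := by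
  refine ⟨c.toReal + 1, by have := ENNReal.toReal_nonneg (a := c); linarith, ?_⟩
  rw [← ENNReal.ofReal_toReal hc]
  refine ENNReal.ofReal_le_ofReal ?_
  rw [ENNReal.toReal_ofReal ENNReal.toReal_nonneg]
  linarith

theorem supp_lint {f : W → ℂ} {R0 : ℝ} (hs : ∀ z, R0 < ‖z‖ → f z = 0) {q : ℝ} (hq : 0 < q) :
    ∫⁻ z, ‖f z‖ₑ ^ q = ∫⁻ z in Metric.closedBall (0 : W) R0, ‖f z‖ₑ ^ q := by
  rw [← lintegral_indicator Metric.isClosed_closedBall.measurableSet]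
  refine lintegral_congr fun z => ?_
  by_cases hz : z ∈ Metric.closedBall (0 : W) R0
  · rw [indicator_of_mem hz]
  · rw [indicator_of_notMem hz, hs z (by simpa using hz)]
    simp [hq]

/-- the `L¹` and `L²` norms of functions with compact support -/
theorem L12 {f : W → ℂ} (hm : Measurable f) {R0 : ℝ} (hs : ∀ z, R0 < ‖z‖ → f z = 0) {p : ℝ}
    (hp : 2 < p) :
    (∫⁻ z, ‖f z‖ₑ) ^ p ≤ (volume (Metric.closedBall (0 : W) R0)) ^ (p - 1) * ∫⁻ z, ‖f z‖ₑ ^ p ∧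
    (∫⁻ z, ‖f z‖ₑ ^ (2 : ℝ)) ^ (p / 2) ≤
      (volume (Metric.closedBall (0 : W) R0)) ^ (p / 2 - 1) * ∫⁻ z, ‖f z‖ₑ ^ p := by
  constructor
  · have h1 := jensen (volume.restrict (Metric.closedBall (0 : W) R0)) (g := fun z => ‖f z‖ₑ)
      hm.enorm.aemeasurable (p := p) (by linarith)
    have h2 := supp_lint hs (q := 1) one_pos
    simp only [ENNReal.rpow_one] at h2
    rw [Measure.restrict_apply_univ, ← h2, ← supp_lint hs (by linarith)] at h1
    exact h1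
  · have h1 := jensen (volume.restrict (Metric.closedBall (0 : W) R0))
      (g := fun z => ‖f z‖ₑ ^ (2 : ℝ)) (hm.enorm.pow_const _).aemeasurable (p := p / 2)
      (by linarith)
    have h3 : ∀ z, (‖f z‖ₑ ^ (2 : ℝ)) ^ (p / 2) = ‖f z‖ₑ ^ p := by
      intro z
      rw [← ENNReal.rpow_mul]
      congr 1
      ring
    simp only [h3] at h1
    rw [Measure.restrict_apply_univ, ← supp_lint hs two_pos, ← supp_lint hs (by linarith)] at h1
    exact h1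

theorem low_bound (W : Type*) [NormedAddCommGroup W] [InnerProductSpace ℝ W]
    [FiniteDimensional ℝ W] [MeasurableSpace W] [BorelSpace W] (C R R0 : ℝ) {p : ℝ}
    (hp : 2 < p) : ∃ K : ℝ, 0 < K ∧ ∀ M : ℝ → ℂ, Mul C R M → ∀ f : W → ℂ, Integrable f →
    Measurable f → (∀ z, R0 < ‖z‖ → f z = 0) →
    ∫⁻ z, ‖TM M f z‖ₑ ^ p ≤ ENNReal.ofReal K * ∫⁻ z, ‖f z‖ₑ ^ p := by
  have hp0 : 0 < p := by linarith
  set v : ℝ≥0∞ := volume (Metric.closedBall (0 : W) R0) with hv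
  set vR : ℝ≥0∞ := volume (Metric.closedBall (0 : W) R) with hvR
  have hvf : v ≠ ∞ := measure_closedBall_lt_top.ne
  have hvRf : vR ≠ ∞ := measure_closedBall_lt_top.ne
  have hcf : (ENNReal.ofReal C * vR) ^ (p - 2) * (v ^ (p - 1)) ^ ((p - 2) / p) *
      ENNReal.ofReal (C ^ 2) * (v ^ (p / 2 - 1)) ^ (2 / p) ≠ ∞ := by
    refine ENNReal.mul_ne_top (ENNReal.mul_ne_top (ENNReal.mul_ne_top ?_ ?_) ?_) ?_
    · exact ENNReal.rpow_ne_top_of_nonneg (by linarith)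
        (ENNReal.mul_ne_top ENNReal.ofReal_ne_top hvRf)
    · exact ENNReal.rpow_ne_top_of_nonneg (div_nonneg (by linarith) hp0.le)
        (ENNReal.rpow_ne_top_of_nonneg (by linarith) hvf)
    · exact ENNReal.ofReal_ne_top
    · exact ENNReal.rpow_ne_top_of_nonneg (by positivity)
        (ENNReal.rpow_ne_top_of_nonneg (by linarith) hvf)
  obtain ⟨K, hK, hle⟩ := const_le hcf
  refine ⟨K, hK, ?_⟩
  intro M hM f hf hm hs
  obtain ⟨h1, h2⟩ := L12 hm hs hp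
  set X : ℝ≥0∞ := ∫⁻ z, ‖f z‖ₑ ^ p with hX
  have hn1 : ∫⁻ z, ‖f z‖ₑ ≤ (v ^ (p - 1) * X) ^ (1 / p) := by
    have h3 := ENNReal.rpow_le_rpow h1 (z := 1 / p) (by positivity)
    rw [← ENNReal.rpow_mul, mul_one_div_cancel hp0.ne', ENNReal.rpow_one] at h3
    exact h3
  have hn2 : ∫⁻ z, ‖f z‖ₑ ^ (2 : ℝ) ≤ (v ^ (p / 2 - 1) * X) ^ (2 / p) := by
    have h3 := ENNReal.rpow_le_rpow h2 (z := 2 / p) (by positivity)
    have h4 : p / 2 * (2 / p) = 1 := by field_simp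
    rw [← ENNReal.rpow_mul, h4, ENNReal.rpow_one] at h3
    exact h3
  have hB : ∀ z, ‖TM M f z‖ₑ ≤ ENNReal.ofReal C * vR * ∫⁻ z, ‖f z‖ₑ := by
    intro z
    unfold TM
    have h5 : ∀ ζ : W, ‖e (⟪z, ζ⟫ : ℝ) * (M ‖ζ‖ * 𝓕 f ζ)‖ₑ ≤
        (Metric.closedBall (0 : W) R).indicator (fun _ => ENNReal.ofReal C * ∫⁻ z, ‖f z‖ₑ) ζ := by
      intro ζ
      by_cases hζ : ζ ∈ Metric.closedBall (0 : W) R
      · rw [indicator_of_mem hζ, enorm_mul, ← ofReal_norm (e (⟪z, ζ⟫ : ℝ)), norm_e,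
          ENNReal.ofReal_one, one_mul, enorm_mul]
        refine mul_le_mul' ?_ ?_
        · rw [← ofReal_norm]
          exact ENNReal.ofReal_le_ofReal (hM.bdd _ (norm_nonneg _))
        · rw [F_eq]
          refine (enorm_integral_le_lintegral_enorm _).trans (le_of_eq ?_)
          refine lintegral_congr fun w => ?_
          rw [enorm_mul, ← ofReal_norm (e (-(⟪w, ζ⟫ : ℝ))), norm_e, ENNReal.ofReal_one, one_mul]
      · rw [indicator_of_notMem hζ, hM.supp _ (by simpa using hζ)]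
        simp
    calc ‖∫ ζ : W, e (⟪z, ζ⟫ : ℝ) * (M ‖ζ‖ * 𝓕 f ζ)‖ₑ
        ≤ ∫⁻ ζ : W, ‖e (⟪z, ζ⟫ : ℝ) * (M ‖ζ‖ * 𝓕 f ζ)‖ₑ := enorm_integral_le_lintegral_enorm _
      _ ≤ ∫⁻ ζ : W, (Metric.closedBall (0 : W) R).indicator
          (fun _ => ENNReal.ofReal C * ∫⁻ z, ‖f z‖ₑ) ζ := lintegral_mono h5
      _ = _ := by
          rw [lintegral_indicator Metric.isClosed_closedBall.measurableSet,
            lintegral_const, Measure.restrict_apply_univ]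
          ring
  have h3 := TM_L2 hM hf
  calc ∫⁻ z, ‖TM M f z‖ₑ ^ p
      ≤ ∫⁻ z, (ENNReal.ofReal C * vR * ∫⁻ z, ‖f z‖ₑ) ^ (p - 2) * ‖TM M f z‖ₑ ^ 2 := by
        refine lintegral_mono fun z => ?_
        calc ‖TM M f z‖ₑ ^ p = ‖TM M f z‖ₑ ^ (p - 2) * ‖TM M f z‖ₑ ^ (2 : ℝ) := by
              rw [← ENNReal.rpow_add_of_nonneg _ _ (by linarith) (by norm_num)]
              congr 1
              ring
          _ ≤ _ := by
              rw [ENNReal.rpow_two]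
              exact mul_le_mul_left (ENNReal.rpow_le_rpow (hB z) (by linarith)) _
    _ = (ENNReal.ofReal C * vR * ∫⁻ z, ‖f z‖ₑ) ^ (p - 2) * ∫⁻ z, ‖TM M f z‖ₑ ^ 2 :=
        lintegral_const_mul _ ((TM_meas1 hM.meas hf).enorm.pow_const 2)
    _ ≤ (ENNReal.ofReal C * vR * (v ^ (p - 1) * X) ^ (1 / p)) ^ (p - 2) *
        (ENNReal.ofReal (C ^ 2) * (v ^ (p / 2 - 1) * X) ^ (2 / p)) := by
        refine mul_le_mul' (ENNReal.rpow_le_rpow (mul_le_mul_right hn1 _) (by linarith))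
          (h3.trans (mul_le_mul_right ?_ _))
        have h6 : ∫⁻ z, ‖f z‖ₑ ^ 2 = ∫⁻ z, ‖f z‖ₑ ^ (2 : ℝ) :=
          lintegral_congr fun z => by rw [ENNReal.rpow_two]
        rw [h6]
        exact hn2
    _ = ((ENNReal.ofReal C * vR) ^ (p - 2) * (v ^ (p - 1)) ^ ((p - 2) / p) *
      ENNReal.ofReal (C ^ 2) * (v ^ (p / 2 - 1)) ^ (2 / p)) * (X ^ ((p - 2) / p) * X ^ (2 / p)) := by
        have hp2 : 0 ≤ p - 2 := by linarith
        have e1 : 1 / p * (p - 2) = (p - 2) / p := by ring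
        rw [ENNReal.mul_rpow_of_nonneg _ _ hp2, ← ENNReal.rpow_mul, e1,
          ENNReal.mul_rpow_of_nonneg _ _ (div_nonneg hp2 hp0.le),
          ENNReal.mul_rpow_of_nonneg _ _ (by positivity : (0 : ℝ) ≤ 2 / p)]
        ring
    _ ≤ ENNReal.ofReal K * X := by
        have e2 : X ^ ((p - 2) / p) * X ^ (2 / p) = X := by
          rw [← ENNReal.rpow_add_of_nonneg _ _ (div_nonneg (by linarith) hp0.le) (by positivity)]
          have : (p - 2) / p + 2 / p = 1 := by field_simp; ring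
          rw [this, ENNReal.rpow_one]
        rw [e2]
        exact mul_le_mul_left hle _

/-! ### high frequencies -/

/-- the high frequency part -/
noncomputable def Ht (τ a b t ρ : ℝ) : ℂ :=
  e (t * ρ) * ((wS τ a b (ρ ^ 2) * (1 - th (ρ ^ 2)) : ℝ) : ℂ)

/-- the partial sums -/
noncomputable def HJ (τ a b : ℝ) (J : ℕ) (t ρ : ℝ) : ℂ :=
  e (t * ρ) * ((wS τ a b (ρ ^ 2) * (th (ρ ^ 2 / 4 ^ J) - th (ρ ^ 2)) : ℝ) : ℂ)

theorem th_meas : Measurable th := th_smooth.continuous.measurable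

theorem wS_meas (τ a b : ℝ) : Measurable (wS τ a b) := by
  unfold wS
  refine Measurable.mul (Measurable.mul (by fun_prop) ?_) ?_
  · exact Measurable.pow_const (by fun_prop) _
  · exact Measurable.pow_const (by fun_prop) _

theorem HJ_meas (τ a b : ℝ) (J : ℕ) : Measurable (Function.uncurry (HJ τ a b J)) := by
  unfold HJ Function.uncurry
  refine (measurable_e.comp (by fun_prop)).mul (Complex.measurable_ofReal.comp ?_)
  refine Measurable.mul ((wS_meas τ a b).comp (by fun_prop)) (Measurable.sub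
    (th_meas.comp (by fun_prop)) (th_meas.comp (by fun_prop)))

theorem Ht_meas (τ a b : ℝ) : Measurable (Function.uncurry (Ht τ a b)) := by
  unfold Ht Function.uncurry
  refine (measurable_e.comp (by fun_prop)).mul (Complex.measurable_ofReal.comp ?_)
  refine Measurable.mul ((wS_meas τ a b).comp (by fun_prop)) (Measurable.sub
    measurable_const (th_meas.comp (by fun_prop)))

theorem wS_le {τ a b σ : ℝ} (hab : a + b ≤ 0) (hσ : 1 ≤ σ) :
    |wS τ a b σ| ≤ (1 + 4 * Real.pi ^ 2) ^ |a| * Real.exp (-(τ * σ)) := by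
  have hσ0 : 0 < σ := by linarith
  have hpi2 : 1 ≤ 4 * Real.pi ^ 2 := by nlinarith [Real.pi_gt_three]
  have h1 : 0 < 1 + 4 * Real.pi ^ 2 * σ := by positivity
  unfold wS
  rw [zero_add, one_mul, abs_of_nonneg (by positivity), mul_assoc, mul_comm]
  refine mul_le_mul_of_nonneg_right ?_ (Real.exp_pos _).le
  have h2 : 1 + 4 * Real.pi ^ 2 * σ = ((1 + 4 * Real.pi ^ 2 * σ) / σ) * σ := by field_simp
  rw [h2, Real.mul_rpow (by positivity) hσ0.le, mul_assoc, ← Real.rpow_add hσ0]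
  have h3 : σ ^ (a + b) ≤ 1 := Real.rpow_le_one_of_one_le_of_nonpos hσ hab
  have h4 : ((1 + 4 * Real.pi ^ 2 * σ) / σ) ^ a ≤ (1 + 4 * Real.pi ^ 2) ^ |a| := by
    refine rpow_abs_le (by linarith) ?_ ?_
    · rw [le_div_iff₀ hσ0]
      have h5 : (1 + 4 * Real.pi ^ 2)⁻¹ ≤ 1 := inv_le_one_of_one_le₀ (by linarith)
      nlinarith
    · rw [div_le_iff₀ hσ0]
      nlinarith
  calc _ ≤ (1 + 4 * Real.pi ^ 2) ^ |a| * 1 :=
        mul_le_mul h4 h3 (by positivity) (by positivity)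
    _ = _ := mul_one _

theorem H_le {τ a b : ℝ} (hab : a + b ≤ 0) (t ρ x : ℝ) (hx0 : 0 ≤ x) (hx1 : x ≤ 1)
    (hx : ρ ^ 2 ≤ 1 → x = 1) :
    ‖e (t * ρ) * ((wS τ a b (ρ ^ 2) * (x - th (ρ ^ 2)) : ℝ) : ℂ)‖ ≤
      (1 + 4 * Real.pi ^ 2) ^ |a| * Real.exp (-(τ * ρ ^ 2)) := by
  rw [norm_mul, norm_e, one_mul, Complex.norm_real, Real.norm_eq_abs, abs_mul]
  rcases le_or_gt (ρ ^ 2) 1 with h | h
  · rw [hx h, th_one h, sub_self, abs_zero, mul_zero]
    positivity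
  · have h1 := wS_le (τ := τ) hab h.le
    have h2 : |x - th (ρ ^ 2)| ≤ 1 := by
      have := th_nonneg (ρ ^ 2)
      have := th_le_one (ρ ^ 2)
      rw [abs_le]
      constructor <;> linarith
    calc |wS τ a b (ρ ^ 2)| * |x - th (ρ ^ 2)| ≤ |wS τ a b (ρ ^ 2)| * 1 :=
          mul_le_mul_of_nonneg_left h2 (abs_nonneg _)
      _ ≤ _ := by rw [mul_one]; exact h1

theorem HJ_le {τ a b : ℝ} (hab : a + b ≤ 0) (J : ℕ) (t ρ : ℝ) :
    ‖HJ τ a b J t ρ‖ ≤ (1 + 4 * Real.pi ^ 2) ^ |a| * Real.exp (-(τ * ρ ^ 2)) := by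
  unfold HJ
  refine H_le hab t ρ _ (th_nonneg _) (th_le_one _) fun h => th_one ?_
  rw [div_le_one (by positivity)]
  exact h.trans (one_le_pow₀ (by norm_num))

theorem Ht_le {τ a b : ℝ} (hab : a + b ≤ 0) (t ρ : ℝ) :
    ‖Ht τ a b t ρ‖ ≤ (1 + 4 * Real.pi ^ 2) ^ |a| * Real.exp (-(τ * ρ ^ 2)) := by
  unfold Ht
  exact H_le hab t ρ 1 zero_le_one le_rfl fun _ => rfl

theorem gauss_W {τ : ℝ} (hτ : 0 < τ) : Integrable (fun ζ : W => Real.exp (-(τ * ‖ζ‖ ^ 2))) := by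
  have h := GaussianFourier.integrable_cexp_neg_mul_sq_norm_add (V := W) (b := (τ : ℂ))
    (by simpa using hτ) 0 0
  refine h.norm.congr (Eventually.of_forall fun ζ => ?_)
  simp only
  rw [Complex.norm_exp]
  congr 1
  have : (-(τ : ℂ) * (‖ζ‖ : ℂ) ^ 2 + 0 * ((⟪(0 : W), ζ⟫ : ℝ) : ℂ)) =
      ((-(τ * ‖ζ‖ ^ 2) : ℝ) : ℂ) := by
    push_cast
    ring
  rw [this, Complex.ofReal_re]

theorem int_of_gauss {τ K : ℝ} (hτ : 0 < τ) {M : ℝ → ℂ} (hM : Measurable M)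
    (hb : ∀ ρ, 0 ≤ ρ → ‖M ρ‖ ≤ K * Real.exp (-(τ * ρ ^ 2))) {f : W → ℂ} (hf : Integrable f)
    (z : W) : Integrable (fun ζ : W => e (⟪z, ζ⟫ : ℝ) * (M ‖ζ‖ * 𝓕 f ζ)) := by
  refine int_eMF ?_ z
  refine Integrable.mono' (((gauss_W hτ).const_mul K).mul_const (∫ z, ‖f z‖)) ?_ ?_
  · exact ((hM.comp measurable_norm).mul (cont_F hf).measurable).aestronglyMeasurable
  · refine Eventually.of_forall fun ζ => ?_
    rw [norm_mul]
    have h5 := hb ‖ζ‖ (norm_nonneg _)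
    exact mul_le_mul h5 (norm_F_le f ζ) (norm_nonneg _) ((norm_nonneg _).trans h5)

theorem HJ_sum (τ a b : ℝ) (J : ℕ) (t ρ : ℝ) :
    HJ τ a b J t ρ = ∑ j ∈ Finset.range J, Mt (Psi τ a b (2 ^ (j + 1))) t ρ := by
  unfold HJ Mt Psi
  rw [← Finset.mul_sum]
  congr 1
  rw [← Complex.ofReal_sum, ← Finset.mul_sum]
  congr 2
  have h1 : ∀ j ∈ Finset.range J, chi (ρ ^ 2 / ((2 : ℝ) ^ (j + 1)) ^ 2) =
      th (ρ ^ 2 / 4 ^ (j + 1)) - th (ρ ^ 2 / 4 ^ j) := by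
    intro j _
    unfold chi
    have e1 : ((2 : ℝ) ^ (j + 1)) ^ 2 = 4 ^ (j + 1) := by
      rw [← pow_mul, mul_comm, pow_mul]
      norm_num
    have e2 : 4 * (ρ ^ 2 / (4 : ℝ) ^ (j + 1)) = ρ ^ 2 / 4 ^ j := by
      rw [← mul_div_assoc, div_eq_div_iff (by positivity) (by positivity), pow_succ]
      ring
    rw [e1, e2]
  rw [Finset.sum_congr rfl h1, Finset.sum_range_sub (fun j => th (ρ ^ 2 / 4 ^ j))]
  simp

end Pool.Agent.Helper66K9.LS
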