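import Pool.Agent.Helper66K9.LS.Ker2
set_option autoImplicit false

/-! # The uniform bound for data supported in a ball -/

namespace Pool.Agent.Helper66K9.LS

open MeasureTheory Set Filter
open scoped ENNReal FourierTransform RealInnerProductSpace Topology ContDiff SchwartzMap
open Pool.Agent.TH280.LS (e norm_e e_add measurable_e continuous_e plancherel e_conj)

variable {W : Type*} [NormedAddCommGroup W] [InnerProductSpace ℝ W] [FiniteDimensional ℝ W]
  [MeasurableSpace W] [BorelSpace W]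

theorem cauchy_int {N : ℝ} (hN : 0 < N) (a : ℝ) :
    Integrable (fun r : ℝ => (1 + N ^ 2 * (r - a) ^ 2)⁻¹) ∧
    ∫ r : ℝ, (1 + N ^ 2 * (r - a) ^ 2)⁻¹ = Real.pi / N := by
  have h1 : (fun r : ℝ => (1 + N ^ 2 * (r - a) ^ 2)⁻¹) =
      fun r : ℝ => (fun s : ℝ => (fun x : ℝ => (1 + x ^ 2)⁻¹) (N * s)) (r - a) := by
    funext r
    simp only
    rw [mul_pow]
  have i0 : Integrable (fun s : ℝ => (fun x : ℝ => (1 + x ^ 2)⁻¹) (N * s)) :=
    integrable_inv_one_add_sq.comp_mul_left' hN.ne'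
  rw [h1]
  refine ⟨i0.comp_sub_right a, ?_⟩
  rw [integral_sub_right_eq_self (fun s : ℝ => (fun x : ℝ => (1 + x ^ 2)⁻¹) (N * s)) a,
    Measure.integral_comp_mul_left (fun x : ℝ => (1 + x ^ 2)⁻¹) N, integral_univ_inv_one_add_sq,
    smul_eq_mul, abs_of_pos (inv_pos.2 hN)]
  field_simp

/-- the cone has a small neighbourhood -/
theorem cone_bound [Nontrivial W] (R0 : ℝ) (hR0 : 0 ≤ R0) : ∃ C : ℝ, 0 < C ∧ ∀ N : ℝ, 1 ≤ N →
    ∀ t : ℝ, 1 ≤ |t| → |t| ≤ 2 → ∀ z : W,
    ∫⁻ w in Metric.closedBall (0 : W) R0,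
      (ENNReal.ofReal (1 + N ^ 2 * (‖z - w‖ ^ 2 - t ^ 2) ^ 2))⁻¹ ≤ ENNReal.ofReal (C / N) := by
  set q := Module.finrank ℝ W with hq
  set R1 : ℝ := 2 * R0 + 3 with hR1
  set cB : ℝ := volume.real (Metric.ball (0 : W) 1) with hcB
  set vB : ℝ := volume.real (Metric.closedBall (0 : W) R0) with hvB
  have hcB0 : 0 ≤ cB := measureReal_nonneg
  have hvB0 : 0 ≤ vB := measureReal_nonneg
  have hR10 : 0 < R1 := by positivity
  refine ⟨q * cB * R1 ^ (q - 1) * Real.pi + vB + 1, by positivity, ?_⟩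
  intro N hN t ht1 ht2 z
  have hN0 : 0 < N := by linarith
  have hwpos : ∀ w : W, 0 < 1 + N ^ 2 * (‖z - w‖ ^ 2 - t ^ 2) ^ 2 := fun w => by positivity
  by_cases hz : ‖z‖ ≤ R0 + 3
  · -- near case
    set F : ℝ → ℝ := fun r => if r ≤ R1 then (1 + N ^ 2 * (r - |t|) ^ 2)⁻¹ else 0 with hF
    have hF0 : ∀ r, 0 ≤ F r := by
      intro r
      simp only [hF]
      split_ifs
      · positivity
      · exact le_rfl
    have hFle : ∀ r, F r ≤ (1 + N ^ 2 * (r - |t|) ^ 2)⁻¹ := by
      intro r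
      simp only [hF]
      split_ifs
      · exact le_rfl
      · positivity
    have hFm : Measurable F := by
      refine Measurable.ite (measurableSet_le measurable_id measurable_const) ?_ measurable_const
      fun_prop
    have hstep : ∫⁻ w in Metric.closedBall (0 : W) R0,
        (ENNReal.ofReal (1 + N ^ 2 * (‖z - w‖ ^ 2 - t ^ 2) ^ 2))⁻¹ ≤
        ∫⁻ w : W, ENNReal.ofReal (F ‖z - w‖) := by
      rw [← lintegral_indicator Metric.isClosed_closedBall.measurableSet]
      refine lintegral_mono fun w => ?_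
      by_cases hw : w ∈ Metric.closedBall (0 : W) R0
      · rw [indicator_of_mem hw]
        have hw' : ‖w‖ ≤ R0 := by simpa using hw
        have h1 : ‖z - w‖ ≤ R1 := by
          have := norm_sub_le z w
          simp only [hR1]
          linarith
        simp only [hF, if_pos h1]
        rw [← ENNReal.ofReal_inv_of_pos (hwpos w)]
        apply ENNReal.ofReal_le_ofReal
        have h2 : (‖z - w‖ - |t|) ^ 2 ≤ (‖z - w‖ ^ 2 - t ^ 2) ^ 2 := by
          have h3 : ‖z - w‖ ^ 2 - t ^ 2 = (‖z - w‖ - |t|) * (‖z - w‖ + |t|) := by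
            rw [← sq_abs t]; ring
          rw [h3, mul_pow]
          have h4 : 1 ≤ (‖z - w‖ + |t|) ^ 2 := by
            have := norm_nonneg (z - w)
            nlinarith
          nlinarith [sq_nonneg (‖z - w‖ - |t|)]
        gcongr
      · rw [indicator_of_notMem hw]
        exact zero_le
    refine hstep.trans ?_
    have hinv : ∫⁻ w : W, ENNReal.ofReal (F ‖z - w‖) = ∫⁻ w : W, ENNReal.ofReal (F ‖w‖) :=
      lintegral_sub_left_eq_self (fun w : W => ENNReal.ofReal (F ‖w‖)) z
    rw [hinv]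
    obtain ⟨i1, e1⟩ := cauchy_int hN0 |t|
    have iF : IntegrableOn (fun y : ℝ => y ^ (q - 1) • F y) (Ioi 0) := by
      refine Integrable.mono' (i1.integrableOn.const_mul (R1 ^ (q - 1))) ?_ ?_
      · exact (((measurable_id.pow_const _)).mul hFm).aestronglyMeasurable
      · rw [ae_restrict_iff' measurableSet_Ioi]
        refine Eventually.of_forall fun y hy => ?_
        have hy0 : (0 : ℝ) < y := hy
        rw [smul_eq_mul, norm_mul, Real.norm_eq_abs, Real.norm_eq_abs, abs_of_nonneg (hF0 y),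
          abs_of_pos (pow_pos hy0 _)]
        by_cases hyR : y ≤ R1
        · have := hFle y
          gcongr
        · have : F y = 0 := by simp only [hF, if_neg hyR]
          rw [this, mul_zero]
          positivity
    have iFW : Integrable (fun w : W => F ‖w‖) := by
      rw [integrable_fun_norm_addHaar (volume : Measure W) (f := F)]
      exact iF
    rw [← ofReal_integral_eq_lintegral_ofReal iFW (Eventually.of_forall fun w => hF0 _)]
    apply ENNReal.ofReal_le_ofReal
    rw [integral_fun_norm_addHaar (volume : Measure W) F]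
    have h3 : ∫ y in Ioi (0 : ℝ), y ^ (q - 1) • F y ≤ R1 ^ (q - 1) * (Real.pi / N) := by
      rw [← e1, ← integral_const_mul]
      refine (integral_mono_of_nonneg ?_ (i1.integrableOn.const_mul (R1 ^ (q - 1))) ?_).trans
        (setIntegral_le_integral (i1.const_mul _) (Eventually.of_forall fun y => by
          simp only [Pi.zero_apply]; positivity))
      · rw [EventuallyLE, ae_restrict_iff' measurableSet_Ioi]
        refine Eventually.of_forall fun y hy => ?_
        have hy0 : (0 : ℝ) < y := hy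
        have := hF0 y
        simp only [Pi.zero_apply, smul_eq_mul]
        positivity
      · rw [EventuallyLE, ae_restrict_iff' measurableSet_Ioi]
        refine Eventually.of_forall fun y hy => ?_
        have hy0 : (0 : ℝ) < y := hy
        simp only [smul_eq_mul]
        by_cases hyR : y ≤ R1
        · have := hFle y
          have := hF0 y
          gcongr
        · have : F y = 0 := by simp only [hF, if_neg hyR]
          rw [this, mul_zero]
          positivity
    rw [nsmul_eq_mul, smul_eq_mul, ← hq, ← hcB]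
    calc (q : ℝ) * (cB * ∫ y in Ioi (0 : ℝ), y ^ (q - 1) • F y)
        ≤ q * (cB * (R1 ^ (q - 1) * (Real.pi / N))) := by gcongr
      _ = (q * cB * R1 ^ (q - 1) * Real.pi) / N := by ring
      _ ≤ _ := by
          gcongr
          linarith
  · -- far case
    push Not at hz
    calc ∫⁻ w in Metric.closedBall (0 : W) R0,
        (ENNReal.ofReal (1 + N ^ 2 * (‖z - w‖ ^ 2 - t ^ 2) ^ 2))⁻¹
        ≤ ∫⁻ w in Metric.closedBall (0 : W) R0, ENNReal.ofReal (1 / N) := by
          refine setLIntegral_mono' Metric.isClosed_closedBall.measurableSet fun w hw => ?_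
          have hw' : ‖w‖ ≤ R0 := by simpa using hw
          have h1 : 3 ≤ ‖z - w‖ := by
            have := norm_sub_norm_le z w
            linarith
          rw [← ENNReal.ofReal_inv_of_pos (hwpos w)]
          apply ENNReal.ofReal_le_ofReal
          rw [← one_div]
          apply one_div_le_one_div_of_le hN0
          have h2 : t ^ 2 ≤ 4 := by
            rw [← sq_abs]
            nlinarith [abs_nonneg t]
          have h3 : 1 ≤ ‖z - w‖ ^ 2 - t ^ 2 := by nlinarith
          have h4 : 1 ≤ (‖z - w‖ ^ 2 - t ^ 2) ^ 2 := by nlinarith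
          nlinarith
      _ = ENNReal.ofReal (vB / N) := by
          rw [setLIntegral_const, hvB, Measure.real, ← ENNReal.ofReal_toReal
            (measure_closedBall_lt_top (x := (0 : W)) (r := R0)).ne,
            ← ENNReal.ofReal_mul (by positivity)]
          congr 1
          rw [ENNReal.toReal_ofReal ENNReal.toReal_nonneg]
          ring
      _ ≤ _ := by
          apply ENNReal.ofReal_le_ofReal
          gcongr
          have : 0 ≤ q * cB * R1 ^ (q - 1) * Real.pi := by positivity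
          linarith

/-- the uniform bound -/
theorem sup_bound [Nontrivial W] (R0 : ℝ) (hR0 : 0 ≤ R0) : ∃ C : ℝ, 0 < C ∧ ∀ (N A : ℝ)
    (Ψ : ℝ → ℝ), 1 ≤ N → Sym N A Ψ → ∀ t : ℝ, 1 ≤ |t| → |t| ≤ 2 → ∀ V : W → ℂ, Integrable V →
    (∀ w, R0 < ‖w‖ → V w = 0) → ∀ l : ℝ, 0 ≤ l → (∀ w, ‖V w‖ ≤ l) → ∀ z : W,
    ‖TM (Mt Ψ t) V z‖ ≤ C * A * N ^ (((Module.finrank ℝ W : ℝ) - 1) / 2) * l := by
  obtain ⟨C1, hC1, hc⟩ := cone_bound (W := W) R0 hR0
  set q := Module.finrank ℝ W with hq
  set cB : ℝ := volume.real (Metric.ball (0 : W) 1) with hcB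
  have hcB0 : 0 ≤ cB := measureReal_nonneg
  set C2 : ℝ := (1 + (2 * q + 4) ^ 2) * (2 ^ q * cB) with hC2
  have hC20 : 0 ≤ C2 := by positivity
  refine ⟨(C2 * C1) ^ (1 / 2 : ℝ) + 1, by positivity, ?_⟩
  intro N A Ψ hN h t ht1 ht2 V hV hs l hl hVl z
  have hN0 : 0 < N := by linarith
  have hA := h.nonneg
  set wg : W → ℝ := fun v => 1 + N ^ 2 * (‖v‖ ^ 2 - t ^ 2) ^ 2 with hwg
  have hwg0 : ∀ v, 0 < wg v := fun v => by simp only [hwg]; positivity
  have hwgm : Measurable wg := by simp only [hwg]; fun_prop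
  have hKm : Measurable (Kt W Ψ t) := by
    have : Kt W Ψ t = fun z => (𝓕 (gS hN h t : 𝓢(W, ℂ)) : 𝓢(W, ℂ)) (-z) :=
      funext fun z => Kt_eq hN h t z
    rw [this]
    exact ((SchwartzMap.continuous _).comp continuous_neg).measurable
  obtain ⟨iK, eK⟩ := Kt_L2 (W := W) hN h ht2
  have hK2 : ∫⁻ v : W, ENNReal.ofReal (wg v) * ‖Kt W Ψ t v‖ₑ ^ 2 ≤
      ENNReal.ofReal (C2 * A ^ 2 * N ^ q) := by
    have h1 : ∀ v : W, ENNReal.ofReal (wg v) * ‖Kt W Ψ t v‖ₑ ^ 2 =
        ENNReal.ofReal (wg v * ‖Kt W Ψ t v‖ ^ 2) := by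
      intro v
      rw [ENNReal.ofReal_mul (hwg0 v).le, ← ofReal_norm, ENNReal.ofReal_pow (norm_nonneg _)]
    simp_rw [h1]
    rw [← ofReal_integral_eq_lintegral_ofReal iK (Eventually.of_forall fun v => by
      have := hwg0 v
      simp only [Pi.zero_apply]
      positivity)]
    apply ENNReal.ofReal_le_ofReal
    refine eK.trans (le_of_eq ?_)
    rw [Measure.addHaar_real_closedBall _ _ (by positivity), ← hq, ← hcB, hC2, mul_pow]
    ring
  have hcs : ∫⁻ w in Metric.closedBall (0 : W) R0, ‖Kt W Ψ t (z - w)‖ₑ ≤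
      ENNReal.ofReal (C2 * A ^ 2 * N ^ q) ^ (1 / 2 : ℝ) * ENNReal.ofReal (C1 / N) ^ (1 / 2 : ℝ) := by
    set f : W → ℝ≥0∞ := fun w => ENNReal.ofReal (Real.sqrt (wg (z - w))) * ‖Kt W Ψ t (z - w)‖ₑ
      with hf
    set g : W → ℝ≥0∞ := fun w => (ENNReal.ofReal (Real.sqrt (wg (z - w))))⁻¹ with hg
    have hzm : Measurable (fun w : W => z - w) := by fun_prop
    have hm1 : Measurable (fun w : W => ENNReal.ofReal (Real.sqrt (wg (z - w)))) :=
      ((hwgm.comp hzm).sqrt).ennreal_ofReal
    have hm2 : Measurable (fun w : W => ‖Kt W Ψ t (z - w)‖ₑ) := (hKm.comp hzm).enorm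
    have hfm : Measurable f := hm1.mul hm2
    have hgm : Measurable g := hm1.inv
    have h1 : ∀ w, ‖Kt W Ψ t (z - w)‖ₑ = (f * g) w := by
      intro w
      simp only [hf, hg, Pi.mul_apply]
      have h2 : ENNReal.ofReal (Real.sqrt (wg (z - w))) ≠ 0 := by
        rw [Ne, ENNReal.ofReal_eq_zero, not_le]
        exact Real.sqrt_pos.2 (hwg0 _)
      rw [mul_right_comm, ENNReal.mul_inv_cancel h2 ENNReal.ofReal_ne_top, one_mul]
    simp_rw [h1]
    refine (ENNReal.lintegral_mul_le_Lp_mul_Lq (volume.restrict (Metric.closedBall (0 : W) R0))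
      Real.HolderConjugate.two_two hfm.aemeasurable hgm.aemeasurable).trans ?_
    have h3 : ∫⁻ w in Metric.closedBall (0 : W) R0, f w ^ (2 : ℝ) ≤
        ENNReal.ofReal (C2 * A ^ 2 * N ^ q) := by
      refine (setLIntegral_le_lintegral _ _).trans ?_
      have h4 : ∀ w, f w ^ (2 : ℝ) =
          (fun v => ENNReal.ofReal (wg v) * ‖Kt W Ψ t v‖ₑ ^ 2) (z - w) := by
        intro w
        simp only [hf]
        rw [show (2 : ℝ) = ((2 : ℕ) : ℝ) by norm_num, ENNReal.rpow_natCast, mul_pow,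
          ← ENNReal.ofReal_pow (Real.sqrt_nonneg _), Real.sq_sqrt (hwg0 _).le]
      simp_rw [h4]
      rw [lintegral_sub_left_eq_self (fun v => ENNReal.ofReal (wg v) * ‖Kt W Ψ t v‖ₑ ^ 2) z]
      exact hK2
    have h5 : ∫⁻ w in Metric.closedBall (0 : W) R0, g w ^ (2 : ℝ) ≤ ENNReal.ofReal (C1 / N) := by
      have h4 : ∀ w, g w ^ (2 : ℝ) = (ENNReal.ofReal (1 + N ^ 2 * (‖z - w‖ ^ 2 - t ^ 2) ^ 2))⁻¹ := by
        intro w
        simp only [hg]
        rw [show (2 : ℝ) = ((2 : ℕ) : ℝ) by norm_num, ENNReal.rpow_natCast, ← ENNReal.inv_pow,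
          ← ENNReal.ofReal_pow (Real.sqrt_nonneg _), Real.sq_sqrt (hwg0 _).le]
      simp_rw [h4]
      exact hc N hN t ht1 ht2 z
    gcongr
  have hker : TM (Mt Ψ t) V z = ∫ w : W, Kt W Ψ t (z - w) * V w := TM_kernel (Mt_mul hN h t) hV z
  have hfin : ‖TM (Mt Ψ t) V z‖ₑ ≤ ENNReal.ofReal
      (((C2 * C1) ^ (1 / 2 : ℝ)) * A * N ^ (((q : ℝ) - 1) / 2) * l) := by
    rw [hker]
    calc ‖∫ w : W, Kt W Ψ t (z - w) * V w‖ₑ ≤ ∫⁻ w : W, ‖Kt W Ψ t (z - w) * V w‖ₑ :=
          enorm_integral_le_lintegral_enorm _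
      _ ≤ ∫⁻ w in Metric.closedBall (0 : W) R0, ‖Kt W Ψ t (z - w)‖ₑ * ENNReal.ofReal l := by
          rw [← lintegral_indicator Metric.isClosed_closedBall.measurableSet]
          refine lintegral_mono fun w => ?_
          by_cases hw : w ∈ Metric.closedBall (0 : W) R0
          · rw [indicator_of_mem hw, enorm_mul]
            gcongr
            rw [← ofReal_norm]
            exact ENNReal.ofReal_le_ofReal (hVl w)
          · rw [indicator_of_notMem hw, hs w (by simpa using hw)]
            simp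
      _ = (∫⁻ w in Metric.closedBall (0 : W) R0, ‖Kt W Ψ t (z - w)‖ₑ) * ENNReal.ofReal l :=
          lintegral_mul_const' _ _ ENNReal.ofReal_ne_top
      _ ≤ (ENNReal.ofReal (C2 * A ^ 2 * N ^ q) ^ (1 / 2 : ℝ) *
            ENNReal.ofReal (C1 / N) ^ (1 / 2 : ℝ)) * ENNReal.ofReal l := by gcongr
      _ = _ := by
          rw [ENNReal.ofReal_rpow_of_nonneg (by positivity) (by norm_num),
            ENNReal.ofReal_rpow_of_nonneg (by positivity) (by norm_num),
            ← ENNReal.ofReal_mul (by positivity), ← ENNReal.ofReal_mul (by positivity)]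
          congr 2
          rw [← Real.mul_rpow (by positivity) (by positivity)]
          have h6 : C2 * A ^ 2 * N ^ q * (C1 / N) = (C2 * C1) * A ^ 2 * (N ^ ((q : ℝ) - 1)) := by
            rw [Real.rpow_sub hN0, Real.rpow_natCast, Real.rpow_one]
            ring
          rw [h6, Real.mul_rpow (by positivity) (by positivity),
            Real.mul_rpow (by positivity) (by positivity), ← Real.rpow_mul hN0.le,
            ← Real.sqrt_eq_rpow, ← Real.sqrt_eq_rpow, Real.sqrt_sq hA]
          congr 2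
          ring
  rw [← ofReal_norm] at hfin
  have h7 := (ENNReal.ofReal_le_ofReal_iff (by positivity)).1 hfin
  refine h7.trans ?_
  have h8 : (C2 * C1) ^ (1 / 2 : ℝ) ≤ (C2 * C1) ^ (1 / 2 : ℝ) + 1 := by linarith
  gcongr

end Pool.Agent.Helper66K9.LS
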