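import Pool.Agent.Helper66K9.LS.Ker
set_option autoImplicit false

/-! # The symbols -/

namespace Pool.Agent.Helper66K9.LS

open Set Filter
open scoped Topology ContDiff

/-- a smooth step -/
noncomputable def th (x : ℝ) : ℝ := Real.smoothTransition (2 - x)

theorem th_one {x : ℝ} (hx : x ≤ 1) : th x = 1 := by
  unfold th
  exact Real.smoothTransition.one_of_one_le (by linarith)

theorem th_zero {x : ℝ} (hx : 2 ≤ x) : th x = 0 := by
  unfold th
  exact Real.smoothTransition.zero_of_nonpos (by linarith)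

theorem th_nonneg (x : ℝ) : 0 ≤ th x := Real.smoothTransition.nonneg _

theorem th_le_one (x : ℝ) : th x ≤ 1 := Real.smoothTransition.le_one _

theorem th_smooth : ContDiff ℝ ∞ th := by
  unfold th
  exact Real.smoothTransition.contDiff.comp (contDiff_const.sub contDiff_id)

/-- the dyadic cutoff -/
noncomputable def chi (x : ℝ) : ℝ := th x - th (4 * x)

theorem chi_smooth : ContDiff ℝ ∞ chi := by
  unfold chi
  exact th_smooth.sub (th_smooth.comp (contDiff_const.mul contDiff_id))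

theorem chi_zero {x : ℝ} (hx : x ≤ 1 / 4 ∨ 2 ≤ x) : chi x = 0 := by
  unfold chi
  rcases hx with hx | hx
  · rw [th_one (by linarith), th_one (by linarith), sub_self]
  · rw [th_zero hx, th_zero (by linarith), sub_self]

theorem chi_cpt : HasCompactSupport chi := by
  refine HasCompactSupport.intro (isCompact_Icc (a := (1 / 4 : ℝ)) (b := 2)) fun x hx => ?_
  apply chi_zero
  rw [mem_Icc, not_and_or, not_le, not_le] at hx
  rcases hx with h | h
  · exact Or.inl h.le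
  · exact Or.inr h.le

theorem chi_bound : ∃ K : ℝ, 1 ≤ K ∧ ∀ x, |chi x| ≤ K ∧ |deriv chi x| ≤ K ∧
    |deriv (deriv chi) x| ≤ K := by
  have s1 : ContDiff ℝ ∞ (deriv chi) := (contDiff_infty_iff_deriv.1 chi_smooth).2
  have s2 : ContDiff ℝ ∞ (deriv (deriv chi)) := (contDiff_infty_iff_deriv.1 s1).2
  obtain ⟨K0, h0⟩ := chi_cpt.exists_bound_of_continuous chi_smooth.continuous
  obtain ⟨K1, h1⟩ := chi_cpt.deriv.exists_bound_of_continuous s1.continuous
  obtain ⟨K2, h2⟩ := chi_cpt.deriv.deriv.exists_bound_of_continuous s2.continuous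
  refine ⟨max 1 (max K0 (max K1 K2)), le_max_left _ _, fun x => ⟨?_, ?_, ?_⟩⟩
  · exact (h0 x).trans ((le_max_left _ _).trans (le_max_right _ _))
  · exact (h1 x).trans ((le_max_left _ _).trans ((le_max_right _ _).trans (le_max_right _ _)))
  · exact (h2 x).trans ((le_max_right _ _).trans ((le_max_right _ _).trans (le_max_right _ _)))

/-- bounds of a function and two derivatives at scale `N²` -/
structure SB (N A : ℝ) (g g1 g2 : ℝ → ℝ) : Prop where
  d1 : ∀ x, 0 < x → HasDerivAt g (g1 x) x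
  d2 : ∀ x, 0 < x → HasDerivAt g1 (g2 x) x
  b0 : ∀ x, N ^ 2 / 4 ≤ x → x ≤ 2 * N ^ 2 → |g x| ≤ A
  b1 : ∀ x, N ^ 2 / 4 ≤ x → x ≤ 2 * N ^ 2 → |g1 x| ≤ A / N ^ 2
  b2 : ∀ x, N ^ 2 / 4 ≤ x → x ≤ 2 * N ^ 2 → |g2 x| ≤ A / N ^ 4

theorem SB.mul {N A B : ℝ} (hN : 0 < N) {g g1 g2 h h1 h2 : ℝ → ℝ} (hg : SB N A g g1 g2)
    (hh : SB N B h h1 h2) : SB N (4 * A * B) (fun x => g x * h x)
      (fun x => g1 x * h x + g x * h1 x)
      (fun x => (g2 x * h x + g1 x * h1 x) + (g1 x * h1 x + g x * h2 x)) := by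
  have hA : 0 ≤ A := (abs_nonneg _).trans (hg.b0 (N ^ 2) (by nlinarith [sq_nonneg N])
    (by nlinarith [sq_nonneg N]))
  have hB : 0 ≤ B := (abs_nonneg _).trans (hh.b0 (N ^ 2) (by nlinarith [sq_nonneg N])
    (by nlinarith [sq_nonneg N]))
  have hN2 : 0 < N ^ 2 := by positivity
  have hAB : 0 ≤ A * B := mul_nonneg hA hB
  have hm : ∀ {a b x y : ℝ}, |a| ≤ x → |b| ≤ y → |a * b| ≤ x * y := by
    intro a b x y ha hb
    rw [abs_mul]
    exact mul_le_mul ha hb (abs_nonneg _) ((abs_nonneg _).trans ha)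
  refine ⟨?_, ?_, ?_, ?_, ?_⟩
  · intro x hx
    exact (hg.d1 x hx).mul (hh.d1 x hx)
  · intro x hx
    exact ((hg.d2 x hx).mul (hh.d1 x hx)).add ((hg.d1 x hx).mul (hh.d2 x hx))
  · intro x hx hx'
    have := hm (hg.b0 x hx hx') (hh.b0 x hx hx')
    change |g x * h x| ≤ _
    linarith
  · intro x hx hx'
    have e1 := hm (hg.b1 x hx hx') (hh.b0 x hx hx')
    have e2 := hm (hg.b0 x hx hx') (hh.b1 x hx hx')
    have e3 : A / N ^ 2 * B + A * (B / N ^ 2) ≤ 4 * A * B / N ^ 2 := by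
      have h3 : A / N ^ 2 * B + A * (B / N ^ 2) = 2 * (A * B) / N ^ 2 := by ring
      rw [h3]
      refine div_le_div_of_nonneg_right ?_ hN2.le
      linarith
    exact (abs_add_le _ _).trans ((add_le_add e1 e2).trans e3)
  · intro x hx hx'
    have e1 := hm (hg.b2 x hx hx') (hh.b0 x hx hx')
    have e2 := hm (hg.b1 x hx hx') (hh.b1 x hx hx')
    have e3 := hm (hg.b0 x hx hx') (hh.b2 x hx hx')
    refine (abs_add_le _ _).trans ((add_le_add (abs_add_le _ _) (abs_add_le _ _)).trans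
      ((add_le_add (add_le_add e1 e2) (add_le_add e2 e3)).trans (le_of_eq ?_)))
    field_simp
    ring

theorem y1_le (y : ℝ) : y * Real.exp (-y) ≤ 1 := by
  have h := Real.add_one_le_exp y
  rw [Real.exp_neg, ← div_eq_mul_inv, div_le_one (Real.exp_pos _)]
  linarith

theorem y2_le {y : ℝ} (hy : 0 ≤ y) : y ^ 2 * Real.exp (-y) ≤ 2 := by
  have h := Real.quadratic_le_exp_of_nonneg hy
  rw [Real.exp_neg, ← div_eq_mul_inv, div_le_iff₀ (Real.exp_pos _)]
  nlinarith

theorem SB_exp {N τ : ℝ} (hN : 0 < N) (hτ : 0 ≤ τ) : SB N 32 (fun x => Real.exp (-(τ * x)))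
    (fun x => -τ * Real.exp (-(τ * x))) (fun x => τ ^ 2 * Real.exp (-(τ * x))) := by
  have hN2 : 0 < N ^ 2 := by positivity
  have hd : ∀ x, HasDerivAt (fun x => Real.exp (-(τ * x))) (-τ * Real.exp (-(τ * x))) x := by
    intro x
    have h1 : HasDerivAt (fun x : ℝ => -(τ * x)) (-(τ * 1)) x := ((hasDerivAt_id x).const_mul τ).neg
    refine h1.exp.congr_deriv ?_
    ring
  refine ⟨fun x _ => hd x, fun x _ => ?_, ?_, ?_, ?_⟩
  · refine ((hd x).const_mul (-τ)).congr_deriv ?_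
    ring
  · intro x hx hx'
    have h0 : 0 ≤ τ * x := mul_nonneg hτ (by nlinarith)
    rw [abs_of_pos (Real.exp_pos _)]
    have : Real.exp (-(τ * x)) ≤ 1 := Real.exp_le_one_iff.2 (by linarith)
    linarith
  · intro x hx hx'
    have hx0 : 0 < x := by nlinarith
    rw [abs_mul, abs_neg, abs_of_nonneg hτ, abs_of_pos (Real.exp_pos _)]
    have h1 := y1_le (τ * x)
    have h2 : τ * Real.exp (-(τ * x)) = (τ * x * Real.exp (-(τ * x))) / x := by field_simp
    rw [h2, div_le_div_iff₀ hx0 hN2]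
    nlinarith
  · intro x hx hx'
    have hx0 : 0 < x := by nlinarith
    have hN4 : 0 < N ^ 4 := by positivity
    rw [abs_mul, abs_of_nonneg (sq_nonneg τ), abs_of_pos (Real.exp_pos _)]
    have h1 := y2_le (y := τ * x) (by positivity)
    have h2 : τ ^ 2 * Real.exp (-(τ * x)) = ((τ * x) ^ 2 * Real.exp (-(τ * x))) / x ^ 2 := by
      field_simp
    rw [h2, div_le_div_iff₀ (by positivity) hN4]
    have h3 : (N ^ 2 / 4) ^ 2 ≤ x ^ 2 := pow_le_pow_left₀ (by positivity) hx 2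
    have h4 : N ^ 4 ≤ 16 * x ^ 2 := by nlinarith
    calc (τ * x) ^ 2 * Real.exp (-(τ * x)) * N ^ 4 ≤ 2 * (16 * x ^ 2) :=
          mul_le_mul h1 h4 hN4.le (by norm_num)
      _ = _ := by ring

theorem rpow_abs_le {x c : ℝ} {K : ℝ} (hK : 1 ≤ K) (hx : K⁻¹ ≤ x) (hx' : x ≤ K) :
    x ^ c ≤ K ^ |c| := by
  have hK0 : 0 < K := by linarith
  have hx0 : 0 < x := lt_of_lt_of_le (by positivity) hx
  rcases le_or_gt 0 c with hc | hc
  · rw [abs_of_nonneg hc]
    exact Real.rpow_le_rpow hx0.le hx' hc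
  · rw [abs_of_neg hc, Real.rpow_neg hK0.le, ← Real.inv_rpow hK0.le]
    exact Real.rpow_le_rpow_of_nonpos (by positivity) hx hc.le

theorem SB_pow {N α β : ℝ} (hN : 1 ≤ N) (hα : 0 ≤ α) (hα1 : α ≤ 1) (hβ : 1 ≤ β) (c : ℝ) :
    SB N (16 * (1 + |c|) ^ 2 * ((16 * (4 + β)) ^ |c| * N ^ (2 * c)))
      (fun x => (α + β * x) ^ c)
      (fun x => c * β * (α + β * x) ^ (c - 1)) 
      (fun x => c * β * ((c - 1) * β * (α + β * x) ^ (c - 1 - 1))) := by
  have hN0 : 0 < N := by linarith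
  have hN2 : 1 ≤ N ^ 2 := by nlinarith
  have hd : ∀ (c x : ℝ), 0 < x → HasDerivAt (fun x => (α + β * x) ^ c)
      (c * β * (α + β * x) ^ (c - 1)) x := by
    intro c x hx
    have h0 : 0 < α + β * x := by positivity
    have h1 : HasDerivAt (fun x : ℝ => α + β * x) (β * 1) x :=
      ((hasDerivAt_id x).const_mul β).const_add α
    refine (h1.rpow_const (p := c) (Or.inl h0.ne')).congr_deriv ?_
    ring
  -- the main bound
  set K : ℝ := (16 * (4 + β)) ^ |c| * N ^ (2 * c) with hK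
  have hK0 : 0 ≤ K := by positivity
  have hc0 := abs_nonneg c
  have hmain : ∀ x, N ^ 2 / 4 ≤ x → x ≤ 2 * N ^ 2 → 0 < α + β * x ∧ N ^ 2 / 4 ≤ x ∧
      (α + β * x) ^ c ≤ K := by
    intro x hx hx'
    have hx0 : 0 < x := by nlinarith
    have h0 : 0 < α + β * x := by positivity
    refine ⟨h0, hx, ?_⟩
    have h1 : (α + β * x) = N ^ 2 * ((α + β * x) / N ^ 2) := by field_simp
    rw [h1, Real.mul_rpow (by positivity) (by positivity), hK, mul_comm]
    have h2 : (N ^ 2 : ℝ) ^ c = N ^ (2 * c) := by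
      rw [← Real.rpow_natCast N 2, ← Real.rpow_mul hN0.le]
      norm_num
    rw [h2]
    refine mul_le_mul_of_nonneg_right ?_ (by positivity)
    refine rpow_abs_le (by linarith) ?_ ?_
    · rw [le_div_iff₀ (by positivity), inv_mul_le_iff₀ (by positivity)]
      nlinarith
    · rw [div_le_iff₀ (by positivity)]
      nlinarith
  have hratio : ∀ x, N ^ 2 / 4 ≤ x → β / (α + β * x) ≤ 4 / N ^ 2 := by
    intro x hx
    have hx0 : 0 < x := by nlinarith
    rw [div_le_div_iff₀ (by positivity) (by positivity)]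
    nlinarith
  refine ⟨fun x hx => hd c x hx, fun x hx => (hd (c - 1) x hx).const_mul (c * β), ?_, ?_, ?_⟩
  · intro x hx hx'
    obtain ⟨h0, -, h1⟩ := hmain x hx hx'
    rw [abs_of_pos (Real.rpow_pos_of_pos h0 c)]
    have h5 : 1 ≤ 16 * (1 + |c|) ^ 2 := by nlinarith
    exact h1.trans (le_mul_of_one_le_left hK0 h5)
  · intro x hx hx'
    obtain ⟨h0, -, h1⟩ := hmain x hx hx'
    have hr := hratio x hx
    have e1 : c * β * (α + β * x) ^ (c - 1) = c * (β / (α + β * x)) * (α + β * x) ^ c := by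
      rw [Real.rpow_sub_one h0.ne']
      field_simp
    rw [e1, abs_mul, abs_mul, abs_of_pos (Real.rpow_pos_of_pos h0 c),
      abs_of_pos (div_pos (by linarith) h0)]
    calc |c| * (β / (α + β * x)) * (α + β * x) ^ c ≤ |c| * (4 / N ^ 2) * K := by
          refine mul_le_mul (mul_le_mul_of_nonneg_left hr hc0) h1 ?_ (by positivity)
          exact (Real.rpow_pos_of_pos h0 c).le
      _ = (4 * |c|) * K / N ^ 2 := by ring
      _ ≤ _ := by
          refine div_le_div_of_nonneg_right ?_ (by positivity)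
          refine mul_le_mul_of_nonneg_right ?_ hK0
          nlinarith
  · intro x hx hx'
    obtain ⟨h0, -, h1⟩ := hmain x hx hx'
    have hr := hratio x hx
    have hr0 : 0 < β / (α + β * x) := div_pos (by linarith) h0
    have e1 : c * β * ((c - 1) * β * (α + β * x) ^ (c - 1 - 1)) =
        c * (c - 1) * (β / (α + β * x)) ^ 2 * (α + β * x) ^ c := by
      rw [Real.rpow_sub_one h0.ne', Real.rpow_sub_one h0.ne']
      field_simp
    have h3 : |c - 1| ≤ 1 + |c| := by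
      have := abs_sub c 1
      rw [abs_one] at this
      linarith
    rw [e1, abs_mul, abs_mul, abs_mul, abs_of_pos (Real.rpow_pos_of_pos h0 c),
      abs_of_pos (pow_pos hr0 2)]
    calc |c| * |c - 1| * (β / (α + β * x)) ^ 2 * (α + β * x) ^ c
        ≤ (1 + |c|) * (1 + |c|) * (4 / N ^ 2) ^ 2 * K := by
          refine mul_le_mul (mul_le_mul (mul_le_mul (by linarith) h3 (abs_nonneg _)
            (by linarith)) (pow_le_pow_left₀ hr0.le hr 2) (by positivity) (by positivity)) h1 ?_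
            (by positivity)
          exact (Real.rpow_pos_of_pos h0 c).le
      _ = _ := by
          field_simp
          ring

theorem SB_chi : ∃ K : ℝ, 1 ≤ K ∧ ∀ N : ℝ, 0 < N → SB N K (fun x => chi (x / N ^ 2))
    (fun x => deriv chi (x / N ^ 2) / N ^ 2) (fun x => deriv (deriv chi) (x / N ^ 2) / N ^ 4) := by
  obtain ⟨K, hK, h⟩ := chi_bound
  refine ⟨K, hK, fun N hN => ?_⟩
  have s1 : ContDiff ℝ ∞ (deriv chi) := (contDiff_infty_iff_deriv.1 chi_smooth).2
  have hN2 : 0 < N ^ 2 := by positivity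
  have hN4 : 0 < N ^ 4 := by positivity
  have hd : ∀ (g : ℝ → ℝ), ContDiff ℝ ∞ g → ∀ x, HasDerivAt (fun x => g (x / N ^ 2))
      (deriv g (x / N ^ 2) / N ^ 2) x := by
    intro g hg x
    have h1 : HasDerivAt (fun x : ℝ => x / N ^ 2) (1 / N ^ 2) x :=
      (hasDerivAt_id x).div_const _
    have h2 : HasDerivAt g (deriv g (x / N ^ 2)) (x / N ^ 2) :=
      ((hg.differentiable (by simp)) _).hasDerivAt
    refine (h2.comp x h1).congr_deriv ?_
    ring
  refine ⟨fun x _ => hd chi chi_smooth x, fun x _ => ?_, fun x _ _ => (h _).1, ?_, ?_⟩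
  · refine ((hd (deriv chi) s1 x).div_const (N ^ 2)).congr_deriv ?_
    field_simp
  · intro x _ _
    rw [abs_div, abs_of_pos hN2]
    exact div_le_div_of_nonneg_right (h _).2.1 hN2.le
  · intro x _ _
    rw [abs_div, abs_of_pos hN4]
    exact div_le_div_of_nonneg_right (h _).2.2 hN4.le

/-- the symbol -/
noncomputable def wS (τ a b σ : ℝ) : ℝ :=
  Real.exp (-(τ * σ)) * (1 + 4 * Real.pi ^ 2 * σ) ^ a * (0 + 1 * σ) ^ b

/-- the dyadic pieces of the symbol -/
noncomputable def Psi (τ a b N σ : ℝ) : ℝ := wS τ a b σ * chi (σ / N ^ 2)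

theorem wS_smooth (τ a b : ℝ) {σ : ℝ} (hσ : 0 < σ) : ContDiffAt ℝ ∞ (wS τ a b) σ := by
  unfold wS
  have h1 : 0 < 1 + 4 * Real.pi ^ 2 * σ := by positivity
  have h2 : 0 < 0 + 1 * σ := by linarith
  refine ContDiffAt.mul (ContDiffAt.mul ?_ ?_) ?_
  · exact (ContDiffAt.exp (by fun_prop))
  · exact ContDiffAt.rpow_const_of_ne (by fun_prop) h1.ne'
  · exact ContDiffAt.rpow_const_of_ne (by fun_prop) h2.ne'

theorem Sym_of_SB {N A : ℝ} (hN : 0 < N) {g g1 g2 : ℝ → ℝ} (h : SB N A g g1 g2)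
    (hs : ContDiff ℝ ∞ g) (hsupp : ∀ x, x ≤ N ^ 2 / 4 ∨ 2 * N ^ 2 ≤ x → g x = 0) :
    Sym N A g := by
  have hN2 : 0 < N ^ 2 := by positivity
  have hA : 0 ≤ A := (abs_nonneg _).trans (h.b0 (N ^ 2) (by nlinarith) (by nlinarith))
  have hz : ∀ x, x < N ^ 2 / 4 ∨ 2 * N ^ 2 < x → g =ᶠ[𝓝 x] fun _ => 0 := by
    intro x hx
    rcases hx with hx | hx
    · filter_upwards [Iio_mem_nhds hx] with y hy
      exact hsupp y (Or.inl (le_of_lt hy))
    · filter_upwards [Ioi_mem_nhds hx] with y hy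
      exact hsupp y (Or.inr (le_of_lt hy))
  have hdz : ∀ x, x < N ^ 2 / 4 ∨ 2 * N ^ 2 < x → deriv g =ᶠ[𝓝 x] fun _ => 0 := by
    intro x hx
    have := (hz x hx).deriv
    simpa using this
  have hd1 : ∀ x, 0 < x → deriv g x = g1 x := fun x hx => (h.d1 x hx).deriv
  have hd2 : ∀ x, 0 < x → deriv (deriv g) x = g2 x := by
    intro x hx
    have h1 : deriv g =ᶠ[𝓝 x] g1 := by
      filter_upwards [Ioi_mem_nhds hx] with y hy
      exact hd1 y hy
    rw [h1.deriv_eq]
    exact (h.d2 x hx).deriv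
  have hcase : ∀ x, (N ^ 2 / 4 ≤ x ∧ x ≤ 2 * N ^ 2) ∨ (x < N ^ 2 / 4 ∨ 2 * N ^ 2 < x) := by
    intro x
    rcases le_or_gt (N ^ 2 / 4) x with h1 | h1
    · rcases le_or_gt x (2 * N ^ 2) with h2 | h2
      · exact Or.inl ⟨h1, h2⟩
      · exact Or.inr (Or.inr h2)
    · exact Or.inr (Or.inl h1)
  refine ⟨hs, ?_, ?_, ?_, ?_⟩
  · intro x hx
    rcases hcase x with h1 | h1
    · exact h1
    · exact absurd (hsupp x (h1.imp le_of_lt le_of_lt)) hx
  · intro x
    rcases hcase x with h1 | h1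
    · exact h.b0 x h1.1 h1.2
    · rw [hsupp x (h1.imp le_of_lt le_of_lt), abs_zero]
      exact hA
  · intro x
    rcases hcase x with h1 | h1
    · rw [hd1 x (by linarith [h1.1])]
      exact h.b1 x h1.1 h1.2
    · rw [(hdz x h1).eq_of_nhds, abs_zero]
      positivity
  · intro x
    rcases hcase x with h1 | h1
    · rw [hd2 x (by linarith [h1.1])]
      exact h.b2 x h1.1 h1.2
    · rw [(hdz x h1).deriv_eq]
      simp only [deriv_const, abs_zero]
      positivity

theorem Psi_Sym (a b : ℝ) : ∃ K : ℝ, 0 < K ∧ ∀ τ N : ℝ, 0 ≤ τ → 1 ≤ N →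
    Sym N (K * N ^ (2 * (a + b))) (Psi τ a b N) := by
  obtain ⟨K0, hK0, hchi⟩ := SB_chi
  have hpi2 : 1 ≤ 4 * Real.pi ^ 2 := by nlinarith [Real.pi_gt_three]
  set Ka : ℝ := 16 * (1 + |a|) ^ 2 * (16 * (4 + 4 * Real.pi ^ 2)) ^ |a| with hKa
  set Kb : ℝ := 16 * (1 + |b|) ^ 2 * (16 * (4 + 1 : ℝ)) ^ |b| with hKb
  refine ⟨4 * (4 * (4 * 32 * Ka) * Kb) * K0, by positivity, ?_⟩
  intro τ N hτ hN
  have hN0 : 0 < N := by linarith
  have h1 := SB_exp (N := N) hN0 hτ
  have h2 := SB_pow hN zero_le_one le_rfl hpi2 a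
  have h3 := SB_pow (N := N) (α := 0) (β := 1) hN le_rfl zero_le_one le_rfl b
  have h4 := ((h1.mul hN0 h2).mul hN0 h3).mul hN0 (hchi N hN0)
  have hA : 4 * (4 * (4 * 32 * (16 * (1 + |a|) ^ 2 * ((16 * (4 + 4 * Real.pi ^ 2)) ^ |a| *
      N ^ (2 * a)))) * (16 * (1 + |b|) ^ 2 * ((16 * (4 + 1 : ℝ)) ^ |b| * N ^ (2 * b)))) * K0 =
      4 * (4 * (4 * 32 * Ka) * Kb) * K0 * N ^ (2 * (a + b)) := by
    rw [show 2 * (a + b) = 2 * a + 2 * b by ring, Real.rpow_add hN0, hKa, hKb]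
    ring
  rw [hA] at h4
  refine Sym_of_SB hN0 h4 ?_ ?_
  · rw [contDiff_iff_contDiffAt]
    intro σ
    rcases lt_or_ge (0 : ℝ) σ with hσ | hσ
    · exact (wS_smooth τ a b hσ).mul ((chi_smooth.comp (contDiff_id.div_const _)).contDiffAt)
    · have hlt : σ < N ^ 2 / 4 := by
        have : 0 < N ^ 2 / 4 := by positivity
        linarith
      have hev : (fun x => Real.exp (-(τ * x)) * (1 + 4 * Real.pi ^ 2 * x) ^ a *
          (0 + 1 * x) ^ b * chi (x / N ^ 2)) =ᶠ[𝓝 σ] fun _ => 0 := by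
        filter_upwards [Iio_mem_nhds hlt] with y hy
        have hy' : y < N ^ 2 / 4 := hy
        rw [chi_zero (Or.inl ?_), mul_zero]
        rw [div_le_iff₀ (by positivity)]
        linarith
      exact contDiffAt_const.congr_of_eventuallyEq hev
  · intro x hx
    have : chi (x / N ^ 2) = 0 := by
      apply chi_zero
      rcases hx with hx | hx
      · left
        rw [div_le_iff₀ (by positivity)]
        linarith
      · right
        rw [le_div_iff₀ (by positivity)]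
        exact hx
    change _ * chi (x / N ^ 2) = 0
    rw [this, mul_zero]

end Pool.Agent.Helper66K9.LS
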