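import Pool.Agent.Helper66K9.LS.Sup
import Pool.Agent.TH496.LS_MOD
import Pool.Agent.TH889.LS_W
import Pool.Agent.TH889.LS_DUAL
import Pool.Agent.TH73.LS_LS4
set_option autoImplicit false

/-! # The weight lemma -/

namespace Pool.Agent.Helper66K9.LS

open MeasureTheory Set Filter
open scoped ENNReal
open Pool.Agent.TH280.LS

/-- the weight `1 / (1/N + |x|)` -/
noncomputable def om (N x : ℝ) : ℝ := 1 / (1 / N + |x|)

theorem om_pos {N : ℝ} (hN : 1 ≤ N) (x : ℝ) : 0 < om N x := by
  unfold om
  have : 0 < 1 / N := by positivity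
  have := abs_nonneg x
  positivity

theorem om_le {N : ℝ} (hN : 1 ≤ N) (x : ℝ) : om N x ≤ N := by
  unfold om
  have h1 : 0 < 1 / N := by positivity
  have h2 := abs_nonneg x
  rw [div_le_iff₀ (by positivity)]
  have : N * (1 / N) = 1 := by field_simp
  nlinarith

theorem om_meas (N : ℝ) : Measurable (om N) := by
  unfold om
  fun_prop

theorem Wt_pos {N : ℝ} (hN : 1 ≤ N) (v : ℝ) : 0 < Wt N v := by
  unfold Wt
  split_ifs with h
  · have : 0 < 1 / N := by positivity
    have := abs_nonneg v
    positivity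
  · push Not at h
    positivity

theorem weight (hW : S_W) (R0 : ℝ) (hR0 : 0 ≤ R0) : ∃ C : ℝ, 0 < C ∧ ∀ N : ℝ, 1 ≤ N → ∀ b : ℝ,
    |b| ≤ R0 → ∫⁻ a : ℝ, ENNReal.ofReal (om N a) * (ENNReal.ofReal (Wt N (b - a)))⁻¹ ≤
      ENNReal.ofReal (C * (1 + Real.log N)) * ENNReal.ofReal (om N b) := by
  obtain ⟨C, hC, h⟩ := hW
  set K : ℝ := (R0 + 1) ^ (3 / 2 : ℝ) with hK
  have hK1 : 1 ≤ K := Real.one_le_rpow (by linarith) (by norm_num)
  refine ⟨(1 + R0) * (K * C + C), by positivity, ?_⟩
  intro N hN b hb
  have hN0 : 0 < N := by linarith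
  have hlog : 0 ≤ Real.log N := Real.log_nonneg hN
  obtain ⟨hI, -⟩ := h N hN
  have key : ∀ a : ℝ, om N a * (Wt N (b - a))⁻¹ ≤
      (1 + R0) * om N b * (K * (Wt N a)⁻¹ + (Wt N (b - a))⁻¹) := by
    intro a
    have hoa := om_pos hN a
    have hob := om_pos hN b
    have hW1 := inv_pos.2 (Wt_pos hN (b - a))
    have hW2 := inv_pos.2 (Wt_pos hN a)
    have hob1 : 1 ≤ (1 + R0) * om N b := by
      unfold om
      rw [mul_one_div, le_div_iff₀ (by positivity)]
      have : 1 / N ≤ 1 := by rw [div_le_one hN0]; exact hN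
      linarith
    by_cases h1 : |b - a| ≤ 1
    · -- near
      have hWe : Wt N (b - a) = 1 / N + |b - a| := by unfold Wt; rw [if_pos h1]
      have hoaW : om N a ≤ K * (Wt N a)⁻¹ := by
        unfold om Wt
        by_cases h2 : |a| ≤ 1
        · rw [if_pos h2, one_div (1 / N + |a|)]
          have : 0 ≤ (1 / N + |a|)⁻¹ := by positivity
          nlinarith
        · rw [if_neg h2]
          push Not at h2
          have h3 : |a| ≤ R0 + 1 := by
            have : |a| ≤ |b| + |b - a| := by
              have := abs_sub_abs_le_abs_sub a b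
              rw [abs_sub_comm a b] at this
              linarith
            linarith
          have h4 : 1 / (1 / N + |a|) ≤ 1 := by
            rw [div_le_one (by positivity)]
            have : 0 < 1 / N := by positivity
            linarith
          have h5 : |a| ^ (3 / 2 : ℝ) ≤ K := Real.rpow_le_rpow (abs_nonneg _) h3 (by norm_num)
          have h6 : 0 < |a| ^ (3 / 2 : ℝ) := by positivity
          calc 1 / (1 / N + |a|) ≤ 1 := h4
            _ = |a| ^ (3 / 2 : ℝ) * (|a| ^ (3 / 2 : ℝ))⁻¹ := (mul_inv_cancel₀ h6.ne').symm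
            _ ≤ _ := by gcongr
      have h7 : om N a * (Wt N (b - a))⁻¹ ≤ om N b * (om N a + (Wt N (b - a))⁻¹) := by
        rw [hWe]
        unfold om
        have hu : 0 < 1 / N + |a| := by positivity
        have hv : 0 < 1 / N + |b - a| := by positivity
        have hw : 0 < 1 / N + |b| := by positivity
        have h8 : |b| ≤ |a| + |b - a| := by
          have := abs_add_le a (b - a)
          rwa [add_sub_cancel] at this
        have h9 : 0 < 1 / N := by positivity
        set u := 1 / N + |a| with hu'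
        set v := 1 / N + |b - a| with hv'
        set w := 1 / N + |b| with hw'
        have h10 : w ≤ u + v := by linarith
        have h11 : 1 / w * (1 / u + v⁻¹) = ((u + v) / w) * (1 / u * v⁻¹) := by
          field_simp
          ring
        rw [h11]
        have h12 : 1 ≤ (u + v) / w := by
          rw [le_div_iff₀ hw]
          linarith
        have h13 : 0 ≤ 1 / u * v⁻¹ := by positivity
        nlinarith
      calc om N a * (Wt N (b - a))⁻¹ ≤ om N b * (om N a + (Wt N (b - a))⁻¹) := h7
        _ ≤ ((1 + R0) * om N b) * (K * (Wt N a)⁻¹ + (Wt N (b - a))⁻¹) := by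
          gcongr
          nlinarith
        _ = _ := by ring
    · -- far
      push Not at h1
      have hW3 : (Wt N (b - a))⁻¹ ≤ 1 := by
        unfold Wt
        rw [if_neg (not_le.2 h1)]
        apply inv_le_one_of_one_le₀
        exact Real.one_le_rpow h1.le (by norm_num)
      by_cases h2 : |a| ≤ 1
      · have h3 : om N a = (Wt N a)⁻¹ := by
          unfold om Wt
          rw [if_pos h2, one_div (1 / N + |a|)]
        calc om N a * (Wt N (b - a))⁻¹ ≤ om N a * 1 := by gcongr
          _ = (Wt N a)⁻¹ := by rw [mul_one, h3]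
          _ ≤ 1 * (K * (Wt N a)⁻¹ + (Wt N (b - a))⁻¹) := by nlinarith
          _ ≤ _ := by gcongr
      · push Not at h2
        have h3 : om N a ≤ 1 := by
          unfold om
          rw [div_le_one (by positivity)]
          have : 0 < 1 / N := by positivity
          linarith
        calc om N a * (Wt N (b - a))⁻¹ ≤ 1 * (Wt N (b - a))⁻¹ := by gcongr
          _ ≤ 1 * (K * (Wt N a)⁻¹ + (Wt N (b - a))⁻¹) := by
            have : 0 ≤ K * (Wt N a)⁻¹ := by positivity
            linarith
          _ ≤ _ := by gcongr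
  have hmW : Measurable (fun a : ℝ => (ENNReal.ofReal (Wt N a))⁻¹) :=
    ((Pool.Agent.TH73.LS4.Wt_meas N).ennreal_ofReal).inv
  have e0 : ∫⁻ a : ℝ, (ENNReal.ofReal (Wt N (b - a)))⁻¹ = ∫⁻ a : ℝ, (ENNReal.ofReal (Wt N a))⁻¹ :=
    lintegral_sub_left_eq_self (fun a : ℝ => (ENNReal.ofReal (Wt N a))⁻¹) b
  calc ∫⁻ a : ℝ, ENNReal.ofReal (om N a) * (ENNReal.ofReal (Wt N (b - a)))⁻¹
      ≤ ∫⁻ a : ℝ, ENNReal.ofReal ((1 + R0) * om N b) * (ENNReal.ofReal K *
          (ENNReal.ofReal (Wt N a))⁻¹ + (ENNReal.ofReal (Wt N (b - a)))⁻¹) := by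
        refine lintegral_mono fun a => ?_
        have hob := om_pos hN b
        have hW1 := Wt_pos hN (b - a)
        have hW2 := Wt_pos hN a
        rw [← ENNReal.ofReal_inv_of_pos hW1, ← ENNReal.ofReal_inv_of_pos hW2,
          ← ENNReal.ofReal_mul (om_pos hN a).le, ← ENNReal.ofReal_mul (by positivity),
          ← ENNReal.ofReal_add (by positivity) (by positivity), ← ENNReal.ofReal_mul (by positivity)]
        exact ENNReal.ofReal_le_ofReal (key a)
    _ = ENNReal.ofReal ((1 + R0) * om N b) * (ENNReal.ofReal K *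
          (∫⁻ a : ℝ, (ENNReal.ofReal (Wt N a))⁻¹) + ∫⁻ a : ℝ, (ENNReal.ofReal (Wt N a))⁻¹) := by
        rw [lintegral_const_mul' _ _ ENNReal.ofReal_ne_top, lintegral_add_left (hmW.const_mul _),
          lintegral_const_mul' _ _ ENNReal.ofReal_ne_top, e0]
    _ ≤ ENNReal.ofReal ((1 + R0) * om N b) * (ENNReal.ofReal K *
          ENNReal.ofReal (C * (1 + Real.log N)) + ENNReal.ofReal (C * (1 + Real.log N))) := by
        gcongr
    _ = _ := by
        have hob := om_pos hN b
        rw [← ENNReal.ofReal_mul (by positivity), ← ENNReal.ofReal_add (by positivity)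
          (by positivity), ← ENNReal.ofReal_mul (by positivity), ← ENNReal.ofReal_mul
          (by positivity)]
        congr 1
        ring

end Pool.Agent.Helper66K9.LS
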